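import Pool.Agent.TH373.DR3.IndM

set_option autoImplicit false

/-!
Frequencies of digit matrices of several numbers, for almost all `n`, by the second moment.
-/

namespace Pool.Agent.TH373.DR3

open Finset Pool.Agent.Helper153.Vdc Pool.Agent.TH373.DR

/-- almost independence with a general index type -/
theorem indepT {s : ℕ} (ρ : Fin s → ℝ) (hρ : Function.Injective ρ)
    (hnat : ∀ i, ∀ n : ℕ, ρ i ≠ n) (hpos : ∀ i, 0 < ρ i) (α β : Fin s → ℝ) (hα : ∀ i, α i ≠ 0)
    (b : ℕ) (hb : 2 ≤ b) (A : ℝ) (hA : 0 < A) (R : ℕ) :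
    ∃ c : ℝ, 0 < c ∧ ∃ X0 : ℕ, ∀ X : ℕ, X0 ≤ X → ∀ (κ : Type) [Fintype κ], Fintype.card κ ≤ R →
      ∀ (ro : κ → Fin s) (pl a : κ → ℕ),
      Function.Injective (fun k => (ro k, pl k)) →
      (∀ k, (pl k : ℝ) ≤ A * Real.log X) → (∀ k, a k < b) →
      ∀ _ : DecidablePred fun n : ℕ => ∀ k, dgt b ((α (ro k) * (n : ℝ) ^ (ρ (ro k)) + β (ro k)) *
        (b : ℝ) ^ (pl k)) = (a k : ℤ),
      |(((Icc 1 X).filter (fun n : ℕ => ∀ k, dgt b ((α (ro k) * (n : ℝ) ^ (ρ (ro k)) + β (ro k)) *
        (b : ℝ) ^ (pl k)) = (a k : ℤ))).card : ℝ) - X / (b : ℝ) ^ (Fintype.card κ)| ≤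
          (X : ℝ) ^ (1 - c) := by
  classical
  obtain ⟨c, hc, X0, h⟩ := indepM ρ hρ hnat hpos α β hα b hb A hA
  have t : Filter.Tendsto (fun X : ℕ => Real.log X) Filter.atTop Filter.atTop :=
    Real.tendsto_log_atTop.comp tendsto_natCast_atTop_atTop
  have hlo : (fun x : ℝ => Real.log x) =o[Filter.atTop] (fun x : ℝ => x) :=
    Real.isLittleO_log_id_atTop
  have h2 := (hlo.bound (show 0 < c / (R + 1) by positivity))
  obtain ⟨X1, hX1⟩ := Filter.eventually_atTop.1 ((t.eventually h2).and (t.eventually_ge_atTop 1))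
  refine ⟨c, hc, max X0 X1, fun X hX κ _ hκ ro pl a hinj hpl ha _ => ?_⟩
  have g0 := (le_max_left X0 X1).trans hX
  obtain ⟨g1, g2⟩ := hX1 X ((le_max_right X0 X1).trans hX)
  have hr : ((Fintype.card κ : ℕ) : ℝ) * Real.log (Real.log X) ≤ c * Real.log X := by
    have h3 : 0 ≤ Real.log (Real.log X) := Real.log_nonneg g2
    rw [Real.norm_of_nonneg h3, Real.norm_of_nonneg (by linarith)] at g1
    have h4 : ((Fintype.card κ : ℕ) : ℝ) ≤ R + 1 := by
      have : ((Fintype.card κ : ℕ) : ℝ) ≤ R := by exact_mod_cast hκ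
      linarith
    calc ((Fintype.card κ : ℕ) : ℝ) * Real.log (Real.log X)
        ≤ (R + 1) * (c / (R + 1) * Real.log X) :=
          mul_le_mul h4 g1 h3 (by positivity)
      _ = _ := by field_simp
  set e := Fintype.equivFin κ with he
  have hmain := h X g0 (Fintype.card κ) hr (fun k => ro (e.symm k)) (fun k => pl (e.symm k))
    (fun k => a (e.symm k)) (fun k k' hkk => by
      have := hinj (a₁ := e.symm k) (a₂ := e.symm k') hkk
      exact e.symm.injective this) (fun k => hpl _) (fun k => ha _) (Classical.decPred _)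
  have heq : ((Icc 1 X).filter (fun n : ℕ => ∀ k, dgt b ((α (ro k) * (n : ℝ) ^ (ρ (ro k)) + β (ro k)) *
        (b : ℝ) ^ (pl k)) = (a k : ℤ))).card =
      ((Icc 1 X).filter (fun n : ℕ => Has b (fun k => a (e.symm k))
        (fun k => (α (ro (e.symm k)) * (n : ℝ) ^ (ρ (ro (e.symm k))) + β (ro (e.symm k))) *
        (b : ℝ) ^ (pl (e.symm k))))).card := by
    congr 1
    apply filter_congr
    intro n _
    unfold Has
    constructor
    · intro hk k
      exact hk (e.symm k)
    · intro hk k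
      have := hk (e k)
      simp only [Equiv.symm_apply_apply] at this
      exact this
  rw [heq]
  convert hmain using 6

/-- **Frequencies.** -/
theorem freqM {s : ℕ} (ρ : Fin s → ℝ) (hρ : Function.Injective ρ)
    (hnat : ∀ i, ∀ n : ℕ, ρ i ≠ n) (hpos : ∀ i, 0 < ρ i) (α β : Fin s → ℝ) (hα : ∀ i, α i ≠ 0)
    (b : ℕ) (hb : 2 ≤ b) (A : ℝ) (hA : 0 < A) (m : ℕ) :
    ∃ X0 : ℕ, ∀ X : ℕ, X0 ≤ X → ∀ L : ℕ, 1 ≤ L → ((L + m : ℕ) : ℝ) ≤ A * Real.log X →
      ∀ D : Fin s → Fin m → ℕ, (∀ j t, D j t < b) → ∀ ε : ℝ, 0 < ε →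
      ∀ _ : ∀ n : ℕ, DecidablePred fun i : ℕ => ∀ j (t : Fin m),
        dgt b ((α j * (n : ℝ) ^ (ρ j) + β j) * (b : ℝ) ^ (i + (t : ℕ))) = (D j t : ℤ),
      ∀ T : Finset ℕ, (∀ n ∈ T, (1 ≤ n ∧ n ≤ X) ∧
        ε * L ≤ |(((range L).filter (fun i : ℕ => ∀ j (t : Fin m),
          dgt b ((α j * (n : ℝ) ^ (ρ j) + β j) * (b : ℝ) ^ (i + (t : ℕ))) = (D j t : ℤ))).card : ℝ) -
            L / (b : ℝ) ^ (s * m)|) →
      (T.card : ℝ) * (ε ^ 2 * L) ≤ (2 * m + 1) * X := by
  classical
  obtain ⟨c, hc, X0, h⟩ := indepT ρ hρ hnat hpos α β hα b hb A hA (2 * (s * m))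
  obtain ⟨X1, hX1⟩ := log_sq_le (3 * A) c hc
  refine ⟨max (max X0 X1) 3, fun X hX L hL hLm D hD ε hε _ T hT => ?_⟩
  simp only [max_le_iff] at hX
  obtain ⟨⟨g0, g1⟩, g3⟩ := hX
  have hXpos : (0 : ℝ) < X := by exact_mod_cast (by omega : 0 < X)
  have hlog : 0 < Real.log X := Real.log_pos (by exact_mod_cast (by omega : 1 < X))
  have hbR : (2 : ℝ) ≤ b := by exact_mod_cast hb
  have hb0 : (0 : ℝ) < b := by linarith
  have hL0 : (0 : ℝ) < L := by exact_mod_cast hL
  set p : ℝ := 1 / (b : ℝ) ^ (s * m) with hp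
  have hp0 : 0 < p := by positivity
  have hp1 : p ≤ 1 := by
    rw [hp, div_le_one (by positivity)]
    exact one_le_pow₀ (by linarith)
  set E : ℝ := (X : ℝ) ^ (1 - c) with hE
  have hE0 : 0 ≤ E := by positivity
  set P : ℕ → ℕ → Prop := fun i n => ∀ j (t : Fin m),
    dgt b ((α j * (n : ℝ) ^ (ρ j) + β j) * (b : ℝ) ^ (i + (t : ℕ))) = (D j t : ℤ) with hP
  set I : ℕ → ℕ → ℝ := fun i n => if P i n then 1 else 0 with hI
  have hI01 : ∀ i n, I i n = 0 ∨ I i n = 1 := by
    intro i n; simp only [hI]; split_ifs <;> simp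
  -- one place
  have hone : ∀ i < L, |∑ n ∈ Icc 1 X, I i n - p * X| ≤ E := by
    intro i hi
    have h1 := h X g0 (Fin s × Fin m) (by
      rw [Fintype.card_prod, Fintype.card_fin, Fintype.card_fin]; omega)
      (fun k => k.1) (fun k => i + (k.2 : ℕ)) (fun k => D k.1 k.2) (fun k k' hkk => by
        simp only [Prod.mk.injEq] at hkk
        exact Prod.ext hkk.1 (Fin.ext (by omega)))
      (fun k => by
        refine le_trans ?_ hLm
        exact_mod_cast (by have := k.2.2; omega : i + (k.2 : ℕ) ≤ L + m))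
      (fun k => hD _ _) (Classical.decPred _)
    rw [Fintype.card_prod, Fintype.card_fin, Fintype.card_fin] at h1
    have e1 : ∑ n ∈ Icc 1 X, I i n = (((Icc 1 X).filter (fun n : ℕ => ∀ k : Fin s × Fin m,
        dgt b ((α k.1 * (n : ℝ) ^ (ρ k.1) + β k.1) * (b : ℝ) ^ (i + (k.2 : ℕ))) =
          (D k.1 k.2 : ℤ))).card : ℝ) := by
      simp only [hI]
      rw [← Finset.sum_filter, sum_const, nsmul_eq_mul, mul_one]
      refine congrArg (fun u : ℕ => (u : ℝ)) (congrArg Finset.card (filter_congr fun n _ => ?_))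
      simp only [hP, Prod.forall]
    have e2 : p * X = X / (b : ℝ) ^ (s * m) := by rw [hp]; ring
    rw [e1, e2]
    convert h1 using 6
  -- two places
  have htwo : ∀ i < L, ∀ i' < L, i + m ≤ i' → |∑ n ∈ Icc 1 X, I i n * I i' n - p ^ 2 * X| ≤ E := by
    intro i hi i' hi' hfar
    have h1 := h X g0 (Bool × (Fin s × Fin m)) (by
      rw [Fintype.card_prod, Fintype.card_prod, Fintype.card_fin, Fintype.card_fin,
        Fintype.card_bool])
      (fun k => k.2.1) (fun k => (if k.1 then i else i') + (k.2.2 : ℕ)) (fun k => D k.2.1 k.2.2)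
      (fun k k' hkk => by
        obtain ⟨u, j, t⟩ := k
        obtain ⟨u', j', t'⟩ := k'
        simp only [Prod.mk.injEq] at hkk
        obtain ⟨h1, h2⟩ := hkk
        have ht := t.2
        have ht' := t'.2
        have hu : u = u' := by
          cases u <;> cases u' <;> simp at h2 ⊢ <;> omega
        subst hu
        have : (t : ℕ) = t' := by omega
        rw [h1, Fin.ext this])
      (fun k => by
        refine le_trans ?_ hLm
        have := k.2.2.2
        have h3 : (if k.1 then i else i') < L := by split_ifs <;> assumption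
        exact_mod_cast (by omega : (if k.1 then i else i') + (k.2.2 : ℕ) ≤ L + m))
      (fun k => hD _ _) (Classical.decPred _)
    rw [Fintype.card_prod, Fintype.card_prod, Fintype.card_fin, Fintype.card_fin,
      Fintype.card_bool] at h1
    have e1 : ∑ n ∈ Icc 1 X, I i n * I i' n = (((Icc 1 X).filter (fun n : ℕ =>
        ∀ k : Bool × (Fin s × Fin m),
        dgt b ((α k.2.1 * (n : ℝ) ^ (ρ k.2.1) + β k.2.1) *
          (b : ℝ) ^ ((if k.1 then i else i') + (k.2.2 : ℕ))) = (D k.2.1 k.2.2 : ℤ))).card : ℝ) := by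
      have e3 : ∀ n, I i n * I i' n = if (P i n ∧ P i' n) then (1 : ℝ) else 0 := by
        intro n
        simp only [hI]
        by_cases h1 : P i n <;> by_cases h2 : P i' n <;> simp [h1, h2]
      simp only [e3]
      rw [← Finset.sum_filter, sum_const, nsmul_eq_mul, mul_one]
      refine congrArg (fun u : ℕ => (u : ℝ)) (congrArg Finset.card (filter_congr fun n _ => ?_))
      simp only [hP, Prod.forall, Bool.forall_bool]
      simp only [if_true, Bool.false_eq_true, if_false]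
      exact and_comm
    have e2 : p ^ 2 * X = X / (b : ℝ) ^ (2 * (s * m)) := by
      rw [hp, div_pow, one_pow, ← pow_mul, mul_comm (s * m) 2]
      ring
    rw [e1, e2]
    convert h1 using 6
  -- the second moment
  have hsum1 : ∑ n ∈ Icc 1 X, (1 : ℝ) = X := by simp
  have hpair : ∀ i i', ∑ n ∈ Icc 1 X, (I i n - p) * (I i' n - p) =
      ∑ n ∈ Icc 1 X, I i n * I i' n - p * ∑ n ∈ Icc 1 X, I i n - p * ∑ n ∈ Icc 1 X, I i' n +
        p ^ 2 * X := by
    intro i i'
    rw [← hsum1, mul_sum, mul_sum, mul_sum, ← sum_sub_distrib, ← sum_sub_distrib, ← sum_add_distrib]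
    apply sum_congr rfl
    intro n _
    ring
  have hfarb : ∀ i < L, ∀ i' < L, i + m ≤ i' →
      ∑ n ∈ Icc 1 X, (I i n - p) * (I i' n - p) ≤ 3 * E := by
    intro i hi i' hi' hfar
    rw [hpair]
    have h1 := hone i hi
    have h2 := hone i' hi'
    have h3 := htwo i hi i' hi' hfar
    rw [abs_le] at h1 h2 h3
    nlinarith [h1.1, h2.1, h3.2]
  have hpairb : ∀ i ∈ range L, ∀ i' ∈ range L,
      ∑ n ∈ Icc 1 X, (I i n - p) * (I i' n - p) ≤
        (if i < i' + m ∧ i' < i + m then (X : ℝ) else 0) + 3 * E := by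
    intro i hi i' hi'
    rw [mem_range] at hi hi'
    split_ifs with hn
    · have h1 : ∑ n ∈ Icc 1 X, (I i n - p) * (I i' n - p) ≤ ∑ n ∈ Icc 1 X, (1 : ℝ) := by
        apply sum_le_sum
        intro n _
        rcases hI01 i n with h1 | h1 <;> rcases hI01 i' n with h2 | h2 <;> rw [h1, h2] <;> nlinarith
      rw [hsum1] at h1
      linarith
    · rw [zero_add]
      by_cases h1 : i < i' + m
      · exact hfarb i hi i' hi' (by
          by_contra hcon
          exact hn ⟨h1, by omega⟩)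
      · have := hfarb i' hi' i hi (by omega)
        refine le_trans (le_of_eq ?_) this
        apply sum_congr rfl
        intro n _
        ring
  have hnear : ∀ i, ∑ i' ∈ range L, (if i < i' + m ∧ i' < i + m then (X : ℝ) else 0) ≤ 2 * m * X := by
    intro i
    rw [← Finset.sum_filter, sum_const, nsmul_eq_mul]
    apply mul_le_mul_of_nonneg_right _ hXpos.le
    have h1 : (range L).filter (fun i' => i < i' + m ∧ i' < i + m) ⊆ Ico (i + 1 - m) (i + m) := by
      intro i' hi'
      rw [mem_filter] at hi'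
      rw [mem_Ico]
      omega
    have h2 := card_le_card h1
    rw [Nat.card_Ico] at h2
    have h3 : i + m - (i + 1 - m) ≤ 2 * m := by omega
    exact_mod_cast h2.trans h3
  have hsecond : ∑ n ∈ Icc 1 X, (∑ i ∈ range L, (I i n - p)) ^ 2 ≤ L * X * (2 * m + 1) := by
    have e1 : ∑ n ∈ Icc 1 X, (∑ i ∈ range L, (I i n - p)) ^ 2 =
        ∑ i ∈ range L, ∑ i' ∈ range L, ∑ n ∈ Icc 1 X, (I i n - p) * (I i' n - p) := by
      have : ∀ n, (∑ i ∈ range L, (I i n - p)) ^ 2 =
          ∑ i ∈ range L, ∑ i' ∈ range L, (I i n - p) * (I i' n - p) := by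
        intro n
        rw [sq, sum_mul_sum]
      simp only [this]
      rw [sum_comm]
      apply sum_congr rfl
      intro i _
      rw [sum_comm]
    rw [e1]
    have h1 : ∀ i ∈ range L, ∑ i' ∈ range L, ∑ n ∈ Icc 1 X, (I i n - p) * (I i' n - p) ≤
        2 * m * X + L * (3 * E) := by
      intro i hi
      refine (sum_le_sum (hpairb i hi)).trans ?_
      rw [sum_add_distrib, sum_const, card_range, nsmul_eq_mul]
      have := hnear i
      linarith
    refine (sum_le_sum h1).trans ?_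
    rw [sum_const, card_range, nsmul_eq_mul]
    have h2 : L * (3 * E) ≤ X := by
      have h3 := hX1 X g1
      have h4 : (L : ℝ) ≤ A * Real.log X := by
        refine le_trans ?_ hLm
        exact_mod_cast Nat.le_add_right _ _
      have h5 : 3 * A * Real.log X ≤ (X : ℝ) ^ c := by
        refine le_trans ?_ h3
        apply mul_le_mul_of_nonneg_left _ (by positivity)
        nlinarith
      calc (L : ℝ) * (3 * E) ≤ (A * Real.log X) * (3 * E) := by gcongr
        _ = (3 * A * Real.log X) * E := by ring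
        _ ≤ (X : ℝ) ^ c * E := mul_le_mul_of_nonneg_right h5 hE0
        _ = X := by
          rw [hE, ← Real.rpow_add hXpos]
          have : c + (1 - c) = 1 := by ring
          rw [this, Real.rpow_one]
    have : (L : ℝ) * (2 * m * X + L * (3 * E)) ≤ L * (2 * m * X + X) :=
      mul_le_mul_of_nonneg_left (by linarith) hL0.le
    calc _ ≤ (L : ℝ) * (2 * m * X + X) := this
      _ = _ := by ring
  -- Chebyshev
  have hcount : ∀ n : ℕ, (((range L).filter (fun i : ℕ => ∀ j (t : Fin m),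
          dgt b ((α j * (n : ℝ) ^ (ρ j) + β j) * (b : ℝ) ^ (i + (t : ℕ))) = (D j t : ℤ))).card : ℝ) -
            L / (b : ℝ) ^ (s * m) = ∑ i ∈ range L, (I i n - p) := by
    intro n
    rw [sum_sub_distrib, sum_const, card_range, nsmul_eq_mul]
    have e1 : ∑ i ∈ range L, I i n = (((range L).filter (fun i : ℕ => ∀ j (t : Fin m),
          dgt b ((α j * (n : ℝ) ^ (ρ j) + β j) * (b : ℝ) ^ (i + (t : ℕ))) = (D j t : ℤ))).card : ℝ) := by
      simp only [hI]
      rw [← Finset.sum_filter, sum_const, nsmul_eq_mul, mul_one]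
    rw [e1, hp]
    ring
  have hTsub : T ⊆ Icc 1 X := fun n hn => mem_Icc.2 (hT n hn).1
  have hcheb : (T.card : ℝ) * (ε * L) ^ 2 ≤ L * X * (2 * m + 1) := by
    calc (T.card : ℝ) * (ε * L) ^ 2 = ∑ _n ∈ T, (ε * L) ^ 2 := by rw [sum_const, nsmul_eq_mul]
      _ ≤ ∑ n ∈ T, (∑ i ∈ range L, (I i n - p)) ^ 2 := by
          apply sum_le_sum
          intro n hn
          have h1 := (hT n hn).2
          rw [hcount n] at h1
          rw [← sq_abs (∑ i ∈ range L, (I i n - p))]
          exact pow_le_pow_left₀ (by positivity) h1 2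
      _ ≤ ∑ n ∈ Icc 1 X, (∑ i ∈ range L, (I i n - p)) ^ 2 :=
          sum_le_sum_of_subset_of_nonneg hTsub fun _ _ _ => sq_nonneg _
      _ ≤ _ := hsecond
  have e3 : (T.card : ℝ) * (ε * L) ^ 2 = L * ((T.card : ℝ) * (ε ^ 2 * L)) := by ring
  rw [e3] at hcheb
  have e4 : (L : ℝ) * X * (2 * m + 1) = L * ((2 * m + 1) * X) := by ring
  rw [e4] at hcheb
  exact le_of_mul_le_mul_left hcheb hL0

end Pool.Agent.TH373.DR3
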