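import Pool.Agent.TH373.DR3.Pow

set_option autoImplicit false

/-!
Exponential sums with phases close to `∑ c_i x^(ρ_i)`, arbitrary distinct exponents `ρ_i` not natural.
-/

namespace Pool.Agent.TH373.DR3

open Finset Pool.Agent.Helper153.Vdc Pool.Agent.TH373.DR

theorem pow_up {P x : ℝ} (hP : 0 < P) (h1 : P ≤ x) (h2 : x ≤ 2 * P) (e : ℝ) :
    x ^ e ≤ (2 : ℝ) ^ |e| * P ^ e := by
  have hx : 0 < x := by linarith
  rcases le_or_gt 0 e with h | h
  · rw [abs_of_nonneg h, ← Real.mul_rpow (by norm_num) hP.le]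
    exact Real.rpow_le_rpow hx.le h2 h
  · have h3 : x ^ e ≤ P ^ e := Real.rpow_le_rpow_of_nonpos hP h1 h.le
    have h4 : (1 : ℝ) ≤ (2 : ℝ) ^ |e| := Real.one_le_rpow (by norm_num) (abs_nonneg _)
    have h5 : 0 < P ^ e := by positivity
    nlinarith

theorem pow_low {P x : ℝ} (hP : 0 < P) (h1 : P ≤ x) (h2 : x ≤ 2 * P) (e : ℝ) :
    (1 / 2 : ℝ) ^ |e| * P ^ e ≤ x ^ e := by
  have hx : 0 < x := by linarith
  rcases le_or_gt 0 e with h | h
  · have h3 : P ^ e ≤ x ^ e := Real.rpow_le_rpow hP.le h1 h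
    have h4 : (1 / 2 : ℝ) ^ |e| ≤ 1 := Real.rpow_le_one (by norm_num) (by norm_num) (abs_nonneg _)
    have h5 : 0 < P ^ e := by positivity
    nlinarith
  · have h3 : (2 * P) ^ e ≤ x ^ e := Real.rpow_le_rpow_of_nonpos hx h2 h.le
    refine le_trans (le_of_eq ?_) h3
    rw [Real.mul_rpow (by norm_num) hP.le, abs_of_neg h, one_div, Real.inv_rpow (by norm_num),
      Real.rpow_neg (by norm_num), inv_inv]

/-- **Exponential sums** with phases close to `∑ c_i x^(ρ_i)`. -/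
theorem expsum_gen {s : ℕ} (ρ : Fin s → ℝ) (hinj : Function.Injective ρ)
    (hnat : ∀ i, ∀ n : ℕ, ρ i ≠ n) (η0 : ℝ) (hη0' : 0 < η0) (A : ℝ) (hA : 0 ≤ A) :
    ∃ σ : ℝ, 0 < σ ∧ ∃ C : ℝ, 1 ≤ C ∧ ∃ δ : ℝ, 0 < δ ∧ ∃ Km : ℕ, ∀ (P M : ℕ) (c : Fin s → ℝ)
      (f : ℕ → ℝ → ℝ) (μ : ℝ), 1 ≤ P → M ≤ P → (∃ i, |c i| * (P : ℝ) ^ (ρ i) = μ) →
      (∀ i, |c i| * (P : ℝ) ^ (ρ i) ≤ μ) → (P : ℝ) ^ η0 ≤ μ → μ ≤ (P : ℝ) ^ A →
      (∀ k x, 0 < x → HasDerivAt (f k) (f (k + 1) x) x) →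
      (∀ k, k ≤ Km → ∀ x : ℝ, (P : ℝ) ≤ x → x ≤ 2 * P →
        |f k x - ph ρ c k x| ≤ δ * (μ * (P : ℝ) ^ (-(k : ℝ)))) →
      ‖∑ n ∈ range M, ee (f 0 ((P : ℝ) + 1 + n))‖ ≤ C * (P : ℝ) ^ (1 - σ) := by
  classical
  rcases isEmpty_or_nonempty (Fin s) with hemp | hne
  · refine ⟨1, one_pos, 1, le_rfl, 1, one_pos, 0, fun P M c f μ _ _ h _ _ _ _ _ => ?_⟩
    obtain ⟨i, _⟩ := h
    exact hemp.elim i
  obtain ⟨i1, hi1⟩ := Finite.exists_max (fun i => |ρ i|)
  set R := |ρ i1| with hR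
  set η : ℝ := min (η0 / 2) (1 / 2) with hη
  have hη0 : 0 < η := lt_min (by positivity) (by norm_num)
  have hη1 : η < 1 := lt_of_le_of_lt (min_le_right _ _) (by norm_num)
  have hηρ : η ≤ η0 / 2 := min_le_left _ _
  set K0 : ℕ := ⌈A⌉₊ + 2 with hK0
  have hK0' : A + 2 ≤ K0 := by
    rw [hK0]; push_cast; linarith [Nat.le_ceil A]
  obtain ⟨κ, hκ, hlarge⟩ := large_der ρ hinj hnat K0
  -- the upper bound for the derivatives
  set C1 : ℝ := 1 + ∑ k ∈ range (K0 + s + 1), ∑ i, |fall (ρ i) k| * (2 : ℝ) ^ |ρ i| with hC1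
  have hC1' : ∀ k, k ≤ K0 + s → ∑ i, |fall (ρ i) k| * (2 : ℝ) ^ |ρ i| ≤ C1 := by
    intro k hk
    have := single_le_sum (f := fun k => ∑ i, |fall (ρ i) k| * (2 : ℝ) ^ |ρ i|)
      (fun k _ => sum_nonneg fun i _ => by positivity) (mem_range.2 (by omega : k < K0 + s + 1))
    linarith
  have hC1pos : 1 ≤ C1 := by
    have : 0 ≤ ∑ k ∈ range (K0 + s + 1), ∑ i, |fall (ρ i) k| * (2 : ℝ) ^ |ρ i| :=
      sum_nonneg fun k _ => sum_nonneg fun i _ => by positivity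
    linarith
  set κ2 : ℝ := κ * (1 / 2) ^ (K0 + s) * (1 / 2 : ℝ) ^ R with hκ2
  have hκ20 : 0 < κ2 := by positivity
  set κ' : ℝ := min 1 (κ2 / 3) with hκ'
  have hκ'0 : 0 < κ' := lt_min one_pos (by positivity)
  have hκ'1 : κ' ≤ 1 := min_le_left _ _
  have hκ'2 : κ' ≤ κ2 / 3 := min_le_right _ _
  set C2 : ℝ := C1 + 1 with hC2
  have hC2pos : 0 < C2 := by linarith
  set r0 : ℝ := κ' / C2 with hr0
  have hr00 : 0 < r0 := by positivity
  set A1 : ℝ := C2 / κ' with hA1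
  have hA1' : 1 ≤ A1 := by
    rw [hA1, le_div_iff₀ hκ'0]; linarith
  obtain ⟨σ, hσ, C, hC, htest⟩ := testK_unif A1 hA1' η hη0 hη1 (K0 + s)
  set J : ℕ := ⌈2 / r0⌉₊ with hJ
  have hJ' : 2 / r0 ≤ J := Nat.le_ceil _
  -- large `P`
  obtain ⟨P0, hP0⟩ : ∃ P0 : ℕ, ∀ P : ℕ, P0 ≤ P → 2 / r0 ≤ P ∧
      (P : ℝ) ^ (η - η0) ≤ κ' := by
    have t1 : Filter.Tendsto (fun P : ℕ => (P : ℝ) ^ (-(η0 - η))) Filter.atTop (nhds 0) :=
      (tendsto_rpow_neg_atTop (by linarith)).comp tendsto_natCast_atTop_atTop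
    have t2 : Filter.Tendsto (fun P : ℕ => (P : ℝ)) Filter.atTop Filter.atTop :=
      tendsto_natCast_atTop_atTop
    obtain ⟨P0, hP0⟩ := Filter.eventually_atTop.1
      ((t2.eventually_ge_atTop (2 / r0)).and (t1.eventually (ge_mem_nhds hκ'0)))
    refine ⟨P0, fun P hP => ⟨(hP0 P hP).1, ?_⟩⟩
    have := (hP0 P hP).2
    rw [neg_sub] at this
    exact this
  refine ⟨min σ 1, lt_min hσ one_pos, J * C + P0 + 1, by
    have : 0 ≤ (J : ℝ) * C := by positivity
    have : (0 : ℝ) ≤ P0 := by positivity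
    linarith, κ', hκ'0, K0 + s, ?_⟩
  intro P M c f μ hP hM him' him hμη hμA hder hclose
  have hP1 : (1 : ℝ) ≤ P := by exact_mod_cast hP
  have hPpos : (0 : ℝ) < P := by linarith
  have hpow1 : (1 : ℝ) ≤ (P : ℝ) ^ (1 - min σ 1) :=
    Real.one_le_rpow hP1 (by linarith [min_le_right σ 1])
  rcases lt_or_ge P P0 with hsmall | hbig
  · have h1 := triv_bound M (fun n : ℕ => f 0 ((P : ℝ) + 1 + n))
    have h2 : (M : ℝ) ≤ P0 := by exact_mod_cast (by omega : M ≤ P0)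
    have : 0 ≤ (J : ℝ) * C := by positivity
    have h3 : (P0 : ℝ) + 1 ≤ (J * C + P0 + 1) * 1 := by linarith
    calc _ ≤ (M : ℝ) := h1
      _ ≤ (J * C + P0 + 1) * 1 := by linarith
      _ ≤ _ := mul_le_mul_of_nonneg_left hpow1 (by positivity)
  obtain ⟨hPr, hPη⟩ := hP0 P hbig
  -- the size
  obtain ⟨im, hμ⟩ := him'
  have hμpos : 0 < μ := lt_of_lt_of_le (by positivity) hμη
  -- upper bound for the derivatives on `[P, 2P]`
  have hup : ∀ k, k ≤ K0 + s → ∀ x : ℝ, (P : ℝ) ≤ x → x ≤ 2 * P →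
      |f k x| ≤ C2 * (μ * (P : ℝ) ^ (-(k : ℝ))) := by
    intro k hk x hx1 hx2
    have hxpos : 0 < x := by linarith
    have hph : |ph ρ c k x| ≤ C1 * (μ * (P : ℝ) ^ (-(k : ℝ))) := by
      unfold ph
      calc |∑ i, c i * (fall (ρ i) k * x ^ (ρ i - k))|
          ≤ ∑ i, |c i * (fall (ρ i) k * x ^ (ρ i - k))| := abs_sum_le_sum_abs _ _
        _ ≤ ∑ i, (|fall (ρ i) k| * (2 : ℝ) ^ |ρ i|) * (μ * (P : ℝ) ^ (-(k : ℝ))) := by
            apply sum_le_sum
            intro i _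
            rw [abs_mul, abs_mul, abs_of_pos (show 0 < x ^ (ρ i - k) by positivity)]
            have h1 : x ^ (ρ i - k) ≤ (2 : ℝ) ^ |ρ i| * ((P : ℝ) ^ (ρ i) * (P : ℝ) ^ (-(k : ℝ))) := by
              rw [sub_eq_add_neg, Real.rpow_add hxpos, ← mul_assoc]
              apply mul_le_mul (pow_up hPpos hx1 hx2 _) _ (by positivity) (by positivity)
              exact Real.rpow_le_rpow_of_nonpos hPpos hx1 (by simp)
            calc |c i| * (|fall (ρ i) k| * x ^ (ρ i - k))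
                ≤ |c i| * (|fall (ρ i) k| *
                  ((2 : ℝ) ^ |ρ i| * ((P : ℝ) ^ (ρ i) * (P : ℝ) ^ (-(k : ℝ))))) := by gcongr
              _ = (|fall (ρ i) k| * (2 : ℝ) ^ |ρ i|) * ((|c i| * (P : ℝ) ^ (ρ i)) * (P : ℝ) ^ (-(k : ℝ))) := by
                  ring
              _ ≤ _ := by
                  apply mul_le_mul_of_nonneg_left _ (by positivity)
                  exact mul_le_mul_of_nonneg_right (him i) (by positivity)
        _ = (∑ i, |fall (ρ i) k| * (2 : ℝ) ^ |ρ i|) * (μ * (P : ℝ) ^ (-(k : ℝ))) := by rw [sum_mul]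
        _ ≤ _ := mul_le_mul_of_nonneg_right (hC1' k hk) (by positivity)
    have h2 := hclose k hk x hx1 hx2
    have h3 : |f k x| ≤ |f k x - ph ρ c k x| + |ph ρ c k x| := by
      have := abs_add_le (f k x - ph ρ c k x) (ph ρ c k x)
      rwa [sub_add_cancel] at this
    have h4 : κ' * (μ * (P : ℝ) ^ (-(k : ℝ))) ≤ 1 * (μ * (P : ℝ) ^ (-(k : ℝ))) :=
      mul_le_mul_of_nonneg_right hκ'1 (by positivity)
    rw [hC2, add_mul]
    linarith
  -- the length of the blocks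
  set L : ℕ := ⌊r0 * P⌋₊ with hL
  have hL1 : (L : ℝ) ≤ r0 * P := Nat.floor_le (by positivity)
  have hL2 : r0 * P / 2 ≤ L := by
    have h1 := Nat.lt_floor_add_one (r0 * P)
    have h2 : 2 ≤ r0 * P := by
      rw [div_le_iff₀ hr00] at hPr; linarith
    rw [← hL] at h1
    linarith
  have hJL : M ≤ J * L := by
    have h1 : (P : ℝ) ≤ J * L := by
      calc (P : ℝ) = 2 / r0 * (r0 * P / 2) := by field_simp
        _ ≤ J * L := mul_le_mul hJ' hL2 (by positivity) (by positivity)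
    have h2 : P ≤ J * L := by exact_mod_cast h1
    omega
  have hblock : ∀ n M', n + M' ≤ M → M' ≤ L →
      ‖∑ m ∈ range M', ee (f 0 ((P : ℝ) + 1 + ((n + m : ℕ) : ℝ)))‖ ≤ C * (P : ℝ) ^ (1 - σ) := by
    intro n M' hnM hM'
    rcases Nat.eq_zero_or_pos M' with rfl | hM'pos
    · simp; positivity
    have hnMR : (n : ℝ) + M' ≤ P := by exact_mod_cast (by omega : n + M' ≤ P)
    have hM'R : (1 : ℝ) ≤ M' := by exact_mod_cast hM'pos
    set x0 : ℝ := (P : ℝ) + 1 + n with hx0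
    have hn0 : (0 : ℝ) ≤ n := by positivity
    have hx0P : (P : ℝ) ≤ x0 := by rw [hx0]; linarith
    have hx02 : x0 ≤ 2 * P := by rw [hx0]; linarith
    have hx0pos : 0 < x0 := by linarith
    obtain ⟨m, hms, hm⟩ := hlarge (fun i => c i * x0 ^ (ρ i)) im
    set k := K0 + m with hk
    have hkle : k ≤ K0 + s := by omega
    have hk1 : k + 1 ≤ K0 + s := by omega
    have hPk : ∀ x : ℝ, 0 < x → ph ρ c k x = x ^ (-(k : ℝ)) * ∑ j, fall (ρ j) k * (c j * x ^ (ρ j)) := by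
      intro x hx
      unfold ph
      rw [mul_sum]
      apply sum_congr rfl
      intro i _
      rw [sub_eq_add_neg, Real.rpow_add hx]
      ring
    set w : ℝ := μ * (P : ℝ) ^ (-(k : ℝ)) with hw
    have hwpos : 0 < w := by positivity
    have hlow0 : κ2 * w ≤ |ph ρ c k x0| := by
      rw [hPk x0 hx0pos, abs_mul, abs_of_pos (show 0 < x0 ^ (-(k : ℝ)) by positivity)]
      have h1 : (1 / 2 : ℝ) ^ R * μ ≤ |c im * x0 ^ (ρ im)| := by
        rw [← hμ, abs_mul, abs_of_pos (show 0 < x0 ^ (ρ im) by positivity)]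
        have h1 := pow_low hPpos hx0P hx02 (ρ im)
        have h2 : (1 / 2 : ℝ) ^ R ≤ (1 / 2 : ℝ) ^ |ρ im| :=
          Real.rpow_le_rpow_of_exponent_ge (by norm_num) (by norm_num) (hi1 im)
        calc (1 / 2 : ℝ) ^ R * (|c im| * (P : ℝ) ^ (ρ im))
            = |c im| * ((1 / 2 : ℝ) ^ R * (P : ℝ) ^ (ρ im)) := by ring
          _ ≤ |c im| * ((1 / 2 : ℝ) ^ |ρ im| * (P : ℝ) ^ (ρ im)) := by gcongr
          _ ≤ _ := mul_le_mul_of_nonneg_left h1 (abs_nonneg _)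
      have h2 : (2 * P : ℝ) ^ (-(k : ℝ)) ≤ x0 ^ (-(k : ℝ)) :=
        Real.rpow_le_rpow_of_nonpos hx0pos hx02 (by simp)
      have h3 : (2 * P : ℝ) ^ (-(k : ℝ)) = (1 / 2) ^ k * (P : ℝ) ^ (-(k : ℝ)) := by
        rw [Real.mul_rpow (by norm_num) hPpos.le, Real.rpow_neg (by norm_num), Real.rpow_natCast]
        simp
      have h4 : ((1 : ℝ) / 2) ^ (K0 + s) ≤ (1 / 2) ^ k :=
        pow_le_pow_of_le_one (by norm_num) (by norm_num) hkle
      calc κ2 * w = ((1 / 2) ^ (K0 + s) * (P : ℝ) ^ (-(k : ℝ))) * (κ * ((1 / 2 : ℝ) ^ R * μ)) := by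
            rw [hκ2, hw]; ring
        _ ≤ ((1 / 2) ^ k * (P : ℝ) ^ (-(k : ℝ))) * (κ * ((1 / 2 : ℝ) ^ R * μ)) := by gcongr
        _ = (2 * P : ℝ) ^ (-(k : ℝ)) * (κ * ((1 / 2 : ℝ) ^ R * μ)) := by rw [h3]
        _ ≤ x0 ^ (-(k : ℝ)) * (κ * |c im * x0 ^ (ρ im)|) := by gcongr
        _ ≤ _ := mul_le_mul_of_nonneg_left hm (by positivity)
    have hlow : 2 * κ' * w ≤ |f k x0| := by
      have h1 := hclose k hkle x0 hx0P hx02
      have h2 : |ph ρ c k x0| ≤ |f k x0| + |f k x0 - ph ρ c k x0| := by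
        have := abs_sub_abs_le_abs_sub (ph ρ c k x0) (f k x0)
        rw [abs_sub_comm (ph ρ c k x0)] at this
        linarith
      have h3 : 3 * κ' * w ≤ κ2 * w := by
        apply mul_le_mul_of_nonneg_right _ hwpos.le
        linarith
      linarith
    -- on the block
    have hnear : ∀ x : ℝ, x0 ≤ x → x ≤ x0 + M' - 1 → |f k x - f k x0| ≤ κ' * w := by
      intro x hxa hxb
      have hx2P : x0 + M' - 1 ≤ 2 * P := by rw [hx0]; linarith
      rcases eq_or_lt_of_le hxa with heq | hlt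
      · rw [← heq, sub_self, abs_zero]; positivity
      obtain ⟨ξ, hξ, hξ2⟩ := exists_hasDerivAt_eq_slope (f k) (f (k + 1)) hlt
        (fun y hy => (hder k y (by linarith [hy.1])).continuousAt.continuousWithinAt)
        (fun y hy => hder k y (by linarith [hy.1]))
      have h1 : f k x - f k x0 = f (k + 1) ξ * (x - x0) := by
        rw [hξ2]; field_simp [(sub_pos.2 hlt).ne']
      rw [h1, abs_mul, abs_of_pos (sub_pos.2 hlt)]
      have h2 := hup (k + 1) hk1 ξ (by linarith [hξ.1]) (by linarith [hξ.2])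
      have h3 : x - x0 ≤ r0 * P := by
        have : (M' : ℝ) ≤ L := by exact_mod_cast hM'
        linarith
      calc |f (k + 1) ξ| * (x - x0)
          ≤ (C2 * (μ * (P : ℝ) ^ (-((k + 1 : ℕ) : ℝ)))) * (r0 * P) :=
            mul_le_mul h2 h3 (sub_pos.2 hlt).le (by positivity)
        _ = (C2 * r0) * (μ * ((P : ℝ) ^ (-((k + 1 : ℕ) : ℝ)) * P)) := by ring
        _ = κ' * w := by
            have e1 : (P : ℝ) ^ (-((k + 1 : ℕ) : ℝ)) * P = (P : ℝ) ^ (-(k : ℝ)) := by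
              nth_rewrite 2 [← Real.rpow_one (P : ℝ)]
              rw [← Real.rpow_add hPpos]
              congr 1; push_cast; ring
            have e2 : C2 * r0 = κ' := by rw [hr0]; field_simp
            rw [e1, e2]
    -- the sign
    obtain ⟨ε, hε, hεpos⟩ : ∃ ε : ℝ, (ε = 1 ∨ ε = -1) ∧ ε * f k x0 = |f k x0| := by
      rcases le_or_gt 0 (f k x0) with h | h
      · exact ⟨1, Or.inl rfl, by rw [abs_of_nonneg h, one_mul]⟩
      · exact ⟨-1, Or.inr rfl, by rw [abs_of_neg h]; ring⟩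
    have hεabs : |ε| = 1 := by rcases hε with h | h <;> rw [h] <;> simp
    have hcond : CondK k (fun m : ℕ => ε * f 0 (x0 + m)) M' (κ' * w) A1 := by
      intro a ha
      have haR : (a : ℝ) + k ≤ M' - 1 := by
        have : a + k + 1 ≤ M' := by omega
        have : (a : ℝ) + k + 1 ≤ M' := by exact_mod_cast this
        linarith
      have ha0 : (0 : ℝ) ≤ a := by positivity
      have hk00 : (0 : ℝ) ≤ k := by positivity
      obtain ⟨ξ, h1, h2, h3⟩ := dd_mvt k (fun i x => ε * f i (x0 + x)) 0 (M' - 1) a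
        ha0 haR (fun i x hx0' hx1 => by
          have b1 := hder i (x0 + x) (by linarith)
          have b2 : HasDerivAt (fun y : ℝ => f i (x0 + y)) (f (i + 1) (x0 + x)) x := by
            have := HasDerivAt.comp_const_add x0 x b1
            simpa using this
          exact b2.const_mul ε)
      rw [h3]
      have h4 := hnear (x0 + ξ) (by linarith) (by linarith)
      have h5 := hup k hkle (x0 + ξ) (by linarith) (by linarith)
      have h6 : ε * f k (x0 + ξ) = |f k x0| + ε * (f k (x0 + ξ) - f k x0) := by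
        rw [← hεpos]; ring
      have h7 : |ε * (f k (x0 + ξ) - f k x0)| ≤ κ' * w := by
        rw [abs_mul, hεabs, one_mul]; exact h4
      rw [abs_le] at h7
      constructor
      · rw [h6]; linarith [h7.1]
      · have h8 : ε * f k (x0 + ξ) ≤ |f k (x0 + ξ)| := by
          have := le_abs_self (ε * f k (x0 + ξ))
          rwa [abs_mul, hεabs, one_mul] at this
        refine h8.trans (h5.trans (le_of_eq ?_))
        rw [hA1, hw]; field_simp
    have hmain := htest k (by omega) hkle P M' _ (κ' * w) hP (by omega) hcond ?_ ?_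
    · refine le_trans (le_of_eq ?_) hmain
      have e1 : ∀ m : ℕ, (P : ℝ) + 1 + ((n + m : ℕ) : ℝ) = x0 + m := by
        intro m; rw [hx0]; push_cast; ring
      simp only [e1]
      rcases hε with h | h
      · rw [h]; simp only [one_mul]
      · rw [h]
        simp only [neg_mul, one_mul]
        exact (norm_sum_neg M' (fun m : ℕ => f 0 (x0 + m))).symm
    · -- lower bound
      rw [hw]
      calc (P : ℝ) ^ (-(k : ℝ) + η) = (P : ℝ) ^ (η - η0) * ((P : ℝ) ^ η0 * (P : ℝ) ^ (-(k : ℝ))) := by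
            rw [← Real.rpow_add hPpos, ← Real.rpow_add hPpos]; congr 1; ring
        _ ≤ κ' * (μ * (P : ℝ) ^ (-(k : ℝ))) := by gcongr
    · rw [hw]
      calc κ' * (μ * (P : ℝ) ^ (-(k : ℝ))) ≤ 1 * ((P : ℝ) ^ A * (P : ℝ) ^ (-(k : ℝ))) := by gcongr
        _ = (P : ℝ) ^ (A - k) := by rw [one_mul, ← Real.rpow_add hPpos]; congr 1
        _ ≤ (P : ℝ) ^ (-η) := by
            apply Real.rpow_le_rpow_of_exponent_le hP1
            have : (K0 : ℝ) ≤ k := by exact_mod_cast (by omega : K0 ≤ k)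
            linarith
  have hfin := blocksum L (C * (P : ℝ) ^ (1 - σ)) (by positivity) J M
    (fun n : ℕ => ee (f 0 ((P : ℝ) + 1 + n))) hJL hblock
  refine hfin.trans ?_
  have h1 : (P : ℝ) ^ (1 - σ) ≤ (P : ℝ) ^ (1 - min σ 1) :=
    Real.rpow_le_rpow_of_exponent_le hP1 (by linarith [min_le_left σ 1])
  have h2 : (0 : ℝ) ≤ P0 := by positivity
  calc (J : ℝ) * (C * (P : ℝ) ^ (1 - σ)) = (J * C) * (P : ℝ) ^ (1 - σ) := by ring
    _ ≤ (J * C + P0 + 1) * (P : ℝ) ^ (1 - min σ 1) :=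
        mul_le_mul (by linarith) h1 (by positivity) (by positivity)

end Pool.Agent.TH373.DR3
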