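import Pool.Agent.TH373.DR3.Ref

set_option autoImplicit false

/-!
The comparison for several rows, with frequencies divisible by a power of the base.
-/

namespace Pool.Agent.TH373.DR3

open Finset Pool.Agent.Helper153.Vdc Pool.Agent.TH373.DR

/-- **Comparison for several rows.** -/
theorem compareMg {ι : Type*} (S : Finset ι) {s : ℕ} (x : Fin s → ι → ℝ) (b q Q : ℕ) {r : ℕ}
    (ro : Fin r → Fin s) (pl a : Fin r → ℕ)
    (hinj : Function.Injective (fun k => (ro k, pl k)))
    (hb : 2 ≤ b) (hq : 1 ≤ q) (hQ : 1 ≤ Q) (ha : ∀ k, a k < b) (g G : ℕ)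
    (hg : ∀ k, g ≤ pl k) (hG : ∀ k, pl k ≤ G) (D : ℝ) (hD0 : 0 ≤ D)
    (hD : ∀ F : Fin s → ℤ, F ≠ 0 → (∀ j, (b : ℤ) ^ g ∣ F j) →
      (∀ j, |F j| ≤ ((r * (b * q) + b * Q : ℕ) : ℤ) * (b : ℤ) ^ G) →
      ‖∑ i ∈ S, ee (∑ j, (F j : ℝ) * x j i)‖ ≤ D)
    [DecidablePred fun i => Has b a (fun k => x (ro k) i * (b : ℝ) ^ (pl k))] :
    |((S.filter (fun i => Has b a (fun k => x (ro k) i * (b : ℝ) ^ (pl k)))).card : ℝ) -
        S.card / (b : ℝ) ^ r| ≤
      2 * r * S.card * (256 * b * (Q : ℝ) ^ 2 / q + 4 / Q) + 4 * r * D +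
        D * (9 + 8 * Real.log ((b * q : ℕ) : ℝ)) ^ r := by
  classical
  have hb0 : 0 < b := by omega
  have hb1 : 1 ≤ b := by omega
  have hb0R : (0 : ℝ) < b := by exact_mod_cast hb0
  have hbZ : (1 : ℤ) ≤ b := by exact_mod_cast hb1
  obtain ⟨T, hT⟩ : ∃ T : ℕ, (r * (b * q) + b * Q) * b ^ G < b ^ T :=
    ⟨_, Nat.lt_pow_self (by omega : 1 < b)⟩
  have hTZ : ((r * (b * q) + b * Q : ℕ) : ℤ) * (b : ℤ) ^ G < (b : ℤ) ^ T := by exact_mod_cast hT
  have hGT : G < T := by
    have : b ^ G < b ^ T := by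
      refine lt_of_le_of_lt ?_ hT
      have : 1 ≤ r * (b * q) + b * Q := by
        have : 1 ≤ b * Q := Nat.mul_pos hb0 (by omega)
        omega
      exact Nat.le_mul_of_pos_left _ (by omega)
    exact (Nat.pow_lt_pow_iff_right (by omega)).1 this
  set pl' : Fin r → ℕ := fun k => pl k + (ro k : ℕ) * T with hpl'
  have hpl'lt : ∀ k, pl' k < s * T := by
    intro k
    have h1 := (ro k).2
    have h2 := hG k
    have h3 : ((ro k : ℕ) + 1) * T ≤ s * T := Nat.mul_le_mul_right T h1
    simp only [hpl']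
    have : ((ro k : ℕ) + 1) * T = (ro k : ℕ) * T + T := by ring
    omega
  have hinj' : Function.Injective pl' := by
    intro k k' h
    simp only [hpl'] at h
    have h1 : pl k < T := lt_of_le_of_lt (hG k) hGT
    have h2 : pl k' < T := lt_of_le_of_lt (hG k') hGT
    have h3 : (ro k : ℕ) = ro k' := by
      have e1 : (pl k + (ro k : ℕ) * T) / T = ro k := by
        rw [Nat.add_mul_div_right _ _ (by omega), Nat.div_eq_of_lt h1, zero_add]
      have e2 : (pl k' + (ro k' : ℕ) * T) / T = ro k' := by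
        rw [Nat.add_mul_div_right _ _ (by omega), Nat.div_eq_of_lt h2, zero_add]
      rw [← e1, ← e2, h]
    have h4 : pl k = pl k' := by
      rw [h3] at h
      omega
    exact hinj (Prod.ext (Fin.ext h3) h4)
  have hrT : r ≤ s * T := by
    have hle : Fintype.card (Fin r) ≤ Fintype.card (Fin (s * T)) := by
      apply Fintype.card_le_of_injective (fun k : Fin r => (⟨pl' k, hpl'lt k⟩ : Fin (s * T)))
      intro k k' h
      simp only [Fin.mk.injEq] at h
      exact hinj' h
    simpa using hle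
  set N : ℕ := b ^ (s * T) with hN
  have hN1 : 1 ≤ N := Nat.one_le_pow _ _ hb0
  have hNZ : (N : ℤ) = ((b : ℤ) ^ T) ^ s := by
    rw [hN]; push_cast; rw [← pow_mul, mul_comm]
  -- the sum over the reference
  have hDref : ∀ F : ℤ, F ≠ 0 → |F| < N → ‖∑ m ∈ range N, ee (F * ((m : ℝ) / (N : ℝ)))‖ ≤ 0 := by
    intro F h0 hF
    rw [orth N hN1 F, norm_zero]
    intro hdvd
    exact h0 (Int.eq_zero_of_abs_lt_dvd hdvd hF)
  set Y' : ℕ → Fin r → ℝ := fun m k => (m : ℝ) / (N : ℝ) * (b : ℝ) ^ (pl' k) with hY'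
  have hPhs' : ∀ c m, Phs c (Y' m) =
      ((∑ j : Fin s, Fj b ro pl c j * ((b : ℤ) ^ T) ^ (j : ℕ) : ℤ) : ℝ) * ((m : ℝ) / (N : ℝ)) := by
    intro c m
    have h1 := Phs_rows b ro pl c (fun j => (m : ℝ) / (N : ℝ) * (b : ℝ) ^ ((j : ℕ) * T))
    have h2 : Y' m = fun k => (m : ℝ) / (N : ℝ) * (b : ℝ) ^ ((ro k : ℕ) * T) * (b : ℝ) ^ (pl k) := by
      funext k
      rw [hY']
      simp only [hpl']
      rw [pow_add]; ring
    rw [h2, h1]
    push_cast
    rw [sum_mul]
    apply sum_congr rfl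
    intro j _
    rw [← pow_mul, mul_comm T]
    ring
  have hFlt : ∀ c ∈ Idx b q r, ∀ j, |Fj b ro pl c j| < (b : ℤ) ^ T := by
    intro c hc j
    refine lt_of_le_of_lt (Fj_le b q hb1 ro pl c hc G hG j) (lt_of_le_of_lt ?_ hTZ)
    apply mul_le_mul_of_nonneg_right _ (by positivity)
    push_cast
    have : (0 : ℤ) ≤ b * Q := by positivity
    linarith
  have hBT : (1 : ℤ) ≤ (b : ℤ) ^ T := one_le_pow₀ hbZ
  have hcard : (((range N).filter (fun m : ℕ => Has b a (Y' m))).card : ℝ) =
      ((range N).card : ℝ) * (1 / (b : ℝ) ^ r) := by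
    have h1 := ref_count b (s * T) r hb pl' a hinj' hpl'lt ha
    have h2 : ((range N).filter (fun m : ℕ => Has b a (Y' m))).card = b ^ (s * T - r) := by
      rw [← h1]
      apply congrArg
      apply filter_congr
      intro m _
      rfl
    rw [h2, card_range, hN]
    push_cast
    have : (b : ℝ) ^ (s * T) = (b : ℝ) ^ (s * T - r) * (b : ℝ) ^ r := by
      rw [← pow_add]; congr 1; omega
    rw [this]
    field_simp
  refine compareY S (range N) ⟨0, mem_range.2 hN1⟩ b q Q
    (fun i k => x (ro k) i * (b : ℝ) ^ (pl k)) Y' a hb hq hQ ha (fun c => ∀ j, Fj b ro pl c j = 0) D hD0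
    ?_ ?_ ?_ ?_ ?_ ?_ hcard
  · intro c _ hz i _
    rw [Phs_rows b ro pl c (fun j => x j i)]
    exact sum_eq_zero fun j _ => by rw [hz j]; simp
  · intro c _ hz m _
    rw [hPhs']
    have : ∑ j : Fin s, Fj b ro pl c j * ((b : ℤ) ^ T) ^ (j : ℕ) = 0 :=
      sum_eq_zero fun j _ => by rw [hz j, zero_mul]
    rw [this]; simp
  · intro c hc hz
    have e : ∀ i, Phs c (fun k => x (ro k) i * (b : ℝ) ^ (pl k)) =
        ∑ j, (Fj b ro pl c j : ℝ) * x j i := fun i => Phs_rows b ro pl c (fun j => x j i)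
    simp only [e]
    apply hD (Fj b ro pl c)
    · intro h0
      apply hz
      intro j
      rw [h0]; rfl
    · intro j
      unfold Fj
      apply dvd_sum
      intro k _
      split_ifs
      · exact Dvd.dvd.mul_left (pow_dvd_pow _ (hg k)) _
      · exact dvd_zero _
    · intro j
      refine (Fj_le b q hb1 ro pl c hc G hG j).trans ?_
      apply mul_le_mul_of_nonneg_right _ (by positivity)
      push_cast
      have : (0 : ℤ) ≤ b * Q := by positivity
      linarith
  · intro c hc hz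
    simp only [hPhs']
    obtain ⟨h1, h2⟩ := base_sum s ((b : ℤ) ^ T) hBT (Fj b ro pl c) (hFlt c hc)
    apply hDref
    · intro h0
      exact hz (h2 h0)
    · rw [hNZ]; exact h1
  · intro k h h0 hlt
    have h1 := hD (fun j => if j = ro k then h * (b : ℤ) ^ (pl k + 1) else 0) (by
      intro hz
      have := congrFun hz (ro k)
      simp only [if_pos, Pi.zero_apply] at this
      rcases mul_eq_zero.1 this with h' | h'
      · exact h0 h'
      · have : (0 : ℤ) < (b : ℤ) ^ (pl k + 1) := by positivity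
        omega) (by
      intro j
      split_ifs
      · exact Dvd.dvd.mul_left (pow_dvd_pow _ (by have := hg k; omega)) _
      · exact dvd_zero _) (by
      intro j
      split_ifs
      · rw [abs_mul, abs_of_pos (show (0 : ℤ) < (b : ℤ) ^ (pl k + 1) by positivity), pow_succ]
        have h1 : (b : ℤ) ^ (pl k) ≤ (b : ℤ) ^ G := pow_le_pow_right₀ hbZ (hG k)
        have h2 : (0 : ℤ) < (b : ℤ) ^ (pl k) := by positivity
        push_cast
        calc |h| * ((b : ℤ) ^ pl k * b) ≤ Q * ((b : ℤ) ^ G * b) := by gcongr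
          _ = (b * Q) * (b : ℤ) ^ G := by ring
          _ ≤ (r * (b * q) + b * Q) * (b : ℤ) ^ G := by
              apply mul_le_mul_of_nonneg_right _ (by positivity)
              have : (0 : ℤ) ≤ r * (b * q) := by positivity
              linarith
      · rw [abs_zero]; positivity)
    have e : ∀ i, ∑ j, ((if j = ro k then h * (b : ℤ) ^ (pl k + 1) else 0 : ℤ) : ℝ) * x j i =
        h * (x (ro k) i * (b : ℝ) ^ (pl k) * b) := by
      intro i
      rw [sum_eq_single (ro k)]
      · rw [if_pos rfl]; push_cast; rw [pow_succ]; ring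
      · intro j _ hj; rw [if_neg hj]; simp
      · intro hn; exact absurd (mem_univ _) hn
    simp only [e] at h1
    exact h1
  · intro k h h0 hlt
    have e : ∀ m : ℕ, (h : ℝ) * (Y' m k * b) = ((h * (b : ℤ) ^ (pl' k + 1) : ℤ) : ℝ) * ((m : ℝ) / (N : ℝ)) := by
      intro m
      rw [hY']; push_cast; rw [pow_succ]; ring
    simp only [e]
    apply hDref
    · exact mul_ne_zero h0 (by positivity)
    · rw [abs_mul, abs_of_pos (show (0 : ℤ) < (b : ℤ) ^ (pl' k + 1) by positivity), hN]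
      push_cast
      have h1 : |h| * (b : ℤ) ^ (pl k + 1) < (b : ℤ) ^ T := by
        refine lt_of_le_of_lt ?_ hTZ
        rw [pow_succ]
        have h1 : (b : ℤ) ^ (pl k) ≤ (b : ℤ) ^ G := pow_le_pow_right₀ hbZ (hG k)
        push_cast
        calc |h| * ((b : ℤ) ^ pl k * b) ≤ Q * ((b : ℤ) ^ G * b) := by gcongr
          _ = (b * Q) * (b : ℤ) ^ G := by ring
          _ ≤ (r * (b * q) + b * Q) * (b : ℤ) ^ G := by
              apply mul_le_mul_of_nonneg_right _ (by positivity)
              have : (0 : ℤ) ≤ r * (b * q) := by positivity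
              linarith
      have h2 : |h| * (b : ℤ) ^ (pl' k + 1) = (|h| * (b : ℤ) ^ (pl k + 1)) * (b : ℤ) ^ ((ro k : ℕ) * T) := by
        have : pl' k + 1 = (pl k + 1) + (ro k : ℕ) * T := by simp only [hpl']; ring
        rw [this, pow_add]; ring
      rw [h2]
      calc (|h| * (b : ℤ) ^ (pl k + 1)) * (b : ℤ) ^ ((ro k : ℕ) * T)
          < (b : ℤ) ^ T * (b : ℤ) ^ ((ro k : ℕ) * T) := by
            apply mul_lt_mul_of_pos_right h1 (by positivity)
        _ = (b : ℤ) ^ (((ro k : ℕ) + 1) * T) := by rw [← pow_add]; congr 1; ring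
        _ ≤ (b : ℤ) ^ (s * T) := pow_le_pow_right₀ hbZ (Nat.mul_le_mul_right T (ro k).2)

end Pool.Agent.TH373.DR3
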