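import Pool.Agent.TH373.DR3.Shift
import Pool.Agent.TH373.DR3.Ref2

set_option autoImplicit false

/-!
The digits of the numbers `α (n + j)^ρ + β_j`, `j = 0, …, s - 1`, at few places are almost
independent.
-/

namespace Pool.Agent.TH373.DR3

open Finset Pool.Agent.Helper153.Vdc Pool.Agent.TH373.DR

/-- **Exponential sums over `n ≤ X`.** -/
theorem expsum_allS {s : ℕ} (ρ : ℝ) (hnat : ∀ n : ℕ, ρ ≠ n) (hρ : 0 < ρ) (α : ℝ) (hα : α ≠ 0)
    (β : Fin s → ℝ) (A : ℝ) (hA : 0 < A) :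
    ∃ σ : ℝ, 0 < σ ∧ ∃ X0 : ℕ, ∀ X : ℕ, X0 ≤ X → ∀ F : Fin s → ℤ, F ≠ 0 →
      ∀ D : ℤ, (X : ℝ) ^ ((s : ℝ) - 1) ≤ |(D : ℝ)| → (∀ j, D ∣ F j) →
      (∀ j, |(F j : ℝ)| ≤ (X : ℝ) ^ A) →
      ‖∑ n ∈ Icc 1 X, ee (∑ j, (F j : ℝ) * (α * ((n : ℝ) + (j : ℕ)) ^ ρ + β j))‖ ≤
        (X : ℝ) ^ (1 - σ) := by
  classical
  rcases isEmpty_or_nonempty (Fin s) with hemp | hne
  · refine ⟨1, one_pos, 0, fun X _ F hF => ?_⟩
    exact absurd (funext fun j => hemp.elim j) hF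
  have hα0 : 0 < |α| := abs_pos.2 hα
  obtain ⟨Cv, hCv, hvan⟩ := vander s
  obtain ⟨σ, hσ, C, hC, hsum⟩ := expsum_shift (s := s) ρ hnat hρ |α| hα0 (2 * (A + 1)) (by positivity)
  set σ' := min σ (1 / 2) with hσ'
  have hσ'0 : 0 < σ' := lt_min hσ (by norm_num)
  have hσ'1 : σ' ≤ 1 / 2 := min_le_right _ _
  refine ⟨σ' / 2, by positivity, ?_⟩
  obtain ⟨X2, hX2⟩ := large A (A + 1) (by linarith) |α|
  obtain ⟨X3, hX3⟩ := log_sq_le (4 * C) (σ' / 2) (by positivity)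
  obtain ⟨X4, hX4⟩ := large (1 / 2) (1 - σ' / 2) (by linarith) 4
  refine ⟨max X2 (max (max X3 X4) 3), fun X hX F hF0 D hDX hDF hF2 => ?_⟩
  simp only [max_le_iff] at hX
  obtain ⟨g2, ⟨g3, g4⟩, g6⟩ := hX
  have hX1' : (1 : ℝ) ≤ X := by exact_mod_cast (by omega : 1 ≤ X)
  have hXpos : (0 : ℝ) < X := by linarith
  have hlog : 1 ≤ Real.log X := by
    rw [Real.le_log_iff_exp_le hXpos]
    have : Real.exp 1 < 2.7182818286 := Real.exp_one_lt_d9
    have : (3 : ℝ) ≤ X := by exact_mod_cast g6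
    linarith
  set B : ℝ := C * (X : ℝ) ^ (1 - σ') with hB
  have hB0 : 0 ≤ B := by positivity
  set c : Fin s → ℝ := fun j => (F j : ℝ) * α with hc
  have hphase : ∀ n : ℕ, ∑ j, (F j : ℝ) * (α * ((n : ℝ) + (j : ℕ)) ^ ρ + β j) =
      sh ρ c 0 n + ∑ j, (F j : ℝ) * β j := by
    intro n
    unfold sh
    rw [← sum_add_distrib]
    apply sum_congr rfl
    intro j _
    have : fall ρ 0 = 1 := by unfold fall; simp
    rw [this, hc]
    simp
    ring
  have hmain := dyadic_norm X (fun n => ee (∑ j, (F j : ℝ) * (α * ((n : ℝ) + (j : ℕ)) ^ ρ + β j)))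
    (fun n => (ee_norm _).le) B hB0
    (fun P M hPM hsq hMP => by
      have hP1 : 1 ≤ P := by omega
      have hPX : P ≤ X := by omega
      have hXP : X ≤ P ^ 2 := by
        have := Nat.lt_succ_sqrt' X
        calc X ≤ (Nat.sqrt X + 1) ^ 2 := this.le
          _ ≤ P ^ 2 := Nat.pow_le_pow_left hsq 2
      have hP1R : (1 : ℝ) ≤ P := by exact_mod_cast hP1
      have hPpos : (0 : ℝ) < P := by linarith
      have e1 : ∀ m : ℕ, ∑ j, (F j : ℝ) * (α * (((P + 1 + m : ℕ) : ℝ) + (j : ℕ)) ^ ρ + β j) =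
          sh ρ c 0 ((P : ℝ) + 1 + m) + ∑ j, (F j : ℝ) * β j := by
        intro m; rw [hphase]; push_cast; rfl
      simp only [e1]
      rw [ee_norm_const (range M) (fun m : ℕ => sh ρ c 0 ((P : ℝ) + 1 + m))]
      refine (hsum P M c hP1 hMP ?_ ?_).trans ?_
      · obtain ⟨i, hi⟩ : ∃ i : Fin s, (∑ j : Fin s, F j * ((j : ℕ) : ℤ) ^ (i : ℕ)) ≠ 0 := by
          by_contra hcon
          push Not at hcon
          apply hF0
          funext j
          have h1 := hvan (fun j => (F j : ℝ)) 0 (fun i => by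
            have h2 := hcon i
            have h3 : ∑ j : Fin s, (F j : ℝ) * ((j : ℕ) : ℝ) ^ (i : ℕ) = 0 := by
              have h4 : ((∑ j : Fin s, F j * ((j : ℕ) : ℤ) ^ (i : ℕ) : ℤ) : ℝ) = 0 := by rw [h2]; simp
              push_cast at h4
              exact h4
            rw [h3, abs_zero]) j
          rw [mul_zero] at h1
          have h5 : |(F j : ℝ)| = 0 := le_antisymm h1 (abs_nonneg _)
          have h6 : (F j : ℝ) = 0 := abs_eq_zero.1 h5
          exact_mod_cast h6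
        refine ⟨i, ?_⟩
        have hdvd : D ∣ ∑ j : Fin s, F j * ((j : ℕ) : ℤ) ^ (i : ℕ) :=
          dvd_sum fun j _ => Dvd.dvd.mul_right (hDF j) _
        have h1 : |D| ≤ |∑ j : Fin s, F j * ((j : ℕ) : ℤ) ^ (i : ℕ)| :=
          Int.le_of_dvd (abs_pos.2 hi) ((abs_dvd_abs _ _).2 hdvd)
        have h2 : |(D : ℝ)| ≤ |∑ j : Fin s, (F j : ℝ) * ((j : ℕ) : ℝ) ^ (i : ℕ)| := by
          exact_mod_cast h1
        have e2 : ∑ j : Fin s, c j * ((j : ℕ) : ℝ) ^ (i : ℕ) =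
            α * ∑ j : Fin s, (F j : ℝ) * ((j : ℕ) : ℝ) ^ (i : ℕ) := by
          rw [mul_sum, hc]
          apply sum_congr rfl
          intro j _
          ring
        rw [e2, abs_mul]
        have hs1 : (1 : ℝ) ≤ s := by
          have := (Classical.arbitrary (Fin s)).2
          exact_mod_cast (by omega : 1 ≤ s)
        have h3 : (P : ℝ) ^ ((s : ℝ) - 1) ≤ |(D : ℝ)| := by
          refine le_trans ?_ hDX
          exact Real.rpow_le_rpow hPpos.le (by exact_mod_cast hPX) (by linarith)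
        have e3 : (P : ℝ) ^ (s : ℝ) = P * (P : ℝ) ^ ((s : ℝ) - 1) := by
          rw [Real.rpow_sub_one hPpos.ne']; field_simp
        rw [e3]
        calc |α| * ((P : ℝ) * (P : ℝ) ^ ((s : ℝ) - 1)) = (P : ℝ) * (|α| * (P : ℝ) ^ ((s : ℝ) - 1)) := by ring
          _ ≤ (P : ℝ) * (|α| * |∑ j : Fin s, (F j : ℝ) * ((j : ℕ) : ℝ) ^ (i : ℕ)|) := by
              apply mul_le_mul_of_nonneg_left _ hPpos.le
              exact mul_le_mul_of_nonneg_left (h3.trans h2) (abs_nonneg _)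
      · intro j
        rw [hc]
        simp only
        rw [abs_mul]
        have h8 := hX2 X g2
        calc |(F j : ℝ)| * |α| ≤ (X : ℝ) ^ A * |α| :=
              mul_le_mul_of_nonneg_right (hF2 j) (abs_nonneg _)
          _ = |α| * (X : ℝ) ^ A := mul_comm _ _
          _ ≤ (X : ℝ) ^ (A + 1) := h8
          _ ≤ ((P : ℝ) ^ 2) ^ (A + 1) := by
              apply Real.rpow_le_rpow hXpos.le _ (by linarith)
              exact_mod_cast hXP
          _ = (P : ℝ) ^ (2 * (A + 1)) := by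
              rw [← Real.rpow_natCast, ← Real.rpow_mul hPpos.le]
              norm_num
      · apply mul_le_mul_of_nonneg_left _ (by linarith)
        calc (P : ℝ) ^ (1 - σ) ≤ (P : ℝ) ^ (1 - σ') :=
              Real.rpow_le_rpow_of_exponent_le hP1R (by
                have : σ' ≤ σ := min_le_left _ _
                linarith)
          _ ≤ (X : ℝ) ^ (1 - σ') := by
              apply Real.rpow_le_rpow hPpos.le (by exact_mod_cast hPX)
              linarith)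
  refine hmain.trans ?_
  have hsqrt : ((Nat.sqrt X + 1 : ℕ) : ℝ) ≤ 2 * (X : ℝ) ^ (1 / 2 : ℝ) := by
    push_cast
    have h1 : (Nat.sqrt X : ℝ) ≤ (X : ℝ) ^ (1 / 2 : ℝ) := by
      rw [← Real.sqrt_eq_rpow]; exact Real.nat_sqrt_le_real_sqrt
    have h2 : (1 : ℝ) ≤ (X : ℝ) ^ (1 / 2 : ℝ) := Real.one_le_rpow hX1' (by norm_num)
    linarith
  have hlog2 : ((Nat.log 2 X + 1 : ℕ) : ℝ) ≤ 2 * (Real.log X + 1) := by
    push_cast
    have h1 : (Nat.log 2 X : ℝ) ≤ Real.log X / Real.log 2 := by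
      have := Real.natLog_le_logb X 2
      simpa [Real.logb] using this
    have h2 : Real.log X / Real.log 2 ≤ 2 * Real.log X := by
      rw [div_le_iff₀ (Real.log_pos (by norm_num))]
      have := Real.log_two_gt_d9
      nlinarith
    linarith
  have h7 := hX3 X g3
  have h8 := hX4 X g4
  have h9 : ((Nat.log 2 X + 1 : ℕ) : ℝ) * B ≤ (X : ℝ) ^ (1 - σ' / 2) / 2 := by
    have hL1 : Real.log X + 1 ≤ (Real.log X + 1) ^ 2 := by nlinarith
    calc ((Nat.log 2 X + 1 : ℕ) : ℝ) * B ≤ 2 * (Real.log X + 1) * B :=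
          mul_le_mul_of_nonneg_right hlog2 hB0
      _ ≤ 2 * (Real.log X + 1) ^ 2 * B := by gcongr
      _ = (4 * C * (Real.log X + 1) ^ 2) * (X : ℝ) ^ (1 - σ') / 2 := by rw [hB]; ring
      _ ≤ (X : ℝ) ^ (σ' / 2) * (X : ℝ) ^ (1 - σ') / 2 := by gcongr
      _ = (X : ℝ) ^ (1 - σ' / 2) / 2 := by
          rw [← Real.rpow_add hXpos]; congr 2; ring
  linarith

/-- **Almost independence.** -/
theorem indepS {s : ℕ} (ρ : ℝ) (hnat : ∀ n : ℕ, ρ ≠ n) (hρ : 0 < ρ) (α : ℝ) (hα : α ≠ 0)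
    (β : Fin s → ℝ) (b : ℕ) (hb : 2 ≤ b) (g0 A : ℝ) (hg0 : (s : ℝ) - 1 ≤ g0 * Real.log b)
    (hA : 0 < A) :
    ∃ c : ℝ, 0 < c ∧ ∃ X0 : ℕ, ∀ X : ℕ, X0 ≤ X → ∀ r : ℕ,
      (r : ℝ) * Real.log (Real.log X) ≤ c * Real.log X → ∀ (ro : Fin r → Fin s) (pl a : Fin r → ℕ),
      Function.Injective (fun k => (ro k, pl k)) →
      (∀ k, g0 * Real.log X ≤ pl k ∧ (pl k : ℝ) ≤ A * Real.log X) → (∀ k, a k < b) →
      ∀ _ : DecidablePred fun n : ℕ => Has b a (fun k => (α * ((n : ℝ) + (ro k : ℕ)) ^ ρ + β (ro k)) *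
        (b : ℝ) ^ (pl k)),
      |(((Icc 1 X).filter (fun n : ℕ => Has b a (fun k => (α * ((n : ℝ) + (ro k : ℕ)) ^ ρ + β (ro k)) *
        (b : ℝ) ^ (pl k)))).card : ℝ) - X / (b : ℝ) ^ r| ≤ (X : ℝ) ^ (1 - c) := by
  classical
  have hbR : (2 : ℝ) ≤ b := by exact_mod_cast hb
  have hlb : 0 < Real.log b := Real.log_pos (by linarith)
  set A' : ℝ := A * Real.log b + 2 with hA'
  have hA'0 : 0 < A' := by positivity
  obtain ⟨σ, hσ, X0, hsum⟩ := expsum_allS ρ hnat hρ α hα β A' hA'0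
  set σ' := min σ (1 / 8) with hσ'
  have hσ'0 : 0 < σ' := lt_min hσ (by norm_num)
  have hσ'1 : σ' ≤ 1 / 8 := min_le_right _ _
  set c : ℝ := σ' / 4 with hc
  have hc0 : 0 < c := by positivity
  have t : Filter.Tendsto (fun X : ℕ => Real.log X) Filter.atTop Filter.atTop :=
    Real.tendsto_log_atTop.comp tendsto_natCast_atTop_atTop
  obtain ⟨X1, hX1⟩ := Filter.eventually_atTop.1
    (t.eventually_ge_atTop (max 10 (9 + 8 * Real.log b)))
  obtain ⟨X2, hX2⟩ := log_sq_le (8 * (512 * b + 8)) (1 / 8) (by norm_num)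
  obtain ⟨X3, hX3⟩ := log_sq_le (4 * 4) (σ' / 2) (by positivity)
  obtain ⟨X4, hX4⟩ := large (1 - 1 / 8) (1 - c) (by rw [hc]; linarith) 4
  obtain ⟨X5, hX5⟩ := large (1 - σ' / 2) (1 - c) (by rw [hc]; linarith) 4
  obtain ⟨X6, hX6⟩ := log_sq_le (2 * b) (1 / 8) (by norm_num)
  refine ⟨c, hc0, max (max X0 X1) (max (max X2 X3) (max (max X4 X5) (max X6 16))),
    fun X hX r hr ro pl a hinj hpl ha _ => ?_⟩
  simp only [max_le_iff] at hX
  obtain ⟨⟨g0X, g1⟩, ⟨g2, g3⟩, ⟨g4, g5⟩, g6, g7⟩ := hX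
  have hXpos : (0 : ℝ) < X := by exact_mod_cast (by omega : 0 < X)
  have hX1' : (1 : ℝ) ≤ X := by exact_mod_cast (by omega : 1 ≤ X)
  have hlog' := hX1 X g1
  rw [max_le_iff] at hlog'
  obtain ⟨hlog10, hlogb⟩ := hlog'
  have hloglog : 1 ≤ Real.log (Real.log X) := by
    rw [Real.le_log_iff_exp_le (by linarith)]
    have : Real.exp 1 < 2.7182818286 := Real.exp_one_lt_d9
    linarith
  have hrlog : (r : ℝ) ≤ Real.log X := by
    have h1 : (r : ℝ) ≤ r * Real.log (Real.log X) := le_mul_of_one_le_right (by positivity) hloglog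
    have h2 : c * Real.log X ≤ Real.log X := by
      have : c ≤ 1 := by rw [hc]; linarith
      nlinarith
    linarith
  have hr0 : (0 : ℝ) ≤ r := by positivity
  -- the parameters
  set Q : ℕ := ⌊(X : ℝ) ^ (1 / 4 : ℝ)⌋₊ with hQ
  have hX14 : 2 ≤ (X : ℝ) ^ (1 / 4 : ℝ) := by
    have h16 : (16 : ℝ) ≤ X := by exact_mod_cast g7
    calc (2 : ℝ) = (16 : ℝ) ^ (1 / 4 : ℝ) := by
          rw [show (16 : ℝ) = 2 ^ (4 : ℝ) by norm_num, ← Real.rpow_mul (by norm_num)]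
          norm_num
      _ ≤ (X : ℝ) ^ (1 / 4 : ℝ) := Real.rpow_le_rpow (by norm_num) h16 (by norm_num)
  have hQle : (Q : ℝ) ≤ (X : ℝ) ^ (1 / 4 : ℝ) := Nat.floor_le (by positivity)
  have hQge : (X : ℝ) ^ (1 / 4 : ℝ) / 2 ≤ Q := by
    have := Nat.lt_floor_add_one ((X : ℝ) ^ (1 / 4 : ℝ))
    rw [← hQ] at this
    linarith
  have hQ1 : 1 ≤ Q := by
    rw [hQ]; exact Nat.le_floor (by push_cast; linarith)
  have hQ0 : (0 : ℝ) < Q := by exact_mod_cast hQ1
  set q : ℕ := Q ^ 3 with hq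
  have hq1 : 1 ≤ q := Nat.one_le_pow _ _ hQ1
  have hqle : (q : ℝ) ≤ (X : ℝ) ^ (3 / 4 : ℝ) := by
    rw [hq]; push_cast
    calc (Q : ℝ) ^ 3 ≤ ((X : ℝ) ^ (1 / 4 : ℝ)) ^ 3 := pow_le_pow_left₀ hQ0.le hQle 3
      _ = _ := by rw [← Real.rpow_natCast, ← Real.rpow_mul hXpos.le]; norm_num
  set G : ℕ := ⌊A * Real.log X⌋₊ with hG
  have hlogpos : 0 < Real.log X := by linarith
  set g : ℕ := ⌈g0 * Real.log X⌉₊ with hg
  have hGle : (G : ℝ) ≤ A * Real.log X := Nat.floor_le (by positivity)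
  set D : ℝ := (X : ℝ) ^ (1 - σ) with hD
  have hbpow : ∀ x : ℕ, (b : ℝ) ^ x = Real.exp (x * Real.log b) := by
    intro x
    rw [← Real.exp_log (show (0 : ℝ) < b by linarith), ← Real.exp_nat_mul,
      Real.exp_log (show (0 : ℝ) < b by linarith)]
  have hcmp := compareMg (Icc 1 X) (fun (j : Fin s) (n : ℕ) => α * ((n : ℝ) + (j : ℕ)) ^ ρ + β j) b q Q ro pl a
    hinj hb hq1 hQ1 ha g G (fun k => Nat.ceil_le.2 (hpl k).1)
    (fun k => Nat.le_floor (hpl k).2) D (by positivity)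
    (fun F hF0 hdvd hFle => by
      refine hsum X g0X F hF0 ((b : ℤ) ^ g) ?_ hdvd ?_
      · have hcast : |(((b : ℤ) ^ g : ℤ) : ℝ)| = (b : ℝ) ^ g := by
          push_cast
          exact abs_of_pos (by positivity)
        rw [hcast, hbpow, Real.rpow_def_of_pos hXpos]
        apply Real.exp_le_exp.2
        calc Real.log X * ((s : ℝ) - 1) ≤ Real.log X * (g0 * Real.log b) :=
              mul_le_mul_of_nonneg_left hg0 hlogpos.le
          _ = (g0 * Real.log X) * Real.log b := by ring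
          _ ≤ g * Real.log b := mul_le_mul_of_nonneg_right (Nat.le_ceil _) hlb.le
      · intro j
        have h1 : |(F j : ℝ)| ≤ (r * (b * q) + b * Q) * (b : ℝ) ^ G := by exact_mod_cast hFle j
        refine h1.trans ?_
        have h2 : (b : ℝ) ^ G ≤ (X : ℝ) ^ (A * Real.log b) := by
          rw [hbpow, Real.rpow_def_of_pos hXpos]
          apply Real.exp_le_exp.2
          calc (G : ℝ) * Real.log b ≤ (A * Real.log X) * Real.log b :=
                mul_le_mul_of_nonneg_right hGle hlb.le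
            _ = _ := by ring
        have h3 : (r : ℝ) * (b * q) + b * Q ≤ (X : ℝ) ^ (2 : ℝ) := by
          have h4 : (Q : ℝ) ≤ (X : ℝ) ^ (3 / 4 : ℝ) :=
            hQle.trans (Real.rpow_le_rpow_of_exponent_le hX1' (by norm_num))
          have h5 := hX6 X g6
          have h6 : 2 * (b : ℝ) * (Real.log X) ≤ (X : ℝ) ^ (1 / 8 : ℝ) := by
            refine le_trans ?_ h5
            apply mul_le_mul_of_nonneg_left _ (by positivity)
            nlinarith
          calc (r : ℝ) * (b * q) + b * Q ≤ Real.log X * (b * (X : ℝ) ^ (3 / 4 : ℝ)) +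
                b * (X : ℝ) ^ (3 / 4 : ℝ) := by gcongr
            _ ≤ Real.log X * (b * (X : ℝ) ^ (3 / 4 : ℝ)) + Real.log X * (b * (X : ℝ) ^ (3 / 4 : ℝ)) := by
                have : 0 ≤ b * (X : ℝ) ^ (3 / 4 : ℝ) := by positivity
                nlinarith
            _ = (2 * b * Real.log X) * (X : ℝ) ^ (3 / 4 : ℝ) := by ring
            _ ≤ (X : ℝ) ^ (1 / 8 : ℝ) * (X : ℝ) ^ (3 / 4 : ℝ) :=
                mul_le_mul_of_nonneg_right h6 (by positivity)
            _ = (X : ℝ) ^ (1 / 8 + 3 / 4 : ℝ) := by rw [← Real.rpow_add hXpos]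
            _ ≤ _ := Real.rpow_le_rpow_of_exponent_le hX1' (by norm_num)
        calc ((r : ℝ) * (b * q) + b * Q) * (b : ℝ) ^ G ≤
              (X : ℝ) ^ (2 : ℝ) * (X : ℝ) ^ (A * Real.log b) :=
              mul_le_mul h3 h2 (by positivity) (by positivity)
          _ = (X : ℝ) ^ A' := by rw [← Real.rpow_add hXpos, hA']; congr 1; ring)
  rw [Nat.card_Icc, Nat.add_sub_cancel] at hcmp
  refine hcmp.trans ?_
  have hDle : D ≤ (X : ℝ) ^ (1 - σ') := by
    rw [hD]; exact Real.rpow_le_rpow_of_exponent_le hX1' (by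
      have : σ' ≤ σ := min_le_left _ _
      linarith)
  have hD0 : 0 ≤ D := by positivity
  -- first term
  have hT1 : 2 * (r : ℝ) * X * (256 * b * (Q : ℝ) ^ 2 / q + 4 / Q) ≤ (X : ℝ) ^ (1 - c) / 4 := by
    have e1 : 256 * (b : ℝ) * (Q : ℝ) ^ 2 / q + 4 / Q = (256 * b + 4) / Q := by
      rw [hq]; push_cast; field_simp
    rw [e1]
    have h1 : (256 * (b : ℝ) + 4) / Q ≤ (512 * b + 8) * (X : ℝ) ^ (-(1 / 4) : ℝ) := by
      have e2 : (X : ℝ) ^ (-(1 / 4) : ℝ) = 1 / (X : ℝ) ^ (1 / 4 : ℝ) := by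
        rw [Real.rpow_neg hXpos.le]
        exact (one_div _).symm
      rw [e2, mul_one_div, div_le_div_iff₀ hQ0 (by positivity)]
      nlinarith
    have h2 := hX2 X g2
    have h3 : 2 * (r : ℝ) * (512 * b + 8) * 4 ≤ (X : ℝ) ^ (1 / 8 : ℝ) := by
      refine le_trans ?_ h2
      have h4 : (r : ℝ) ≤ (Real.log X + 1) ^ 2 := by nlinarith
      have h5 : (0 : ℝ) ≤ 512 * b + 8 := by positivity
      nlinarith
    have h4 := hX4 X g4
    calc 2 * (r : ℝ) * X * ((256 * b + 4) / Q)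
        ≤ 2 * r * X * ((512 * b + 8) * (X : ℝ) ^ (-(1 / 4) : ℝ)) := by gcongr
      _ = (2 * r * (512 * b + 8) * 4) * ((X : ℝ) ^ (1 : ℝ) * (X : ℝ) ^ (-(1 / 4) : ℝ)) / 4 := by
          rw [Real.rpow_one]; ring
      _ ≤ (X : ℝ) ^ (1 / 8 : ℝ) * ((X : ℝ) ^ (1 : ℝ) * (X : ℝ) ^ (-(1 / 4) : ℝ)) / 4 := by gcongr
      _ = (X : ℝ) ^ (1 - 1 / 8 : ℝ) / 4 := by
          rw [← Real.rpow_add hXpos, ← Real.rpow_add hXpos]; norm_num
      _ ≤ (X : ℝ) ^ (1 - c) / 4 := by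
          have : 0 ≤ (X : ℝ) ^ (1 - 1 / 8 : ℝ) := by positivity
          linarith
  -- second term
  have hT2 : 4 * (r : ℝ) * D ≤ (X : ℝ) ^ (1 - c) / 4 := by
    have h3 := hX3 X g3
    have h5 := hX5 X g5
    have h4 : (r : ℝ) ≤ (Real.log X + 1) ^ 2 := by nlinarith
    calc 4 * (r : ℝ) * D ≤ 4 * (Real.log X + 1) ^ 2 * (X : ℝ) ^ (1 - σ') := by gcongr
      _ = (4 * 4 * (Real.log X + 1) ^ 2) * (X : ℝ) ^ (1 - σ') / 4 := by ring
      _ ≤ (X : ℝ) ^ (σ' / 2) * (X : ℝ) ^ (1 - σ') / 4 := by gcongr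
      _ = (X : ℝ) ^ (1 - σ' / 2) / 4 := by
          rw [← Real.rpow_add hXpos]; congr 2; ring
      _ ≤ (X : ℝ) ^ (1 - c) / 4 := by
          have : 0 ≤ (X : ℝ) ^ (1 - σ' / 2) := by positivity
          linarith
  -- third term
  have hT3 : D * (9 + 8 * Real.log ((b * q : ℕ) : ℝ)) ^ r ≤ (X : ℝ) ^ (1 - c) / 4 := by
    have h5 := hX5 X g5
    have hbq1 : (1 : ℝ) ≤ ((b * q : ℕ) : ℝ) := by
      exact_mod_cast Nat.mul_pos (by omega : 0 < b) hq1
    have h1 : Real.log ((b * q : ℕ) : ℝ) ≤ Real.log b + Real.log X := by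
      push_cast
      have hq0 : (0 : ℝ) < q := by exact_mod_cast hq1
      rw [Real.log_mul (by linarith) hq0.ne']
      have : Real.log q ≤ Real.log X := by
        apply Real.log_le_log hq0
        refine hqle.trans ?_
        calc (X : ℝ) ^ (3 / 4 : ℝ) ≤ (X : ℝ) ^ (1 : ℝ) :=
              Real.rpow_le_rpow_of_exponent_le hX1' (by norm_num)
          _ = X := Real.rpow_one _
      linarith
    have h2 : 9 + 8 * Real.log ((b * q : ℕ) : ℝ) ≤ Real.log X ^ 2 := by nlinarith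
    have h0 : 0 ≤ 9 + 8 * Real.log ((b * q : ℕ) : ℝ) := by
      have := Real.log_nonneg hbq1
      linarith
    have h3 : (9 + 8 * Real.log ((b * q : ℕ) : ℝ)) ^ r ≤ (X : ℝ) ^ (σ' / 2) := by
      calc (9 + 8 * Real.log ((b * q : ℕ) : ℝ)) ^ r ≤ (Real.log X ^ 2) ^ r := pow_le_pow_left₀ h0 h2 r
        _ = Real.exp (2 * (r * Real.log (Real.log X))) := by
            rw [← pow_mul]
            nth_rewrite 1 [← Real.exp_log hlogpos]
            rw [← Real.exp_nat_mul]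
            congr 1
            push_cast; ring
        _ ≤ Real.exp (2 * (c * Real.log X)) := Real.exp_le_exp.2 (by linarith)
        _ = (X : ℝ) ^ (σ' / 2) := by
            rw [Real.rpow_def_of_pos hXpos, hc]; congr 1; ring
    calc D * (9 + 8 * Real.log ((b * q : ℕ) : ℝ)) ^ r ≤ (X : ℝ) ^ (1 - σ') * (X : ℝ) ^ (σ' / 2) :=
          mul_le_mul hDle h3 (by positivity) (by positivity)
      _ = (X : ℝ) ^ (1 - σ' / 2) := by rw [← Real.rpow_add hXpos]; congr 1; ring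
      _ ≤ (X : ℝ) ^ (1 - c) / 4 := by linarith
  have hpos : 0 ≤ (X : ℝ) ^ (1 - c) := by positivity
  linarith

/-- **Almost independence, total variation form.** -/
theorem indepS_tv {s : ℕ} (ρ : ℝ) (hnat : ∀ n : ℕ, ρ ≠ n) (hρ : 0 < ρ) (α : ℝ) (hα : α ≠ 0)
    (β : Fin s → ℝ) (b : ℕ) (hb : 2 ≤ b) (g0 A : ℝ) (hg0 : (s : ℝ) - 1 ≤ g0 * Real.log b)
    (hA : 0 < A) :
    ∃ c : ℝ, 0 < c ∧ ∃ X0 : ℕ, ∀ X : ℕ, X0 ≤ X → ∀ r : ℕ,
      (r : ℝ) * Real.log (Real.log X) ≤ c * Real.log X → ∀ (ro : Fin r → Fin s) (pl : Fin r → ℕ),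
      Function.Injective (fun k => (ro k, pl k)) →
      (∀ k, g0 * Real.log X ≤ pl k ∧ (pl k : ℝ) ≤ A * Real.log X) →
      ∀ (W : Finset (Fin r → Fin b)) (T : Finset ℕ),
      (∀ n, n ∈ T ↔ (1 ≤ n ∧ n ≤ X) ∧ ∃ w ∈ W, Has b (fun k => (w k : ℕ))
        (fun k => (α * ((n : ℝ) + (ro k : ℕ)) ^ ρ + β (ro k)) * (b : ℝ) ^ (pl k))) →
      |(T.card : ℝ) - X * W.card / (b : ℝ) ^ r| ≤ (X : ℝ) ^ (1 - c) := by
  classical
  obtain ⟨c, hc, X0, h⟩ := indepS ρ hnat hρ α hα β b hb g0 A hg0 hA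
  have hbR : (2 : ℝ) ≤ b := by exact_mod_cast hb
  have hb0 : (0 : ℝ) < b := by linarith
  have hlb : 0 < Real.log b := Real.log_pos (by linarith)
  have t : Filter.Tendsto (fun X : ℕ => Real.log (Real.log X)) Filter.atTop Filter.atTop :=
    Real.tendsto_log_atTop.comp (Real.tendsto_log_atTop.comp tendsto_natCast_atTop_atTop)
  obtain ⟨X1, hX1⟩ := Filter.eventually_atTop.1 (t.eventually_ge_atTop (max 1 (Real.log b)))
  refine ⟨c / 2, by positivity, max X0 (max X1 3), fun X hX r hr ro pl hinj hpl W T hT => ?_⟩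
  simp only [max_le_iff] at hX
  obtain ⟨g1, g2, g3⟩ := hX
  have hXpos : (0 : ℝ) < X := by exact_mod_cast (by omega : 0 < X)
  have hX1' : (1 : ℝ) ≤ X := by exact_mod_cast (by omega : 1 ≤ X)
  have hlog : 0 < Real.log X := Real.log_pos (by exact_mod_cast (by omega : 1 < X))
  have hll := hX1 X g2
  rw [max_le_iff] at hll
  have hr' : (r : ℝ) * Real.log (Real.log X) ≤ c * Real.log X := by
    have : 0 ≤ c * Real.log X := by positivity
    linarith
  have hpt : ∀ w ∈ W, |(((Icc 1 X).filter (fun n : ℕ => Has b (fun k => (w k : ℕ))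
      (fun k => (α * ((n : ℝ) + (ro k : ℕ)) ^ ρ + β (ro k)) * (b : ℝ) ^ (pl k)))).card : ℝ) -
      X / (b : ℝ) ^ r| ≤ (X : ℝ) ^ (1 - c) := by
    intro w _
    exact h X g1 r hr' ro pl (fun k => (w k : ℕ)) hinj hpl (fun k => (w k).2) _
  have hTeq : T.card = ∑ w ∈ W, ((Icc 1 X).filter (fun n : ℕ => Has b (fun k => (w k : ℕ))
      (fun k => (α * ((n : ℝ) + (ro k : ℕ)) ^ ρ + β (ro k)) * (b : ℝ) ^ (pl k)))).card := by
    rw [← card_biUnion]
    · congr 1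
      ext n
      rw [hT, mem_biUnion]
      constructor
      · rintro ⟨h1, w, hw, h2⟩
        exact ⟨w, hw, mem_filter.2 ⟨mem_Icc.2 h1, h2⟩⟩
      · rintro ⟨w, hw, h2⟩
        rw [mem_filter, mem_Icc] at h2
        exact ⟨h2.1, w, hw, h2.2⟩
    · intro w _ w' _ hne
      rw [Function.onFun, disjoint_left]
      intro n hn hn'
      rw [mem_filter] at hn hn'
      apply hne
      funext k
      apply Fin.ext
      have h1 := hn.2 k
      have h2 := hn'.2 k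
      rw [h1] at h2
      exact_mod_cast h2
  rw [hTeq]
  push_cast
  have e1 : (X : ℝ) * W.card / (b : ℝ) ^ r = ∑ _w ∈ W, (X : ℝ) / (b : ℝ) ^ r := by
    rw [sum_const, nsmul_eq_mul]; ring
  rw [e1, ← sum_sub_distrib]
  refine (abs_sum_le_sum_abs _ _).trans ((sum_le_sum hpt).trans ?_)
  rw [sum_const, nsmul_eq_mul]
  have hW : (W.card : ℝ) ≤ (b : ℝ) ^ r := by
    have h1 : W.card ≤ Fintype.card (Fin r → Fin b) := card_le_univ W
    rw [Fintype.card_fun, Fintype.card_fin, Fintype.card_fin] at h1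
    exact_mod_cast h1
  have hbr : (b : ℝ) ^ r ≤ (X : ℝ) ^ (c / 2) := by
    rw [← Real.exp_log hb0, ← Real.exp_nat_mul, Real.rpow_def_of_pos hXpos]
    apply Real.exp_le_exp.2
    calc (r : ℝ) * Real.log b ≤ r * Real.log (Real.log X) :=
          mul_le_mul_of_nonneg_left hll.2 (by positivity)
      _ ≤ c / 2 * Real.log X := hr
      _ = _ := by ring
  calc (W.card : ℝ) * (X : ℝ) ^ (1 - c) ≤ (X : ℝ) ^ (c / 2) * (X : ℝ) ^ (1 - c) :=
        mul_le_mul_of_nonneg_right (hW.trans hbr) (by positivity)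
    _ = _ := by rw [← Real.rpow_add hXpos]; congr 1; ring

end Pool.Agent.TH373.DR3
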