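import Pool.Agent.TH373.DR3.Test
import Mathlib.LinearAlgebra.Vandermonde

set_option autoImplicit false

/-!
Exponential sums with the phases `∑ c_i n^(ρ_i)`, `ρ_i > 0` distinct and not integers.
-/

namespace Pool.Agent.TH373.DR3

open Finset Pool.Agent.Helper153.Vdc Pool.Agent.TH373.DR

open Polynomial in
theorem fall_split (θ : ℝ) (K m : ℕ) :
    fall θ (K + m) = fall θ K * (∏ t ∈ range m, (X - C ((K : ℝ) + t)) : ℝ[X]).eval θ := by
  unfold fall
  rw [prod_range_add, eval_prod]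
  congr 1
  apply prod_congr rfl
  intro t _
  simp only [eval_sub, eval_X, eval_C]
  push_cast
  ring

theorem fall_ne (θ : ℝ) (h : ∀ n : ℕ, θ ≠ n) (k : ℕ) : fall θ k ≠ 0 := by
  unfold fall
  rw [prod_ne_zero_iff]
  intro i _
  exact sub_ne_zero.2 (h i)

/-- some derivative of the orders `K, …, K + s - 1` is large -/
theorem large_der {s : ℕ} (ρ : Fin s → ℝ) (hinj : Function.Injective ρ)
    (hnat : ∀ i, ∀ n : ℕ, ρ i ≠ n) (K : ℕ) :
    ∃ κ : ℝ, 0 < κ ∧ ∀ (b : Fin s → ℝ) (i : Fin s), ∃ m < s,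
      κ * |b i| ≤ |∑ j, fall (ρ j) (K + m) * b j| := by
  classical
  set p : Fin s → Polynomial ℝ := fun m =>
    ∏ t ∈ range (m : ℕ), (Polynomial.X - Polynomial.C ((K : ℝ) + t)) with hp
  have hmonic : ∀ m, (p m).Monic := fun m =>
    Polynomial.monic_prod_of_monic _ _ fun t _ => Polynomial.monic_X_sub_C _
  have hdeg : ∀ m, (p m).natDegree = m := by
    intro m
    rw [hp]
    simp only
    rw [Polynomial.natDegree_prod_of_monic _ _ fun t _ => Polynomial.monic_X_sub_C _]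
    rw [sum_congr rfl (fun t _ => Polynomial.natDegree_X_sub_C ((K : ℝ) + (t : ℕ)))]
    rw [sum_const, card_range, smul_eq_mul, mul_one]
  have hdet := Matrix.det_eval_matrixOfPolynomials_eq_det_vandermonde ρ p hdeg hmonic
  set V : Matrix (Fin s) (Fin s) ℝ := Matrix.of (fun i j => (p j).eval (ρ i)) with hV
  have hdet0 : V.det ≠ 0 := by
    rw [← hdet]
    exact Matrix.det_vandermonde_ne_zero_iff.2 hinj
  have hunit : IsUnit V.det := isUnit_iff_ne_zero.2 hdet0
  set W := V⁻¹ with hW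
  have hVW : V * W = 1 := Matrix.mul_nonsing_inv V hunit
  set L : ℝ := 1 + ∑ m, ∑ i, |W m i| with hL
  have hL1 : 1 ≤ L := by
    rw [hL]
    have : 0 ≤ ∑ m, ∑ i, |W m i| := sum_nonneg fun _ _ => sum_nonneg fun _ _ => abs_nonneg _
    linarith
  have hLi : ∀ i, ∑ m, |W m i| ≤ L := by
    intro i
    have : ∑ m, |W m i| ≤ ∑ m, ∑ i, |W m i| := sum_le_sum fun m _ =>
      single_le_sum (f := fun i => |W m i|) (fun _ _ => abs_nonneg _) (mem_univ i)
    linarith
  -- the first factors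
  obtain ⟨f0, hf0, hf0le⟩ : ∃ f0 : ℝ, 0 < f0 ∧ ∀ i, f0 ≤ |fall (ρ i) K| := by
    rcases isEmpty_or_nonempty (Fin s) with h | h
    · exact ⟨1, one_pos, fun i => h.elim i⟩
    · obtain ⟨i0, hi0⟩ := Finite.exists_min (fun i => |fall (ρ i) K|)
      exact ⟨|fall (ρ i0) K|, abs_pos.2 (fall_ne _ (hnat i0) K), hi0⟩
  refine ⟨f0 / (2 * L), by positivity, ?_⟩
  intro b i
  by_contra hcon
  push Not at hcon
  set w : Fin s → ℝ := fun m => ∑ j, fall (ρ j) (K + m) * b j with hw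
  have hcon' : ∀ m : Fin s, |w m| < f0 / (2 * L) * |b i| := fun m => hcon m m.2
  have hbi : fall (ρ i) K * b i = ∑ m, w m * W m i := by
    have h1 : ∀ m : Fin s, w m = ∑ j, (fall (ρ j) K * b j) * V j m := by
      intro m
      rw [hw]
      simp only
      apply sum_congr rfl
      intro j _
      rw [fall_split]
      rw [hV]
      simp only [Matrix.of_apply]
      ring
    simp only [h1]
    have h2 : ∑ m, (∑ j, (fall (ρ j) K * b j) * V j m) * W m i =
        ∑ j, (fall (ρ j) K * b j) * (V * W) j i := by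
      simp only [Matrix.mul_apply, mul_sum, sum_mul]
      rw [sum_comm]
      apply sum_congr rfl
      intro j _
      apply sum_congr rfl
      intro m _
      ring
    rw [h2, hVW]
    simp [Matrix.one_apply]
  have hb0 : 0 < |b i| := by
    have h1 := hcon' i
    have h2 := abs_nonneg (w i)
    by_contra h
    push Not at h
    have h3 : |b i| = 0 := le_antisymm h (abs_nonneg _)
    rw [h3, mul_zero] at h1
    linarith
  have h3 : |fall (ρ i) K * b i| ≤ f0 / (2 * L) * |b i| * L := by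
    rw [hbi]
    calc |∑ m, w m * W m i| ≤ ∑ m, |w m * W m i| := abs_sum_le_sum_abs _ _
      _ ≤ ∑ m, (f0 / (2 * L) * |b i|) * |W m i| := by
          apply sum_le_sum
          intro m _
          rw [abs_mul]
          exact mul_le_mul_of_nonneg_right (hcon' m).le (abs_nonneg _)
      _ = (f0 / (2 * L) * |b i|) * ∑ m, |W m i| := by rw [mul_sum]
      _ ≤ _ := mul_le_mul_of_nonneg_left (hLi i) (by positivity)
  have h4 : f0 * |b i| ≤ |fall (ρ i) K * b i| := by
    rw [abs_mul]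
    exact mul_le_mul_of_nonneg_right (hf0le i) (abs_nonneg _)
  have h5 : f0 / (2 * L) * |b i| * L = f0 * |b i| / 2 := by field_simp
  have h6 : 0 < f0 * |b i| := by positivity
  linarith

/-- the phase and its derivatives -/
noncomputable def ph {s : ℕ} (ρ c : Fin s → ℝ) (k : ℕ) (x : ℝ) : ℝ :=
  ∑ i, c i * (fall (ρ i) k * x ^ (ρ i - k))

theorem ph_der {s : ℕ} (ρ c : Fin s → ℝ) (hnat : ∀ i, ∀ n : ℕ, ρ i ≠ n) (k : ℕ) (x : ℝ)
    (hx : 0 < x) : HasDerivAt (ph ρ c k) (ph ρ c (k + 1) x) x := by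
  unfold ph
  apply HasDerivAt.fun_sum
  intro i _
  exact ((fam_pow (ρ i) (hnat i)).der k x hx).const_mul (c i)

theorem blocksum (L : ℕ) (B : ℝ) (hB : 0 ≤ B) (J : ℕ) : ∀ (M : ℕ) (z : ℕ → ℂ), M ≤ J * L →
    (∀ n M', n + M' ≤ M → M' ≤ L → ‖∑ m ∈ range M', z (n + m)‖ ≤ B) →
    ‖∑ n ∈ range M, z n‖ ≤ J * B := by
  induction J with
  | zero =>
    intro M z hM _
    have : M = 0 := by omega
    subst this
    simp
  | succ J ih =>
    intro M z hM h
    rcases le_or_gt M L with hle | hgt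
    · have h1 := h 0 M (by omega) hle
      simp only [zero_add] at h1
      push_cast
      have : 0 ≤ (J : ℝ) * B := by positivity
      linarith
    · rw [sum_split M L hgt.le]
      have h1 := h 0 L (by omega) le_rfl
      simp only [zero_add] at h1
      have h2 := ih (M - L) (fun n => z (L + n)) (by
        have : (J + 1) * L = J * L + L := by ring
        omega) (fun n M' h3 h4 => by
        have := h (L + n) M' (by omega) h4
        simp only [add_assoc] at this ⊢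
        exact this)
      refine (norm_add_le _ _).trans ?_
      push_cast
      linarith

/-- **Exponential sums** with the phases `∑ c_i x^(ρ_i)`. -/
theorem expsum_pow {s : ℕ} (ρ : Fin s → ℝ) (hinj : Function.Injective ρ)
    (hnat : ∀ i, ∀ n : ℕ, ρ i ≠ n) (hpos : ∀ i, 0 < ρ i) (c0 : ℝ) (hc0 : 0 < c0) (A : ℝ)
    (hA : 0 ≤ A) :
    ∃ σ : ℝ, 0 < σ ∧ ∃ C : ℝ, 1 ≤ C ∧ ∀ (P M : ℕ) (c : Fin s → ℝ), 1 ≤ P → M ≤ P →
      (∃ i, c0 ≤ |c i|) → (∀ i, |c i| ≤ (P : ℝ) ^ A) →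
      ‖∑ n ∈ range M, ee (ph ρ c 0 ((P : ℝ) + 1 + n))‖ ≤ C * (P : ℝ) ^ (1 - σ) := by
  classical
  rcases isEmpty_or_nonempty (Fin s) with hemp | hne
  · refine ⟨1, one_pos, 1, le_rfl, fun P M c _ _ h _ => ?_⟩
    obtain ⟨i, _⟩ := h
    exact hemp.elim i
  obtain ⟨i0, hi0⟩ := Finite.exists_min ρ
  obtain ⟨i1, hi1⟩ := Finite.exists_max ρ
  set R := ρ i1 with hR
  have hRpos : 0 < R := hpos i1
  set η : ℝ := min (ρ i0 / 2) (1 / 2) with hη
  have hη0 : 0 < η := lt_min (by have := hpos i0; positivity) (by norm_num)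
  have hη1 : η < 1 := lt_of_le_of_lt (min_le_right _ _) (by norm_num)
  have hηρ : η ≤ ρ i0 / 2 := min_le_left _ _
  set K0 : ℕ := ⌈A + R⌉₊ + 2 with hK0
  have hK0' : A + R + 2 ≤ K0 := by
    rw [hK0]; push_cast; linarith [Nat.le_ceil (A + R)]
  obtain ⟨κ, hκ, hlarge⟩ := large_der ρ hinj hnat K0
  -- the upper bound for the derivatives
  set C1 : ℝ := 1 + ∑ k ∈ range (K0 + s + 1), ∑ i, |fall (ρ i) k| * (2 : ℝ) ^ (ρ i) with hC1
  have hC1' : ∀ k, k ≤ K0 + s → ∑ i, |fall (ρ i) k| * (2 : ℝ) ^ (ρ i) ≤ C1 := by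
    intro k hk
    have := single_le_sum (f := fun k => ∑ i, |fall (ρ i) k| * (2 : ℝ) ^ (ρ i))
      (fun k _ => sum_nonneg fun i _ => by positivity) (mem_range.2 (by omega : k < K0 + s + 1))
    linarith
  have hC1pos : 1 ≤ C1 := by
    have : 0 ≤ ∑ k ∈ range (K0 + s + 1), ∑ i, |fall (ρ i) k| * (2 : ℝ) ^ (ρ i) :=
      sum_nonneg fun k _ => sum_nonneg fun i _ => by positivity
    linarith
  set κ' : ℝ := min 1 (κ / 2 * (1 / 2) ^ (K0 + s)) with hκ'
  have hκ'0 : 0 < κ' := lt_min one_pos (by positivity)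
  have hκ'1 : κ' ≤ 1 := min_le_left _ _
  have hκ'2 : κ' ≤ κ / 2 * (1 / 2) ^ (K0 + s) := min_le_right _ _
  set r0 : ℝ := κ' / C1 with hr0
  have hr00 : 0 < r0 := by positivity
  set A1 : ℝ := C1 / κ' with hA1
  have hA1' : 1 ≤ A1 := by
    rw [hA1, le_div_iff₀ hκ'0]; linarith
  obtain ⟨σ, hσ, C, hC, htest⟩ := testK_unif A1 hA1' η hη0 hη1 (K0 + s)
  set J : ℕ := ⌈2 / r0⌉₊ with hJ
  have hJ' : 2 / r0 ≤ J := Nat.le_ceil _
  -- large `P`
  obtain ⟨P0, hP0⟩ : ∃ P0 : ℕ, ∀ P : ℕ, P0 ≤ P → 2 / r0 ≤ P ∧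
      (P : ℝ) ^ (η - ρ i0) ≤ κ' * c0 := by
    have t1 : Filter.Tendsto (fun P : ℕ => (P : ℝ) ^ (-(ρ i0 - η))) Filter.atTop (nhds 0) :=
      (tendsto_rpow_neg_atTop (by linarith [hpos i0])).comp tendsto_natCast_atTop_atTop
    have t2 : Filter.Tendsto (fun P : ℕ => (P : ℝ)) Filter.atTop Filter.atTop :=
      tendsto_natCast_atTop_atTop
    obtain ⟨P0, hP0⟩ := Filter.eventually_atTop.1
      ((t2.eventually_ge_atTop (2 / r0)).and (t1.eventually (ge_mem_nhds (by positivity : 0 < κ' * c0))))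
    refine ⟨P0, fun P hP => ⟨(hP0 P hP).1, ?_⟩⟩
    have := (hP0 P hP).2
    rw [neg_sub] at this
    exact this
  refine ⟨min σ 1, lt_min hσ one_pos, J * C + P0 + 1, by
    have : 0 ≤ (J : ℝ) * C := by positivity
    have : (0 : ℝ) ≤ P0 := by positivity
    linarith, ?_⟩
  intro P M c hP hM hci hcA
  have hP1 : (1 : ℝ) ≤ P := by exact_mod_cast hP
  have hPpos : (0 : ℝ) < P := by linarith
  have hpow1 : (1 : ℝ) ≤ (P : ℝ) ^ (1 - min σ 1) :=
    Real.one_le_rpow hP1 (by linarith [min_le_right σ 1])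
  rcases lt_or_ge P P0 with hsmall | hbig
  · have h1 := triv_bound M (fun n : ℕ => ph ρ c 0 ((P : ℝ) + 1 + n))
    have h2 : (M : ℝ) ≤ P0 := by exact_mod_cast (by omega : M ≤ P0)
    have : 0 ≤ (J : ℝ) * C := by positivity
    have h3 : (P0 : ℝ) + 1 ≤ (J * C + P0 + 1) * 1 := by linarith
    calc _ ≤ (M : ℝ) := h1
      _ ≤ (J * C + P0 + 1) * 1 := by linarith
      _ ≤ _ := mul_le_mul_of_nonneg_left hpow1 (by positivity)
  obtain ⟨hPr, hPη⟩ := hP0 P hbig
  -- the size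
  obtain ⟨im, him⟩ := Finite.exists_max (fun i => |c i| * (P : ℝ) ^ (ρ i))
  set μ : ℝ := |c im| * (P : ℝ) ^ (ρ im) with hμ
  have hμ1 : c0 * (P : ℝ) ^ (ρ i0) ≤ μ := by
    obtain ⟨i, hi⟩ := hci
    refine le_trans ?_ (him i)
    exact mul_le_mul hi (Real.rpow_le_rpow_of_exponent_le hP1 (hi0 i)) (by positivity) (by positivity)
  have hμpos : 0 < μ := lt_of_lt_of_le (by positivity) hμ1
  have hμ2 : μ ≤ (P : ℝ) ^ (A + R) := by
    rw [hμ, Real.rpow_add hPpos]
    exact mul_le_mul (hcA im) (Real.rpow_le_rpow_of_exponent_le hP1 (hi1 im)) (by positivity)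
      (by positivity)
  -- upper bound for the derivatives on `[P, 2P]`
  have hup : ∀ k, k ≤ K0 + s → ∀ x : ℝ, (P : ℝ) ≤ x → x ≤ 2 * P →
      |ph ρ c k x| ≤ C1 * (μ * (P : ℝ) ^ (-(k : ℝ))) := by
    intro k hk x hx1 hx2
    have hxpos : 0 < x := by linarith
    unfold ph
    calc |∑ i, c i * (fall (ρ i) k * x ^ (ρ i - k))|
        ≤ ∑ i, |c i * (fall (ρ i) k * x ^ (ρ i - k))| := abs_sum_le_sum_abs _ _
      _ ≤ ∑ i, (|fall (ρ i) k| * (2 : ℝ) ^ (ρ i)) * (μ * (P : ℝ) ^ (-(k : ℝ))) := by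
          apply sum_le_sum
          intro i _
          rw [abs_mul, abs_mul, abs_of_pos (show 0 < x ^ (ρ i - k) by positivity)]
          have h1 : x ^ (ρ i - k) ≤ (2 : ℝ) ^ (ρ i) * ((P : ℝ) ^ (ρ i) * (P : ℝ) ^ (-(k : ℝ))) := by
            rw [sub_eq_add_neg, Real.rpow_add hxpos]
            rw [← mul_assoc, ← Real.mul_rpow (by norm_num) hPpos.le]
            apply mul_le_mul _ _ (by positivity) (by positivity)
            · exact Real.rpow_le_rpow hxpos.le hx2 (hpos i).le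
            · exact Real.rpow_le_rpow_of_nonpos hPpos hx1 (by simp)
          calc |c i| * (|fall (ρ i) k| * x ^ (ρ i - k))
              ≤ |c i| * (|fall (ρ i) k| *
                ((2 : ℝ) ^ (ρ i) * ((P : ℝ) ^ (ρ i) * (P : ℝ) ^ (-(k : ℝ))))) := by gcongr
            _ = (|fall (ρ i) k| * (2 : ℝ) ^ (ρ i)) * ((|c i| * (P : ℝ) ^ (ρ i)) * (P : ℝ) ^ (-(k : ℝ))) := by
                ring
            _ ≤ _ := by
                apply mul_le_mul_of_nonneg_left _ (by positivity)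
                exact mul_le_mul_of_nonneg_right (him i) (by positivity)
      _ = (∑ i, |fall (ρ i) k| * (2 : ℝ) ^ (ρ i)) * (μ * (P : ℝ) ^ (-(k : ℝ))) := by rw [sum_mul]
      _ ≤ _ := mul_le_mul_of_nonneg_right (hC1' k hk) (by positivity)
  -- the length of the blocks
  set L : ℕ := ⌊r0 * P⌋₊ with hL
  have hL1 : (L : ℝ) ≤ r0 * P := Nat.floor_le (by positivity)
  have hL2 : r0 * P / 2 ≤ L := by
    have h1 := Nat.lt_floor_add_one (r0 * P)
    have h2 : 2 ≤ r0 * P := by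
      rw [div_le_iff₀ hr00] at hPr; linarith
    rw [← hL] at h1
    linarith
  have hJL : M ≤ J * L := by
    have h1 : (P : ℝ) ≤ J * L := by
      calc (P : ℝ) = 2 / r0 * (r0 * P / 2) := by field_simp
        _ ≤ J * L := mul_le_mul hJ' hL2 (by positivity) (by positivity)
    have h2 : P ≤ J * L := by exact_mod_cast h1
    omega
  have hblock : ∀ n M', n + M' ≤ M → M' ≤ L →
      ‖∑ m ∈ range M', ee (ph ρ c 0 ((P : ℝ) + 1 + ((n + m : ℕ) : ℝ)))‖ ≤ C * (P : ℝ) ^ (1 - σ) := by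
    intro n M' hnM hM'
    rcases Nat.eq_zero_or_pos M' with rfl | hM'pos
    · simp; positivity
    have hnMR : (n : ℝ) + M' ≤ P := by exact_mod_cast (by omega : n + M' ≤ P)
    have hM'R : (1 : ℝ) ≤ M' := by exact_mod_cast hM'pos
    set x0 : ℝ := (P : ℝ) + 1 + n with hx0
    have hn0 : (0 : ℝ) ≤ n := by positivity
    have hx0P : (P : ℝ) ≤ x0 := by rw [hx0]; linarith
    have hx02 : x0 ≤ 2 * P := by rw [hx0]; linarith
    have hx0pos : 0 < x0 := by linarith
    obtain ⟨m, hms, hm⟩ := hlarge (fun i => c i * x0 ^ (ρ i)) im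
    set k := K0 + m with hk
    have hkle : k ≤ K0 + s := by omega
    have hk1 : k + 1 ≤ K0 + s := by omega
    have hPk : ∀ x : ℝ, 0 < x → ph ρ c k x = x ^ (-(k : ℝ)) * ∑ j, fall (ρ j) k * (c j * x ^ (ρ j)) := by
      intro x hx
      unfold ph
      rw [mul_sum]
      apply sum_congr rfl
      intro i _
      rw [sub_eq_add_neg, Real.rpow_add hx]
      ring
    have hlow0 : κ * (μ * (2 * P : ℝ) ^ (-(k : ℝ))) ≤ |ph ρ c k x0| := by
      rw [hPk x0 hx0pos, abs_mul, abs_of_pos (show 0 < x0 ^ (-(k : ℝ)) by positivity)]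
      have h1 : μ ≤ |c im * x0 ^ (ρ im)| := by
        rw [hμ, abs_mul, abs_of_pos (show 0 < x0 ^ (ρ im) by positivity)]
        apply mul_le_mul_of_nonneg_left _ (abs_nonneg _)
        exact Real.rpow_le_rpow hPpos.le hx0P (hpos im).le
      have h2 : (2 * P : ℝ) ^ (-(k : ℝ)) ≤ x0 ^ (-(k : ℝ)) :=
        Real.rpow_le_rpow_of_nonpos hx0pos hx02 (by simp)
      calc κ * (μ * (2 * P : ℝ) ^ (-(k : ℝ))) = (2 * P : ℝ) ^ (-(k : ℝ)) * (κ * μ) := by ring
        _ ≤ x0 ^ (-(k : ℝ)) * (κ * |c im * x0 ^ (ρ im)|) := by gcongr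
        _ ≤ _ := mul_le_mul_of_nonneg_left hm (by positivity)
    set w : ℝ := μ * (P : ℝ) ^ (-(k : ℝ)) with hw
    have hwpos : 0 < w := by positivity
    have hlow : 2 * κ' * w ≤ |ph ρ c k x0| := by
      refine le_trans ?_ hlow0
      have h1 : (2 * P : ℝ) ^ (-(k : ℝ)) = (1 / 2) ^ k * (P : ℝ) ^ (-(k : ℝ)) := by
        rw [Real.mul_rpow (by norm_num) hPpos.le, Real.rpow_neg (by norm_num), Real.rpow_natCast]
        simp
      rw [h1]
      have h2 : ((1 : ℝ) / 2) ^ (K0 + s) ≤ (1 / 2) ^ k :=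
        pow_le_pow_of_le_one (by norm_num) (by norm_num) hkle
      calc 2 * κ' * w ≤ 2 * (κ / 2 * (1 / 2) ^ (K0 + s)) * w := by gcongr
        _ ≤ 2 * (κ / 2 * (1 / 2) ^ k) * w := by gcongr
        _ = _ := by rw [hw]; ring
    -- on the block
    have hnear : ∀ x : ℝ, x0 ≤ x → x ≤ x0 + M' - 1 → |ph ρ c k x - ph ρ c k x0| ≤ κ' * w := by
      intro x hxa hxb
      have hx2P : x0 + M' - 1 ≤ 2 * P := by rw [hx0]; linarith
      rcases eq_or_lt_of_le hxa with heq | hlt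
      · rw [← heq, sub_self, abs_zero]; positivity
      obtain ⟨ξ, hξ, hξ2⟩ := exists_hasDerivAt_eq_slope (ph ρ c k) (ph ρ c (k + 1)) hlt
        (fun y hy => (ph_der ρ c hnat k y (by linarith [hy.1])).continuousAt.continuousWithinAt)
        (fun y hy => ph_der ρ c hnat k y (by linarith [hy.1]))
      have h1 : ph ρ c k x - ph ρ c k x0 = ph ρ c (k + 1) ξ * (x - x0) := by
        rw [hξ2]; field_simp [(sub_pos.2 hlt).ne']
      rw [h1, abs_mul, abs_of_pos (sub_pos.2 hlt)]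
      have h2 := hup (k + 1) hk1 ξ (by linarith [hξ.1]) (by linarith [hξ.2])
      have h3 : x - x0 ≤ r0 * P := by
        have : (M' : ℝ) ≤ L := by exact_mod_cast hM'
        linarith
      calc |ph ρ c (k + 1) ξ| * (x - x0)
          ≤ (C1 * (μ * (P : ℝ) ^ (-((k + 1 : ℕ) : ℝ)))) * (r0 * P) :=
            mul_le_mul h2 h3 (sub_pos.2 hlt).le (by positivity)
        _ = (C1 * r0) * (μ * ((P : ℝ) ^ (-((k + 1 : ℕ) : ℝ)) * P)) := by ring
        _ = κ' * w := by
            have e1 : (P : ℝ) ^ (-((k + 1 : ℕ) : ℝ)) * P = (P : ℝ) ^ (-(k : ℝ)) := by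
              nth_rewrite 2 [← Real.rpow_one (P : ℝ)]
              rw [← Real.rpow_add hPpos]
              congr 1; push_cast; ring
            have e2 : C1 * r0 = κ' := by rw [hr0]; field_simp
            rw [e1, e2]
    -- the sign
    obtain ⟨ε, hε, hεpos⟩ : ∃ ε : ℝ, (ε = 1 ∨ ε = -1) ∧ ε * ph ρ c k x0 = |ph ρ c k x0| := by
      rcases le_or_gt 0 (ph ρ c k x0) with h | h
      · exact ⟨1, Or.inl rfl, by rw [abs_of_nonneg h, one_mul]⟩
      · exact ⟨-1, Or.inr rfl, by rw [abs_of_neg h]; ring⟩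
    have hεabs : |ε| = 1 := by rcases hε with h | h <;> rw [h] <;> simp
    have hcond : CondK k (fun m : ℕ => ε * ph ρ c 0 (x0 + m)) M' (κ' * w) A1 := by
      intro a ha
      have haR : (a : ℝ) + k ≤ M' - 1 := by
        have : a + k + 1 ≤ M' := by omega
        have : (a : ℝ) + k + 1 ≤ M' := by exact_mod_cast this
        linarith
      have ha0 : (0 : ℝ) ≤ a := by positivity
      have hk00 : (0 : ℝ) ≤ k := by positivity
      obtain ⟨ξ, h1, h2, h3⟩ := dd_mvt k (fun i x => ε * ph ρ c i (x0 + x)) 0 (M' - 1) a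
        ha0 haR (fun i x hx0' hx1 => by
          have b1 := ph_der ρ c hnat i (x0 + x) (by linarith)
          have b2 : HasDerivAt (fun y : ℝ => ph ρ c i (x0 + y)) (ph ρ c (i + 1) (x0 + x)) x := by
            have := HasDerivAt.comp_const_add x0 x b1
            simpa using this
          exact b2.const_mul ε)
      rw [h3]
      have h4 := hnear (x0 + ξ) (by linarith) (by linarith)
      have h5 := hup k hkle (x0 + ξ) (by linarith) (by linarith)
      have h6 : ε * ph ρ c k (x0 + ξ) = |ph ρ c k x0| + ε * (ph ρ c k (x0 + ξ) - ph ρ c k x0) := by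
        rw [← hεpos]; ring
      have h7 : |ε * (ph ρ c k (x0 + ξ) - ph ρ c k x0)| ≤ κ' * w := by
        rw [abs_mul, hεabs, one_mul]; exact h4
      rw [abs_le] at h7
      constructor
      · rw [h6]; linarith [h7.1]
      · have h8 : ε * ph ρ c k (x0 + ξ) ≤ |ph ρ c k (x0 + ξ)| := by
          have := le_abs_self (ε * ph ρ c k (x0 + ξ))
          rwa [abs_mul, hεabs, one_mul] at this
        refine h8.trans (h5.trans (le_of_eq ?_))
        rw [hA1, hw]; field_simp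
    have hmain := htest k (by omega) hkle P M' _ (κ' * w) hP (by omega) hcond ?_ ?_
    · refine le_trans (le_of_eq ?_) hmain
      have e1 : ∀ m : ℕ, (P : ℝ) + 1 + ((n + m : ℕ) : ℝ) = x0 + m := by
        intro m; rw [hx0]; push_cast; ring
      simp only [e1]
      rcases hε with h | h
      · rw [h]; simp only [one_mul]
      · rw [h]
        simp only [neg_mul, one_mul]
        exact (norm_sum_neg M' (fun m : ℕ => ph ρ c 0 (x0 + m))).symm
    · -- lower bound
      rw [hw]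
      calc (P : ℝ) ^ (-(k : ℝ) + η) = (P : ℝ) ^ (η - ρ i0) * ((P : ℝ) ^ (ρ i0) * (P : ℝ) ^ (-(k : ℝ))) := by
            rw [← Real.rpow_add hPpos, ← Real.rpow_add hPpos]; congr 1; ring
        _ ≤ (κ' * c0) * ((P : ℝ) ^ (ρ i0) * (P : ℝ) ^ (-(k : ℝ))) := by gcongr
        _ = κ' * ((c0 * (P : ℝ) ^ (ρ i0)) * (P : ℝ) ^ (-(k : ℝ))) := by ring
        _ ≤ _ := by gcongr
    · rw [hw]
      calc κ' * (μ * (P : ℝ) ^ (-(k : ℝ))) ≤ 1 * ((P : ℝ) ^ (A + R) * (P : ℝ) ^ (-(k : ℝ))) := by gcongr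
        _ = (P : ℝ) ^ (A + R - k) := by rw [one_mul, ← Real.rpow_add hPpos]; congr 1
        _ ≤ (P : ℝ) ^ (-η) := by
            apply Real.rpow_le_rpow_of_exponent_le hP1
            have : (K0 : ℝ) ≤ k := by exact_mod_cast (by omega : K0 ≤ k)
            linarith
  have hfin := blocksum L (C * (P : ℝ) ^ (1 - σ)) (by positivity) J M
    (fun n : ℕ => ee (ph ρ c 0 ((P : ℝ) + 1 + n))) hJL hblock
  refine hfin.trans ?_
  have h1 : (P : ℝ) ^ (1 - σ) ≤ (P : ℝ) ^ (1 - min σ 1) :=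
    Real.rpow_le_rpow_of_exponent_le hP1 (by linarith [min_le_left σ 1])
  have h2 : (0 : ℝ) ≤ P0 := by positivity
  calc (J : ℝ) * (C * (P : ℝ) ^ (1 - σ)) = (J * C) * (P : ℝ) ^ (1 - σ) := by ring
    _ ≤ (J * C + P0 + 1) * (P : ℝ) ^ (1 - min σ 1) :=
        mul_le_mul (by linarith) h1 (by positivity) (by positivity)

end Pool.Agent.TH373.DR3
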