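import Pool.Agent.TH373.DR2.TV
import Pool.Agent.TH373.DR3.Pow

set_option autoImplicit false

/-!
Joint distribution of digits of several numbers at several places: comparison with a reference.
-/

namespace Pool.Agent.TH373.DR3

open Finset Pool.Agent.Helper153.Vdc Pool.Agent.TH373.DR

/-- the phase of an index -/
def Phs {r : ℕ} (c : Fin r → ℕ × ℕ) (Y : Fin r → ℝ) : ℝ :=
  ∑ k, ((((c k).1 : ℤ) - (c k).2 : ℤ) : ℝ) * Y k

/-- the smooth indicator of the first digits `a k` of the numbers `Y k` -/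
noncomputable def PhY (b q : ℕ) {r : ℕ} (a : Fin r → ℕ) (Y : Fin r → ℝ) : ℝ :=
  ∏ k, phi b q (a k) (Y k)

theorem PhY_expand (b q : ℕ) {r : ℕ} (a : Fin r → ℕ) (Y : Fin r → ℝ) :
    ((PhY b q a Y : ℝ) : ℂ) = ∑ c ∈ Idx b q r, Cf b q a c * ee (Phs c Y) := by
  unfold PhY
  push_cast
  simp only [phi_expand]
  rw [prod_univ_sum]
  apply sum_congr rfl
  intro c _
  rw [prod_mul_distrib, ee_sum]
  unfold Cf Phs
  rfl

open Classical in
/-- the constant term -/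
noncomputable def McY (b q : ℕ) {r : ℕ} (a : Fin r → ℕ) (Z : (Fin r → ℕ × ℕ) → Prop) : ℂ :=
  ∑ c ∈ Idx b q r, if Z c then Cf b q a c else 0

theorem PhY_sum {ι : Type*} (S : Finset ι) (b q : ℕ) {r : ℕ} (Y : ι → Fin r → ℝ) (a : Fin r → ℕ)
    (hb : 1 ≤ b) (hq : 1 ≤ q) (ha : ∀ k, a k < b) (Z : (Fin r → ℕ × ℕ) → Prop) (D : ℝ)
    (hD0 : 0 ≤ D) (hZ : ∀ c ∈ Idx b q r, Z c → ∀ i ∈ S, Phs c (Y i) = 0)
    (hD : ∀ c ∈ Idx b q r, ¬ Z c → ‖∑ i ∈ S, ee (Phs c (Y i))‖ ≤ D) :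
    ‖((∑ i ∈ S, PhY b q a (Y i) : ℝ) : ℂ) - S.card * McY b q a Z‖ ≤
      D * (9 + 8 * Real.log ((b * q : ℕ) : ℝ)) ^ r := by
  classical
  have e1 : ((∑ i ∈ S, PhY b q a (Y i) : ℝ) : ℂ) - S.card * McY b q a Z =
      ∑ c ∈ Idx b q r, (Cf b q a c * ∑ i ∈ S, ee (Phs c (Y i)) -
        S.card * (if Z c then Cf b q a c else 0)) := by
    push_cast
    simp only [PhY_expand]
    rw [sum_comm, sum_sub_distrib, McY, mul_sum]
    congr 1
    apply sum_congr rfl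
    intro c _
    rw [mul_sum]
  rw [e1]
  refine (norm_sum_le _ _).trans ?_
  calc _ ≤ ∑ c ∈ Idx b q r, D * ‖Cf b q a c‖ := by
        apply sum_le_sum
        intro c hc
        by_cases h : Z c
        · rw [if_pos h]
          have e2 : ∑ i ∈ S, ee (Phs c (Y i)) = S.card := by
            rw [sum_congr rfl (fun i hi => by rw [hZ c hc h i hi, ee_zero]), sum_const, nsmul_eq_mul,
              mul_one]
          have : Cf b q a c * ∑ i ∈ S, ee (Phs c (Y i)) - S.card * Cf b q a c = 0 := by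
            rw [e2]; ring
          rw [this, norm_zero]
          positivity
        · rw [if_neg h, mul_zero, sub_zero, norm_mul, mul_comm]
          apply mul_le_mul_of_nonneg_right _ (norm_nonneg _)
          exact hD c hc h
    _ = D * ∑ c ∈ Idx b q r, ‖Cf b q a c‖ := by rw [mul_sum]
    _ ≤ _ := mul_le_mul_of_nonneg_left (Cf_l1 b q a hb hq ha) hD0

/-- the first digits of the numbers `Y k` are `a k` -/
def Has (b : ℕ) {r : ℕ} (a : Fin r → ℕ) (Y : Fin r → ℝ) : Prop :=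
  ∀ k, dgt b (Y k) = (a k : ℤ)

theorem cnt_PhY {ι : Type*} (S : Finset ι) (b q Q : ℕ) {r : ℕ} (Y : ι → Fin r → ℝ) (a : Fin r → ℕ)
    (hb : 1 ≤ b) (hq : 1 ≤ q) (hQ : 1 ≤ Q) (D : ℝ) (hD0 : 0 ≤ D)
    (hD : ∀ k : Fin r, ∀ h : ℤ, h ≠ 0 → |h| < Q → ‖∑ i ∈ S, ee (h * (Y i k * b))‖ ≤ D)
    [DecidablePred fun i => Has b a (Y i)] :
    |((S.filter (fun i => Has b a (Y i))).card : ℝ) - ∑ i ∈ S, PhY b q a (Y i)| ≤
      r * (S.card * (256 * b * (Q : ℝ) ^ 2 / q) + (4 * S.card / Q + 4 * D)) := by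
  classical
  have hb0 : (0 : ℝ) < b := by exact_mod_cast hb
  have hQ0 : (0 : ℝ) < Q := by exact_mod_cast hQ
  have hq0 : (0 : ℝ) < q := by exact_mod_cast hq
  set δ : ℝ := 1 / (8 * b * Q) with hδ
  have hδ0 : 0 < δ := by positivity
  have hδb : δ * b = 1 / (8 * Q) := by rw [hδ]; field_simp
  set near : Fin r → ι → Prop := fun k i => ∃ z : ℤ, |Y i k * b - 0 - z| ≤ 1 / (8 * Q)
    with hnear
  have hε : 4 / (δ ^ 2 * ((b * q : ℕ) : ℝ)) = 256 * b * (Q : ℝ) ^ 2 / q := by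
    rw [hδ]; push_cast; field_simp; norm_num
  have hpt : ∀ i ∈ S, |(if Has b a (Y i) then (1 : ℝ) else 0) - PhY b q a (Y i)| ≤
      ∑ k, (256 * b * (Q : ℝ) ^ 2 / q + (if near k i then (1 : ℝ) else 0)) := by
    intro i _
    have e1 : (if Has b a (Y i) then (1 : ℝ) else 0) =
        ∏ k, (if dgt b (Y i k) = (a k : ℤ) then (1 : ℝ) else 0) := by
      by_cases h : Has b a (Y i)
      · rw [if_pos h]
        symm
        apply prod_eq_one
        intro k _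
        rw [if_pos (h k)]
      · rw [if_neg h]
        symm
        unfold Has at h
        push Not at h
        obtain ⟨k, hk⟩ := h
        exact prod_eq_zero (mem_univ k) (if_neg hk)
    rw [e1]
    unfold PhY
    refine (prod_close univ _ _ (fun k _ => ?_) (fun k _ => ⟨phi_nonneg _ _ _ _,
      phi_le_one _ _ _ hb hq _⟩)).trans ?_
    · split_ifs <;> norm_num
    · apply sum_le_sum
      intro k _
      by_cases hn : near k i
      · rw [if_pos hn]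
        have h1 := phi_nonneg b q (a k) (Y i k)
        have h2 := phi_le_one b q (a k) hb hq (Y i k)
        have h3 : 0 ≤ 256 * b * (Q : ℝ) ^ 2 / q := by positivity
        rw [abs_le]
        split_ifs <;> constructor <;> linarith
      · rw [if_neg hn, add_zero, abs_sub_comm, ← hε]
        apply phi_approx b q (a k) hb hq _ δ hδ0
        intro z
        by_contra hcon
        push Not at hcon
        apply hn
        refine ⟨z, ?_⟩
        rw [hδb] at hcon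
        rw [sub_zero]
        exact hcon
  have e2 : ((S.filter (fun i => Has b a (Y i))).card : ℝ) =
      ∑ i ∈ S, (if Has b a (Y i) then (1 : ℝ) else 0) := by
    rw [card_filter]; push_cast; rfl
  rw [e2, ← sum_sub_distrib]
  refine (abs_sum_le_sum_abs _ _).trans ((sum_le_sum hpt).trans ?_)
  rw [sum_comm]
  have h4 : ∀ k : Fin r, ∑ i ∈ S, (256 * b * (Q : ℝ) ^ 2 / q + (if near k i then (1 : ℝ) else 0)) ≤
      S.card * (256 * b * (Q : ℝ) ^ 2 / q) + (4 * S.card / Q + 4 * D) := by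
    intro k
    rw [sum_add_distrib, sum_const, nsmul_eq_mul]
    have h5 : ∑ i ∈ S, (if near k i then (1 : ℝ) else 0) = ((S.filter (near k)).card : ℝ) := by
      rw [card_filter]; push_cast; rfl
    rw [h5]
    have h6 := count_interval S (fun i => Y i k * b) Q hQ D hD0 (hD k) 0 (near k)
      (fun i hi => hi)
    linarith
  calc _ ≤ ∑ _k : Fin r, (S.card * (256 * b * (Q : ℝ) ^ 2 / q) + (4 * S.card / Q + 4 * D)) :=
        sum_le_sum fun k _ => h4 k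
    _ = _ := by rw [sum_const, card_univ, Fintype.card_fin, nsmul_eq_mul]

/-- **Comparison of two systems.** -/
theorem compareY {ι κ : Type*} (S : Finset ι) (S' : Finset κ) (hS' : S'.Nonempty) (b q Q : ℕ) {r : ℕ}
    (Y : ι → Fin r → ℝ) (Y' : κ → Fin r → ℝ) (a : Fin r → ℕ)
    (hb : 2 ≤ b) (hq : 1 ≤ q) (hQ : 1 ≤ Q) (ha : ∀ k, a k < b)
    (Z : (Fin r → ℕ × ℕ) → Prop) (D : ℝ) (hD0 : 0 ≤ D)
    (hZ : ∀ c ∈ Idx b q r, Z c → ∀ i ∈ S, Phs c (Y i) = 0)
    (hZ' : ∀ c ∈ Idx b q r, Z c → ∀ i ∈ S', Phs c (Y' i) = 0)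
    (hD : ∀ c ∈ Idx b q r, ¬ Z c → ‖∑ i ∈ S, ee (Phs c (Y i))‖ ≤ D)
    (hD' : ∀ c ∈ Idx b q r, ¬ Z c → ‖∑ i ∈ S', ee (Phs c (Y' i))‖ ≤ 0)
    (hE : ∀ k : Fin r, ∀ h : ℤ, h ≠ 0 → |h| < Q → ‖∑ i ∈ S, ee (h * (Y i k * b))‖ ≤ D)
    (hE' : ∀ k : Fin r, ∀ h : ℤ, h ≠ 0 → |h| < Q → ‖∑ i ∈ S', ee (h * (Y' i k * b))‖ ≤ 0)
    [DecidablePred fun i => Has b a (Y i)] [DecidablePred fun i => Has b a (Y' i)]
    (hcard : ((S'.filter (fun i => Has b a (Y' i))).card : ℝ) = S'.card * (1 / (b : ℝ) ^ r)) :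
    |((S.filter (fun i => Has b a (Y i))).card : ℝ) - S.card / (b : ℝ) ^ r| ≤
      2 * r * S.card * (256 * b * (Q : ℝ) ^ 2 / q + 4 / Q) + 4 * r * D +
        D * (9 + 8 * Real.log ((b * q : ℕ) : ℝ)) ^ r := by
  have hb1 : 1 ≤ b := by omega
  have h1 := cnt_PhY S b q Q Y a hb1 hq hQ D hD0 hE
  have h2 := PhY_sum S b q Y a hb1 hq ha Z D hD0 hZ hD
  have h3 := cnt_PhY S' b q Q Y' a hb1 hq hQ 0 le_rfl hE'
  have h4 := PhY_sum S' b q Y' a hb1 hq ha Z 0 le_rfl hZ' hD'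
  rw [zero_mul] at h4
  have h5 := norm_le_zero_iff.1 h4
  rw [sub_eq_zero] at h5
  set U : ℝ := ∑ m ∈ S', PhY b q a (Y' m) with hU
  have hS0 : (0 : ℝ) < S'.card := by exact_mod_cast hS'.card_pos
  have hM : McY b q a Z = ((U / (S'.card : ℝ) : ℝ) : ℂ) := by
    have hbc : (S'.card : ℂ) ≠ 0 := by exact_mod_cast hS'.card_pos.ne'
    push_cast
    rw [h5]
    field_simp
  set V : ℝ := ∑ i ∈ S, PhY b q a (Y i) with hV
  have h6 : |V - S.card * (U / (S'.card : ℝ))| ≤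
      D * (9 + 8 * Real.log ((b * q : ℕ) : ℝ)) ^ r := by
    rw [hM] at h2
    have e : ((V : ℝ) : ℂ) - S.card * ((U / (S'.card : ℝ) : ℝ) : ℂ) =
        ((V - S.card * (U / (S'.card : ℝ)) : ℝ) : ℂ) := by push_cast; ring
    rw [e, Complex.norm_real, Real.norm_eq_abs] at h2
    exact h2
  set ε0 : ℝ := 256 * b * (Q : ℝ) ^ 2 / q with hε0
  have hε0' : 0 ≤ ε0 := by positivity
  have h7 : |1 / (b : ℝ) ^ r - U / (S'.card : ℝ)| ≤ r * (ε0 + 4 / Q) := by
    rw [hcard] at h3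
    have e2 : (S'.card : ℝ) * (1 / (b : ℝ) ^ r) - U =
        (S'.card : ℝ) * (1 / (b : ℝ) ^ r - U / (S'.card : ℝ)) := by field_simp
    rw [e2, abs_mul, abs_of_pos hS0] at h3
    have e3 : (r : ℝ) * ((S'.card : ℝ) * ε0 + (4 * (S'.card : ℝ) / Q + 4 * 0)) =
        (S'.card : ℝ) * (r * (ε0 + 4 / Q)) := by ring
    rw [e3] at h3
    exact le_of_mul_le_mul_left h3 hS0
  have h8 : |S.card * (1 / (b : ℝ) ^ r) - S.card * (U / (S'.card : ℝ))| ≤
      S.card * (r * (ε0 + 4 / Q)) := by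
    rw [← mul_sub, abs_mul, abs_of_nonneg (by positivity : (0 : ℝ) ≤ S.card)]
    exact mul_le_mul_of_nonneg_left h7 (by positivity)
  have e9 : (S.card : ℝ) / (b : ℝ) ^ r = S.card * (1 / (b : ℝ) ^ r) := by ring
  rw [e9]
  rw [abs_le] at h1 h6 h8 ⊢
  have e10 : (r : ℝ) * (S.card * ε0 + (4 * S.card / Q + 4 * D)) =
      r * S.card * (ε0 + 4 / Q) + 4 * r * D := by ring
  rw [e10] at h1
  have e11 : (S.card : ℝ) * (r * (ε0 + 4 / Q)) = r * S.card * (ε0 + 4 / Q) := by ring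
  rw [e11] at h8
  constructor <;> linarith [h1.1, h1.2, h6.1, h6.2, h8.1, h8.2]

end Pool.Agent.TH373.DR3
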