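import Pool.Agent.TH373.DR3.Gen
import Mathlib.Analysis.Calculus.Taylor

set_option autoImplicit false

/-!
Exponential sums with the phases `∑ h_j (n + j)^ρ`, `j = 0, …, s - 1`.
-/

namespace Pool.Agent.TH373.DR3

open Finset Pool.Agent.Helper153.Vdc Pool.Agent.TH373.DR

/-- the phase and its derivatives -/
noncomputable def sh {s : ℕ} (ρ : ℝ) (h : Fin s → ℝ) (k : ℕ) (x : ℝ) : ℝ :=
  ∑ j : Fin s, h j * (fall ρ k * (x + (j : ℕ)) ^ (ρ - k))

theorem sh_der {s : ℕ} (ρ : ℝ) (h : Fin s → ℝ) (hnat : ∀ n : ℕ, ρ ≠ n) (k : ℕ) (x : ℝ)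
    (hx : 0 < x) : HasDerivAt (sh ρ h k) (sh ρ h (k + 1) x) x := by
  unfold sh
  apply HasDerivAt.fun_sum
  intro j _
  have h1 := (fam_pow ρ hnat).der k (x + (j : ℕ)) (by positivity)
  have h2 : HasDerivAt (fun y : ℝ => fall ρ k * (y + (j : ℕ)) ^ (ρ - k))
      (fall ρ (k + 1) * (x + (j : ℕ)) ^ (ρ - (k + 1 : ℕ))) x :=
    HasDerivAt.comp_add_const x ((j : ℕ) : ℝ) h1
  exact h2.const_mul (h j)

theorem fall_add (θ : ℝ) (i k : ℕ) : fall θ (i + k) = fall θ i * fall (θ - i) k := by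
  unfold fall
  rw [prod_range_add]
  congr 1
  apply prod_congr rfl
  intro t _
  push_cast
  ring

/-- the Taylor remainder of a power -/
noncomputable def rem (s : ℕ) (e x y : ℝ) : ℝ :=
  (x + y) ^ e - ∑ i ∈ range s, fall e i / (i.factorial : ℝ) * y ^ i * x ^ (e - i)

theorem rem_der (s : ℕ) (e x y : ℝ) (hx : 0 < x) (hy : 0 ≤ y) :
    HasDerivAt (rem (s + 1) e x) (e * rem s (e - 1) x y) y := by
  have h1 : HasDerivAt (fun y : ℝ => (x + y) ^ e) (e * (x + y) ^ (e - 1)) y := by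
    have h0 := Real.hasDerivAt_rpow_const (x := x + y) (p := e) (Or.inl (by positivity))
    have := HasDerivAt.comp_const_add x y h0
    simpa using this
  have h2 : HasDerivAt (fun y : ℝ => ∑ i ∈ range s,
      fall e (i + 1) / ((i + 1).factorial : ℝ) * y ^ (i + 1) * x ^ (e - (i + 1 : ℕ)))
      (∑ i ∈ range s, fall e (i + 1) / ((i + 1).factorial : ℝ) * (((i + 1 : ℕ) : ℝ) * y ^ i) *
        x ^ (e - (i + 1 : ℕ))) y := by
    apply HasDerivAt.fun_sum
    intro i _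
    have h3 := ((hasDerivAt_pow (i + 1) y).const_mul (fall e (i + 1) / ((i + 1).factorial : ℝ))).mul_const
      (x ^ (e - (i + 1 : ℕ)))
    simpa using h3
  have h4 : HasDerivAt (fun y : ℝ => (x + y) ^ e - (∑ i ∈ range s,
      fall e (i + 1) / ((i + 1).factorial : ℝ) * y ^ (i + 1) * x ^ (e - (i + 1 : ℕ)) + x ^ e))
      (e * (x + y) ^ (e - 1) - (∑ i ∈ range s, fall e (i + 1) / ((i + 1).factorial : ℝ) *
        (((i + 1 : ℕ) : ℝ) * y ^ i) * x ^ (e - (i + 1 : ℕ)))) y := by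
    exact h1.fun_sub (h2.add_const (x ^ e))
  have e1 : rem (s + 1) e x = fun y : ℝ => (x + y) ^ e - (∑ i ∈ range s,
      fall e (i + 1) / ((i + 1).factorial : ℝ) * y ^ (i + 1) * x ^ (e - (i + 1 : ℕ)) + x ^ e) := by
    funext y
    unfold rem
    rw [sum_range_succ']
    congr 2
    simp [fall]
  rw [e1]
  refine h4.congr_deriv ?_
  unfold rem
  rw [mul_sub, mul_sum]
  congr 1
  apply sum_congr rfl
  intro i _
  have e2 : fall e (i + 1) = e * fall (e - 1) i := by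
    rw [add_comm i 1, fall_add]
    simp [fall]
  have e3 : e - ((i + 1 : ℕ) : ℝ) = e - 1 - i := by push_cast; ring
  rw [e2, e3, Nat.factorial_succ]
  push_cast
  have : ((i : ℝ) + 1) ≠ 0 := by positivity
  have : ((i.factorial : ℕ) : ℝ) ≠ 0 := by positivity
  field_simp

theorem rem_bound (S : ℝ) (hS : 0 ≤ S) (s : ℕ) : ∀ e : ℝ, ∃ C : ℝ, 0 ≤ C ∧ ∀ (P x y : ℝ), 1 ≤ P →
    P ≤ x → x ≤ 2 * P → 0 ≤ y → y ≤ S → |rem s e x y| ≤ C * P ^ (e - s) := by
  induction s with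
  | zero =>
    intro e
    refine ⟨(2 + S) ^ |e|, by positivity, fun P x y hP h1 h2 h3 h4 => ?_⟩
    have hP0 : 0 < P := by linarith
    have hx0 : 0 < x + y := by linarith
    unfold rem
    simp only [range_zero, sum_empty, sub_zero, Nat.cast_zero]
    rw [abs_of_pos (by positivity)]
    rcases le_or_gt 0 e with h | h
    · rw [abs_of_nonneg h, ← Real.mul_rpow (by positivity) hP0.le]
      apply Real.rpow_le_rpow hx0.le _ h
      nlinarith
    · have h5 : (x + y) ^ e ≤ P ^ e := Real.rpow_le_rpow_of_nonpos hP0 (by linarith) h.le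
      have h6 : (1 : ℝ) ≤ (2 + S) ^ |e| := Real.one_le_rpow (by linarith) (abs_nonneg _)
      have h7 : 0 < P ^ e := by positivity
      nlinarith
  | succ s ih =>
    intro e
    obtain ⟨C, hC, h⟩ := ih (e - 1)
    refine ⟨|e| * C * S, by positivity, fun P x y hP h1 h2 h3 h4 => ?_⟩
    have hP0 : 0 < P := by linarith
    have hx0 : 0 < x := by linarith
    have h0 : rem (s + 1) e x 0 = 0 := by
      unfold rem
      rw [sum_range_succ']
      simp [fall]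
    have hmv := Convex.norm_image_sub_le_of_norm_hasDerivWithin_le (f := rem (s + 1) e x)
      (f' := fun y => e * rem s (e - 1) x y) (C := |e| * C * P ^ (e - (s + 1 : ℕ))) (s := Set.Icc 0 S)
      (x := 0) (y := y)
      (fun y hy => (rem_der s e x y hx0 hy.1).hasDerivWithinAt)
      (fun y hy => by
        rw [Real.norm_eq_abs, abs_mul, mul_assoc]
        apply mul_le_mul_of_nonneg_left _ (abs_nonneg _)
        have := h P x y hP h1 h2 hy.1 hy.2
        have e4 : e - 1 - (s : ℝ) = e - ((s + 1 : ℕ) : ℝ) := by push_cast; ring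
        rw [e4] at this
        exact this)
      (convex_Icc 0 S) ⟨le_rfl, hS⟩ ⟨h3, h4⟩
    rw [h0, sub_zero, sub_zero, Real.norm_eq_abs, Real.norm_eq_abs, abs_of_nonneg h3] at hmv
    refine hmv.trans ?_
    calc |e| * C * P ^ (e - (s + 1 : ℕ)) * y ≤ |e| * C * P ^ (e - (s + 1 : ℕ)) * S := by gcongr
      _ = _ := by ring

theorem shift_close {s : ℕ} (ρ : ℝ) (Km : ℕ) : ∃ C : ℝ, 0 ≤ C ∧ ∀ (h : Fin s → ℝ) (B : ℝ),
    0 ≤ B → (∀ j, |h j| ≤ B) → ∀ k, k ≤ Km → ∀ P x : ℝ, 1 ≤ P → P ≤ x → x ≤ 2 * P →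
    |sh ρ h k x - ph (fun i : Fin s => ρ - (i : ℕ)) (fun i : Fin s =>
      fall ρ i / ((i : ℕ).factorial : ℝ) * ∑ j : Fin s, h j * ((j : ℕ) : ℝ) ^ (i : ℕ)) k x| ≤
      C * B * P ^ (ρ - k - s) := by
  classical
  choose Cr hCr hrem using fun k : ℕ => rem_bound (s : ℝ) (by positivity) s (ρ - k)
  refine ⟨∑ k ∈ range (Km + 1), s * |fall ρ k| * Cr k,
    sum_nonneg fun k _ => mul_nonneg (by positivity) (hCr k), ?_⟩
  intro h B hBn hB k hk P x hP h1 h2
  have hP0 : 0 < P := by linarith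
  have hx0 : 0 < x := by linarith
  have e1 : sh ρ h k x - ph (fun i : Fin s => ρ - (i : ℕ)) (fun i : Fin s =>
      fall ρ i / ((i : ℕ).factorial : ℝ) * ∑ j : Fin s, h j * ((j : ℕ) : ℝ) ^ (i : ℕ)) k x =
      ∑ j : Fin s, h j * (fall ρ k * rem s (ρ - k) x (j : ℕ)) := by
    unfold sh ph rem
    have e2 : ∀ i : Fin s, (fall ρ i / ((i : ℕ).factorial : ℝ) * ∑ j : Fin s, h j * ((j : ℕ) : ℝ) ^ (i : ℕ)) *
        (fall (ρ - (i : ℕ)) k * x ^ (ρ - (i : ℕ) - k)) =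
        ∑ j : Fin s, h j * (fall ρ k * (fall (ρ - k) i / ((i : ℕ).factorial : ℝ) * ((j : ℕ) : ℝ) ^ (i : ℕ) *
          x ^ (ρ - k - (i : ℕ)))) := by
      intro i
      rw [mul_sum, sum_mul]
      apply sum_congr rfl
      intro j _
      have e3 : fall ρ i * fall (ρ - (i : ℕ)) k = fall ρ k * fall (ρ - k) i := by
        rw [← fall_add, ← fall_add, add_comm]
      have e4 : ρ - (i : ℕ) - (k : ℝ) = ρ - k - (i : ℕ) := by ring
      rw [e4]
      calc fall ρ i / ((i : ℕ).factorial : ℝ) * (h j * ((j : ℕ) : ℝ) ^ (i : ℕ)) *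
            (fall (ρ - (i : ℕ)) k * x ^ (ρ - k - (i : ℕ)))
          = (fall ρ i * fall (ρ - (i : ℕ)) k) * (h j * ((j : ℕ) : ℝ) ^ (i : ℕ) *
            x ^ (ρ - k - (i : ℕ)) / ((i : ℕ).factorial : ℝ)) := by ring
        _ = _ := by rw [e3]; ring
    simp only [e2]
    rw [sum_comm, ← sum_sub_distrib]
    apply sum_congr rfl
    intro j _
    rw [← mul_sum, ← mul_sum, ← mul_sub, ← mul_sub]
    congr 3
    exact (Fin.sum_univ_eq_sum_range (fun i : ℕ => fall (ρ - k) i / ((i : ℕ).factorial : ℝ) *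
      ((j : ℕ) : ℝ) ^ (i : ℕ) * x ^ (ρ - k - (i : ℕ))) s)
  rw [e1]
  have hB0 : ∀ j : Fin s, 0 ≤ B := fun j => (abs_nonneg _).trans (hB j)
  calc |∑ j : Fin s, h j * (fall ρ k * rem s (ρ - k) x (j : ℕ))|
      ≤ ∑ j : Fin s, |h j * (fall ρ k * rem s (ρ - k) x (j : ℕ))| := abs_sum_le_sum_abs _ _
    _ ≤ ∑ _j : Fin s, (|fall ρ k| * Cr k) * B * P ^ (ρ - k - s) := by
        apply sum_le_sum
        intro j _
        have hj : ((j : ℕ) : ℝ) ≤ s := by exact_mod_cast j.2.le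
        have h3 := hrem k P x (j : ℕ) hP h1 h2 (by positivity) hj
        have hB1 := hB0 j
        have hC1 := hCr k
        rw [abs_mul, abs_mul]
        calc |h j| * (|fall ρ k| * |rem s (ρ - k) x (j : ℕ)|)
            ≤ B * (|fall ρ k| * (Cr k * P ^ (ρ - k - s))) := by
              have := hB j
              gcongr
          _ = _ := by ring
    _ = (s * |fall ρ k| * Cr k) * (B * P ^ (ρ - k - s)) := by
        rw [sum_const, card_univ, Fintype.card_fin, nsmul_eq_mul]; ring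
    _ ≤ (∑ k ∈ range (Km + 1), s * |fall ρ k| * Cr k) * (B * P ^ (ρ - k - s)) := by
        apply mul_le_mul_of_nonneg_right _ (by positivity)
        exact single_le_sum (f := fun k => (s : ℝ) * |fall ρ k| * Cr k)
          (fun k _ => mul_nonneg (by positivity) (hCr k)) (mem_range.2 (by omega))
    _ = _ := by ring

/-- the coefficients are controlled by the moments -/
theorem vander (s : ℕ) : ∃ C : ℝ, 0 < C ∧ ∀ (h : Fin s → ℝ) (B : ℝ),
    (∀ i : Fin s, |∑ j : Fin s, h j * ((j : ℕ) : ℝ) ^ (i : ℕ)| ≤ B) → ∀ j, |h j| ≤ C * B := by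
  classical
  set V : Matrix (Fin s) (Fin s) ℝ := Matrix.vandermonde (fun j : Fin s => ((j : ℕ) : ℝ)) with hV
  have hdet0 : V.det ≠ 0 := by
    rw [hV]
    apply Matrix.det_vandermonde_ne_zero_iff.2
    intro j j' h
    have h' : ((j : ℕ) : ℝ) = ((j' : ℕ) : ℝ) := h
    exact Fin.ext (by exact_mod_cast h')
  set W := V⁻¹ with hW
  have hVW : V * W = 1 := Matrix.mul_nonsing_inv V (isUnit_iff_ne_zero.2 hdet0)
  refine ⟨1 + ∑ i, ∑ j, |W i j|, by
    have : 0 ≤ ∑ i, ∑ j, |W i j| := sum_nonneg fun _ _ => sum_nonneg fun _ _ => abs_nonneg _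
    linarith, ?_⟩
  intro h B hB j
  have hB0 : 0 ≤ B := (abs_nonneg _).trans (hB j)
  have h1 : h j = ∑ i : Fin s, (∑ j' : Fin s, h j' * ((j' : ℕ) : ℝ) ^ (i : ℕ)) * W i j := by
    have h2 : ∑ i : Fin s, (∑ j' : Fin s, h j' * ((j' : ℕ) : ℝ) ^ (i : ℕ)) * W i j =
        ∑ j', h j' * (V * W) j' j := by
      simp only [Matrix.mul_apply, mul_sum, sum_mul]
      rw [sum_comm]
      apply sum_congr rfl
      intro j' _
      apply sum_congr rfl
      intro i _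
      rw [hV, Matrix.vandermonde_apply]
      ring
    rw [h2, hVW]
    simp [Matrix.one_apply]
  rw [h1]
  calc |∑ i : Fin s, (∑ j' : Fin s, h j' * ((j' : ℕ) : ℝ) ^ (i : ℕ)) * W i j|
      ≤ ∑ i : Fin s, |(∑ j' : Fin s, h j' * ((j' : ℕ) : ℝ) ^ (i : ℕ)) * W i j| := abs_sum_le_sum_abs _ _
    _ ≤ ∑ i : Fin s, B * |W i j| := by
        apply sum_le_sum
        intro i _
        rw [abs_mul]
        exact mul_le_mul_of_nonneg_right (hB i) (abs_nonneg _)
    _ = B * ∑ i : Fin s, |W i j| := by rw [mul_sum]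
    _ ≤ B * (1 + ∑ i : Fin s, ∑ j : Fin s, |W i j|) := by
        apply mul_le_mul_of_nonneg_left _ hB0
        have : ∑ i : Fin s, |W i j| ≤ ∑ i : Fin s, ∑ j : Fin s, |W i j| := sum_le_sum fun i _ =>
          single_le_sum (f := fun j => |W i j|) (fun _ _ => abs_nonneg _) (mem_univ j)
        linarith
    _ = _ := by ring

/-- **Exponential sums** with the phases `∑ h_j (x + j)^ρ`. -/
theorem expsum_shift {s : ℕ} (ρ : ℝ) (hnat : ∀ n : ℕ, ρ ≠ n) (hρ : 0 < ρ) (c0 : ℝ) (hc0 : 0 < c0)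
    (A : ℝ) (hA : 0 ≤ A) :
    ∃ σ : ℝ, 0 < σ ∧ ∃ C : ℝ, 1 ≤ C ∧ ∀ (P M : ℕ) (h : Fin s → ℝ), 1 ≤ P → M ≤ P →
      (∃ i : Fin s, c0 * (P : ℝ) ^ (s : ℝ) ≤
        (P : ℝ) * |∑ j : Fin s, h j * ((j : ℕ) : ℝ) ^ (i : ℕ)|) →
      (∀ j, |h j| ≤ (P : ℝ) ^ A) →
      ‖∑ n ∈ range M, ee (sh ρ h 0 ((P : ℝ) + 1 + n))‖ ≤ C * (P : ℝ) ^ (1 - σ) := by
  classical
  rcases isEmpty_or_nonempty (Fin s) with hemp | hne
  · refine ⟨1, one_pos, 1, le_rfl, fun P M h _ _ hh _ => ?_⟩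
    obtain ⟨i, _⟩ := hh
    exact hemp.elim i
  set ρv : Fin s → ℝ := fun i => ρ - (i : ℕ) with hρv
  have hinj : Function.Injective ρv := by
    intro i i' h
    simp only [hρv] at h
    exact Fin.ext (by exact_mod_cast (by linarith : ((i : ℕ) : ℝ) = (i' : ℕ)))
  have hnat' : ∀ i, ∀ n : ℕ, ρv i ≠ n := by
    intro i n h
    simp only [hρv] at h
    apply hnat (n + (i : ℕ))
    push_cast
    linarith
  -- the constants `fall ρ i / i!`
  set g : Fin s → ℝ := fun i => fall ρ i / ((i : ℕ).factorial : ℝ) with hg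
  have hg0 : ∀ i, 0 < |g i| := fun i => abs_pos.2 (div_ne_zero (fall_ne ρ hnat _) (by positivity))
  obtain ⟨ia, hia⟩ := Finite.exists_min (fun i => |g i|)
  obtain ⟨ib, hib⟩ := Finite.exists_max (fun i => |g i|)
  obtain ⟨Cv, hCv, hvan⟩ := vander s
  obtain ⟨σ, hσ, C, hC, δ, hδ, Km, hmain⟩ := expsum_gen ρv hinj hnat' (ρ / 2) (by positivity)
    (A + ρ + 1) (by positivity)
  obtain ⟨Ct, hCt, hclose⟩ := shift_close (s := s) ρ Km
  -- large `P`
  set G : ℝ := |g ib| * ∑ i : Fin s, ∑ j : Fin s, ((j : ℕ) : ℝ) ^ (i : ℕ) with hG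
  obtain ⟨P0, hP0⟩ : ∃ P0 : ℕ, ∀ P : ℕ, P0 ≤ P → G ≤ P ∧
      Ct * (Cv / |g ia|) / δ ≤ P ∧ (P : ℝ) ^ (-(ρ / 2)) ≤ |g ia| * c0 := by
    have t1 : Filter.Tendsto (fun P : ℕ => (P : ℝ) ^ (-(ρ / 2))) Filter.atTop (nhds 0) :=
      (tendsto_rpow_neg_atTop (by positivity)).comp tendsto_natCast_atTop_atTop
    have t2 : Filter.Tendsto (fun P : ℕ => (P : ℝ)) Filter.atTop Filter.atTop :=
      tendsto_natCast_atTop_atTop
    have hp : 0 < |g ia| * c0 := mul_pos (hg0 ia) hc0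
    obtain ⟨P0, hP0⟩ := Filter.eventually_atTop.1
      ((t2.eventually_ge_atTop G).and ((t2.eventually_ge_atTop (Ct * (Cv / |g ia|) / δ)).and
        (t1.eventually (ge_mem_nhds hp))))
    exact ⟨P0, fun P hP => hP0 P hP⟩
  refine ⟨min σ 1, lt_min hσ one_pos, C + P0, by
    have : (0 : ℝ) ≤ P0 := by positivity
    linarith, ?_⟩
  intro P M h hP hM hlow hup
  have hP1 : (1 : ℝ) ≤ P := by exact_mod_cast hP
  have hPpos : (0 : ℝ) < P := by linarith
  have hpow1 : (1 : ℝ) ≤ (P : ℝ) ^ (1 - min σ 1) :=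
    Real.one_le_rpow hP1 (by linarith [min_le_right σ 1])
  have hP00 : (0 : ℝ) ≤ P0 := by positivity
  rcases lt_or_ge P P0 with hsmall | hbig
  · have h1 := triv_bound M (fun n : ℕ => sh ρ h 0 ((P : ℝ) + 1 + n))
    have h2 : (M : ℝ) ≤ P0 := by exact_mod_cast (by omega : M ≤ P0)
    calc _ ≤ (M : ℝ) := h1
      _ ≤ (C + P0) * 1 := by linarith
      _ ≤ _ := mul_le_mul_of_nonneg_left hpow1 (by positivity)
  obtain ⟨hPG, hPδ, hPρ⟩ := hP0 P hbig
  set v : Fin s → ℝ := fun i => ∑ j : Fin s, h j * ((j : ℕ) : ℝ) ^ (i : ℕ) with hv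
  set c : Fin s → ℝ := fun i => g i * v i with hc
  obtain ⟨im, him⟩ := Finite.exists_max (fun i => |c i| * (P : ℝ) ^ (ρv i))
  set μ : ℝ := |c im| * (P : ℝ) ^ (ρv im) with hμ
  have hfin : ‖∑ n ∈ range M, ee (sh ρ h 0 ((P : ℝ) + 1 + n))‖ ≤ C * (P : ℝ) ^ (1 - σ) := by
    refine hmain P M c (sh ρ h) μ hP hM ⟨im, rfl⟩ him ?_ ?_ (fun k x hx => sh_der ρ h hnat k x hx) ?_
    · -- lower bound
      obtain ⟨i, hi⟩ := hlow
      refine le_trans ?_ (him i)
      have h1 : c0 * (P : ℝ) ^ ((s : ℝ) - 1) ≤ |v i| := by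
        rw [Real.rpow_sub_one hPpos.ne', ← mul_div_assoc, div_le_iff₀ hPpos]
        linarith
      have h2 : |g ia| * (c0 * (P : ℝ) ^ ((s : ℝ) - 1)) ≤ |c i| := by
        rw [hc]
        simp only
        rw [abs_mul]
        exact mul_le_mul (hia i) h1 (by positivity) (abs_nonneg _)
      have h3 : (P : ℝ) ^ (ρ - ((s : ℝ) - 1)) ≤ (P : ℝ) ^ (ρv i) := by
        apply Real.rpow_le_rpow_of_exponent_le hP1
        simp only [hρv]
        have : ((i : ℕ) : ℝ) + 1 ≤ s := by exact_mod_cast i.2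
        linarith
      calc (P : ℝ) ^ (ρ / 2) = (P : ℝ) ^ (-(ρ / 2)) * (P : ℝ) ^ ρ := by
            rw [← Real.rpow_add hPpos]; congr 1; ring
        _ ≤ (|g ia| * c0) * (P : ℝ) ^ ρ := by gcongr
        _ = (|g ia| * (c0 * (P : ℝ) ^ ((s : ℝ) - 1))) * (P : ℝ) ^ (ρ - ((s : ℝ) - 1)) := by
            have : (P : ℝ) ^ ρ = (P : ℝ) ^ ((s : ℝ) - 1) * (P : ℝ) ^ (ρ - ((s : ℝ) - 1)) := by
              rw [← Real.rpow_add hPpos]; congr 1; ring
            rw [this]; ring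
        _ ≤ _ := mul_le_mul h2 h3 (by positivity) (abs_nonneg _)
    · -- upper bound
      have h1 : |v im| ≤ (∑ i : Fin s, ∑ j : Fin s, ((j : ℕ) : ℝ) ^ (i : ℕ)) * (P : ℝ) ^ A := by
        rw [hv]
        simp only
        calc |∑ j : Fin s, h j * ((j : ℕ) : ℝ) ^ (im : ℕ)|
            ≤ ∑ j : Fin s, |h j * ((j : ℕ) : ℝ) ^ (im : ℕ)| := abs_sum_le_sum_abs _ _
          _ ≤ ∑ j : Fin s, ((j : ℕ) : ℝ) ^ (im : ℕ) * (P : ℝ) ^ A := by
              apply sum_le_sum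
              intro j _
              rw [abs_mul, abs_of_nonneg (show 0 ≤ ((j : ℕ) : ℝ) ^ (im : ℕ) by positivity), mul_comm]
              exact mul_le_mul_of_nonneg_left (hup j) (by positivity)
          _ = (∑ j : Fin s, ((j : ℕ) : ℝ) ^ (im : ℕ)) * (P : ℝ) ^ A := by rw [sum_mul]
          _ ≤ _ := by
              apply mul_le_mul_of_nonneg_right _ (by positivity)
              exact single_le_sum (f := fun i : Fin s => ∑ j : Fin s, ((j : ℕ) : ℝ) ^ (i : ℕ))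
                (fun i _ => sum_nonneg fun j _ => by positivity) (mem_univ im)
      have h2 : |c im| ≤ P * (P : ℝ) ^ A := by
        rw [hc]
        simp only
        rw [abs_mul]
        calc |g im| * |v im| ≤ |g ib| * ((∑ i : Fin s, ∑ j : Fin s, ((j : ℕ) : ℝ) ^ (i : ℕ)) * (P : ℝ) ^ A) :=
              mul_le_mul (hib im) h1 (abs_nonneg _) (abs_nonneg _)
          _ = G * (P : ℝ) ^ A := by rw [hG]; ring
          _ ≤ _ := mul_le_mul_of_nonneg_right hPG (by positivity)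
      have h3 : (P : ℝ) ^ (ρv im) ≤ (P : ℝ) ^ ρ := by
        apply Real.rpow_le_rpow_of_exponent_le hP1
        simp only [hρv]
        have : (0 : ℝ) ≤ ((im : ℕ) : ℝ) := by positivity
        linarith
      rw [hμ]
      calc |c im| * (P : ℝ) ^ (ρv im) ≤ (P * (P : ℝ) ^ A) * (P : ℝ) ^ ρ :=
            mul_le_mul h2 h3 (by positivity) (by positivity)
        _ = (P : ℝ) ^ (A + ρ + 1) := by
            rw [Real.rpow_add hPpos, Real.rpow_add hPpos, Real.rpow_one]; ring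
    · -- closeness
      intro k hk x hx1 hx2
      set Bh : ℝ := Cv / |g ia| * (μ * (P : ℝ) ^ ((s : ℝ) - 1 - ρ)) with hBh
      have hμ0 : 0 ≤ μ := by rw [hμ]; positivity
      have hgia := hg0 ia
      have hBh0 : 0 ≤ Bh := by rw [hBh]; positivity
      have hvB : ∀ i, |v i| ≤ (1 / |g ia|) * (μ * (P : ℝ) ^ ((s : ℝ) - 1 - ρ)) := by
        intro i
        have h1 : |g ia| * |v i| ≤ |c i| := by
          rw [hc]; simp only; rw [abs_mul]
          exact mul_le_mul_of_nonneg_right (hia i) (abs_nonneg _)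
        have h2 : |c i| ≤ μ * (P : ℝ) ^ ((s : ℝ) - 1 - ρ) := by
          have h3 := him i
          have h4 : |c i| = |c i| * (P : ℝ) ^ (ρv i) * (P : ℝ) ^ (-(ρv i)) := by
            rw [mul_assoc, ← Real.rpow_add hPpos]
            simp
          rw [h4]
          apply mul_le_mul h3 _ (by positivity) hμ0
          apply Real.rpow_le_rpow_of_exponent_le hP1
          simp only [hρv]
          have : ((i : ℕ) : ℝ) + 1 ≤ s := by exact_mod_cast i.2
          linarith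
        rw [one_div, inv_mul_eq_div, le_div_iff₀ hgia]
        linarith
      have hhB : ∀ j, |h j| ≤ Bh := by
        intro j
        refine (hvan h _ hvB j).trans (le_of_eq ?_)
        rw [hBh]; ring
      refine (hclose h Bh hBh0 hhB k hk P x hP1 hx1 hx2).trans ?_
      have e1 : (P : ℝ) ^ (ρ - k - s) = (P : ℝ) ^ (-((s : ℝ) - 1 - ρ)) * ((P : ℝ) ^ (-(k : ℝ)) * (P : ℝ)⁻¹) := by
        rw [← Real.rpow_neg_one, ← Real.rpow_add hPpos, ← Real.rpow_add hPpos]; congr 1; ring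
      have e2 : (P : ℝ) ^ ((s : ℝ) - 1 - ρ) * (P : ℝ) ^ (-((s : ℝ) - 1 - ρ)) = 1 := by
        rw [← Real.rpow_add hPpos]; simp
      have e3 : Ct * Bh * (P : ℝ) ^ (ρ - k - s) = (Ct * (Cv / |g ia|) * (P : ℝ)⁻¹) * (μ * (P : ℝ) ^ (-(k : ℝ))) := by
        rw [e1, hBh]
        calc Ct * (Cv / |g ia| * (μ * (P : ℝ) ^ ((s : ℝ) - 1 - ρ))) *
              ((P : ℝ) ^ (-((s : ℝ) - 1 - ρ)) * ((P : ℝ) ^ (-(k : ℝ)) * (P : ℝ)⁻¹))
            = ((P : ℝ) ^ ((s : ℝ) - 1 - ρ) * (P : ℝ) ^ (-((s : ℝ) - 1 - ρ))) *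
              ((Ct * (Cv / |g ia|) * (P : ℝ)⁻¹) * (μ * (P : ℝ) ^ (-(k : ℝ)))) := by ring
          _ = _ := by rw [e2, one_mul]
      rw [e3]
      apply mul_le_mul_of_nonneg_right _ (by positivity)
      rw [← div_eq_mul_inv, div_le_iff₀ hPpos]
      rw [div_le_iff₀ hδ] at hPδ
      linarith
  refine hfin.trans ?_
  exact mul_le_mul (by linarith) (Real.rpow_le_rpow_of_exponent_le hP1 (by linarith [min_le_left σ 1]))
    (by positivity) (by positivity)

end Pool.Agent.TH373.DR3
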