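import Pool.Agent.TH373.DR.Vdc
import Pool.Agent.TH373.DR.Count

set_option autoImplicit false

/-!
Derivative tests for exponential sums without a sign condition on the next derivative, in the full
range `N^(-k+η) ≤ λ ≤ N^(-η)`.
-/

namespace Pool.Agent.TH373.DR3

open Finset Pool.Agent.Helper153.Vdc Pool.Agent.TH373.DR

/-- the `k`-th differences of `g` on `[0,M)` lie in `[lam, A lam]` -/
def CondK (k : ℕ) (g : ℕ → ℝ) (M : ℕ) (lam A : ℝ) : Prop :=
  ∀ n, n + k < M → lam ≤ dd k g n ∧ dd k g n ≤ A * lam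

theorem cut (p : ℕ → Prop) (M : ℕ) (hp : ∀ n, n + 1 < M → p (n + 1) → p n) :
    ∃ m ≤ M, ∀ n < M, (p n ↔ n < m) := by
  classical
  by_cases h : ∀ n < M, p n
  · exact ⟨M, le_rfl, fun n hn => ⟨fun _ => hn, fun _ => h n hn⟩⟩
  · push Not at h
    have hex : ∃ n, n < M ∧ ¬ p n := h
    set m := Nat.find hex with hm
    obtain ⟨h1, h2⟩ := Nat.find_spec hex
    refine ⟨m, h1.le, fun n hn => ⟨fun hpn => ?_, fun hlt => ?_⟩⟩
    · by_contra hcon
      push Not at hcon
      have key : ∀ j, m + j < M → ¬ p (m + j) := by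
        intro j
        induction j with
        | zero => intro _; exact h2
        | succ j ih =>
          intro hj hpj
          exact ih (by omega) (hp (m + j) (by omega) hpj)
      obtain ⟨j, rfl⟩ := Nat.exists_eq_add_of_le hcon
      exact key j hn hpn
    · by_contra hcon
      exact Nat.find_min hex hlt ⟨hn, hcon⟩

theorem dd_two (g : ℕ → ℝ) (n : ℕ) : dd 2 g n = (g (n + 2) - g (n + 1)) - (g (n + 1) - g n) := rfl

theorem incr {g : ℕ → ℝ} {M : ℕ} {lam : ℝ} (h : ∀ n, n + 2 < M → lam ≤ dd 2 g n) (a j : ℕ)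
    (hj : a + j + 1 < M) : g (a + 1) - g a + j * lam ≤ g (a + j + 1) - g (a + j) := by
  induction j with
  | zero => simp
  | succ j ih =>
    have h1 := ih (by omega)
    have h2 := h (a + j) (by omega)
    rw [dd_two] at h2
    push_cast
    have e1 : a + (j + 1) = a + j + 1 := by ring
    have e2 : a + j + 1 + 1 = a + j + 2 := by ring
    rw [e1, e2]
    linarith

theorem ee_norm_sum_le (M : ℕ) (g : ℕ → ℝ) : ‖∑ n ∈ range M, ee (g n)‖ ≤ M := triv_bound M g

/-- Kusmin–Landau for differences in `[1/2, 1-θ]` modulo an integer -/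
theorem kl_up (M : ℕ) (g : ℕ → ℝ) (θ : ℝ) (z : ℤ) (hθ : 0 < θ) (hθ2 : θ ≤ 1 / 2)
    (h1 : ∀ n, n + 1 < M → z + 1 / 2 ≤ g (n + 1) - g n ∧ g (n + 1) - g n ≤ z + 1 - θ)
    (h2 : ∀ n, n + 2 < M → g (n + 1) - g n ≤ g (n + 2) - g (n + 1)) :
    ‖∑ n ∈ range M, ee (g n)‖ ≤ 2 / θ := by
  have e1 : ∑ n ∈ range M, ee (g n) = ∑ n ∈ range M, ee (g (M - 1 - n)) :=
    (Finset.sum_range_reflect (fun n => ee (g n)) M).symm
  have e2 : ∀ n : ℕ, ee (g (M - 1 - n)) = ee (g (M - 1 - n) + ((n * (z + 1) : ℤ) : ℝ)) := by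
    intro n
    rw [Pool.Agent.Helper153.Vdc.ee_add, ee_int, mul_one]
  rw [e1]
  simp only [e2]
  apply kusmin_landau M (fun n : ℕ => g (M - 1 - n) + ((n * (z + 1) : ℤ) : ℝ)) θ hθ hθ2
  · intro n hn
    have h := h1 (M - 1 - (n + 1)) (by omega)
    have e3 : M - 1 - (n + 1) + 1 = M - 1 - n := by omega
    rw [e3] at h
    push_cast
    constructor <;> linarith [h.1, h.2]
  · intro n hn
    have h := h2 (M - 1 - (n + 2)) (by omega)
    have e3 : M - 1 - (n + 2) + 1 = M - 1 - (n + 1) := by omega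
    have e4 : M - 1 - (n + 2) + 2 = M - 1 - n := by omega
    rw [e3, e4] at h
    push_cast
    linarith

/-- Kusmin–Landau for differences in `[θ, 1/2]` modulo an integer -/
theorem kl_low (M : ℕ) (g : ℕ → ℝ) (θ : ℝ) (z : ℤ) (hθ : 0 < θ) (hθ2 : θ ≤ 1 / 2)
    (h1 : ∀ n, n + 1 < M → z + θ ≤ g (n + 1) - g n ∧ g (n + 1) - g n ≤ z + 1 / 2)
    (h2 : ∀ n, n + 2 < M → g (n + 1) - g n ≤ g (n + 2) - g (n + 1)) :
    ‖∑ n ∈ range M, ee (g n)‖ ≤ 2 / θ := by
  have e2 : ∀ n : ℕ, ee (g n) = ee (g n + ((n * (-z) : ℤ) : ℝ)) := by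
    intro n
    rw [Pool.Agent.Helper153.Vdc.ee_add, ee_int, mul_one]
  simp only [e2]
  apply kusmin_landau M (fun n : ℕ => g n + ((n * (-z) : ℤ) : ℝ)) θ hθ hθ2
  · intro n hn
    have h := h1 n hn
    push_cast
    constructor <;> linarith [h.1, h.2]
  · intro n hn
    have h := h2 n hn
    push_cast
    linarith

/-- the number of differences in a short interval -/
theorem few {g : ℕ → ℝ} {M : ℕ} {lam θ : ℝ} (hlam : 0 < lam) (hθ : 0 < θ)
    (h : ∀ n, n + 2 < M → lam ≤ dd 2 g n) (a b : ℕ) (hab : a ≤ b) (hb : b < M ∨ b = 0) (w : ℝ)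
    (h1 : ∀ n, a ≤ n → n < b → w ≤ g (n + 1) - g n ∧ g (n + 1) - g n ≤ w + θ) :
    ((b - a : ℕ) : ℝ) ≤ θ / lam + 1 := by
  have hpos : 0 ≤ θ / lam := by positivity
  rcases Nat.eq_or_lt_of_le hab with rfl | hlt
  · simp; linarith
  · have hbM : b < M := by rcases hb with h | h <;> omega
    obtain ⟨j, rfl⟩ : ∃ j, b = a + j + 1 := ⟨b - a - 1, by omega⟩
    have h2 := incr h a j hbM
    have h3 := (h1 a le_rfl (by omega)).1
    have h4 := (h1 (a + j) (by omega) (by omega)).2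
    have e1 : a + j + 1 - a = j + 1 := by omega
    rw [e1]
    push_cast
    have h5 : (j : ℝ) * lam ≤ θ := by linarith
    have : (j : ℝ) ≤ θ / lam := by rw [le_div_iff₀ hlam]; exact h5
    linarith

theorem sum_split (M m : ℕ) (hm : m ≤ M) (z : ℕ → ℂ) :
    ∑ n ∈ range M, z n = ∑ n ∈ range m, z n + ∑ n ∈ range (M - m), z (m + n) := by
  obtain ⟨j, rfl⟩ := Nat.exists_eq_add_of_le hm
  rw [Nat.add_sub_cancel_left, sum_range_add]

/-- one block -/
theorem block {lam θ : ℝ} (hlam : 0 < lam) (hθ : 0 < θ) (hθ2 : θ ≤ 1 / 2) (M : ℕ) (g : ℕ → ℝ)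
    (z : ℤ) (h : ∀ n, n + 2 < M → lam ≤ dd 2 g n)
    (h1 : ∀ n, n + 1 < M → (z : ℝ) ≤ g (n + 1) - g n ∧ g (n + 1) - g n < z + 1) :
    ‖∑ n ∈ range M, ee (g n)‖ ≤ 2 * (θ / lam + 1) + 4 / θ + 1 := by
  have hmono : ∀ n, n + 2 < M → g (n + 1) - g n ≤ g (n + 2) - g (n + 1) := by
    intro n hn
    have := h n hn
    rw [dd_two] at this
    linarith
  obtain ⟨m1, hm1, hp1⟩ := cut (fun n => g (n + 1) - g n < z + θ) (M - 1) (fun n hn hp => by
    have := hmono n (by omega)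
    try simp only at hp ⊢
    have e : n + 1 + 1 = n + 2 := rfl
    rw [e] at hp
    linarith)
  obtain ⟨m2, hm2, hp2⟩ := cut (fun n => g (n + 1) - g n < z + 1 / 2) (M - 1) (fun n hn hp => by
    have := hmono n (by omega)
    try simp only at hp ⊢
    have e : n + 1 + 1 = n + 2 := rfl
    rw [e] at hp
    linarith)
  obtain ⟨m3, hm3, hp3⟩ := cut (fun n => g (n + 1) - g n < z + 1 - θ) (M - 1) (fun n hn hp => by
    have := hmono n (by omega)
    try simp only at hp ⊢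
    have e : n + 1 + 1 = n + 2 := rfl
    rw [e] at hp
    linarith)
  have h12 : m1 ≤ m2 := by
    by_contra hcon
    push Not at hcon
    have a1 := (hp1 m2 (by omega)).2 hcon
    have a2 := mt (hp2 m2 (by omega)).1 (lt_irrefl _)
    try simp only at a1 a2
    linarith
  have h23 : m2 ≤ m3 := by
    by_contra hcon
    push Not at hcon
    have a1 := (hp2 m3 (by omega)).2 hcon
    have a2 := mt (hp3 m3 (by omega)).1 (lt_irrefl _)
    try simp only at a1 a2
    linarith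
  have s1 := sum_split M m1 (by omega) (fun n => ee (g n))
  have s2 := sum_split (M - m1) (m2 - m1) (by omega) (fun n => ee (g (m1 + n)))
  have s3 := sum_split (M - m1 - (m2 - m1)) (m3 - m2) (by omega) (fun n => ee (g (m1 + (m2 - m1 + n))))
  rw [s1, s2, s3]
  have b1 : ‖∑ n ∈ range m1, ee (g n)‖ ≤ θ / lam + 1 := by
    refine (triv_bound m1 g).trans ?_
    have := few hlam hθ h 0 m1 (by omega) (by omega) z (fun n _ hn => ⟨(h1 n (by omega)).1, by
      have := (hp1 n (by omega)).2 hn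
      try simp only at this
      linarith⟩)
    simpa using this
  have b2 : ‖∑ n ∈ range (m2 - m1), ee (g (m1 + n))‖ ≤ 2 / θ := by
    apply kl_low (m2 - m1) (fun n => g (m1 + n)) θ z hθ hθ2
    · intro n hn
      have a1 := mt (hp1 (m1 + n) (by omega)).1 (by omega)
      have a2 := (hp2 (m1 + n) (by omega)).2 (by omega)
      simp only [not_lt] at a1 a2
      exact ⟨a1, a2.le⟩
    · intro n hn
      exact hmono (m1 + n) (by omega)
  have b3 : ‖∑ n ∈ range (m3 - m2), ee (g (m1 + (m2 - m1 + n)))‖ ≤ 2 / θ := by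
    have e : ∀ n, m1 + (m2 - m1 + n) = m2 + n := by intro n; omega
    simp only [e]
    apply kl_up (m3 - m2) (fun n => g (m2 + n)) θ z hθ hθ2
    · intro n hn
      have a1 := mt (hp2 (m2 + n) (by omega)).1 (by omega)
      have a2 := (hp3 (m2 + n) (by omega)).2 (by omega)
      simp only [not_lt] at a1 a2
      exact ⟨a1, a2.le⟩
    · intro n hn
      exact hmono (m2 + n) (by omega)
  have b4 : ‖∑ n ∈ range (M - m1 - (m2 - m1) - (m3 - m2)),
      ee (g (m1 + (m2 - m1 + (m3 - m2 + n))))‖ ≤ θ / lam + 1 + 1 := by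
    refine (triv_bound _ (fun n => g (m1 + (m2 - m1 + (m3 - m2 + n))))).trans ?_
    have := few hlam hθ h m3 (M - 1) (by omega) (by omega) (z + 1 - θ) (fun n hn1 hn => ⟨by
      have := mt (hp3 n (by omega)).1 (by omega)
      simp only [not_lt] at this
      exact this, by
      have := (h1 n (by omega)).2
      linarith⟩)
    have e : (M - m1 - (m2 - m1) - (m3 - m2) : ℕ) ≤ (M - 1 - m3) + 1 := by omega
    have e' : ((M - m1 - (m2 - m1) - (m3 - m2) : ℕ) : ℝ) ≤ ((M - 1 - m3 : ℕ) : ℝ) + 1 := by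
      exact_mod_cast e
    linarith
  have t1 := norm_add_le (∑ n ∈ range m1, ee (g n)) (∑ n ∈ range (m2 - m1), ee (g (m1 + n)) +
    (∑ n ∈ range (m3 - m2), ee (g (m1 + (m2 - m1 + n))) +
      ∑ n ∈ range (M - m1 - (m2 - m1) - (m3 - m2)), ee (g (m1 + (m2 - m1 + (m3 - m2 + n))))))
  have t2 := norm_add_le (∑ n ∈ range (m2 - m1), ee (g (m1 + n)))
    (∑ n ∈ range (m3 - m2), ee (g (m1 + (m2 - m1 + n))) +
      ∑ n ∈ range (M - m1 - (m2 - m1) - (m3 - m2)), ee (g (m1 + (m2 - m1 + (m3 - m2 + n)))))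
  have t3 := norm_add_le (∑ n ∈ range (m3 - m2), ee (g (m1 + (m2 - m1 + n))))
      (∑ n ∈ range (M - m1 - (m2 - m1) - (m3 - m2)), ee (g (m1 + (m2 - m1 + (m3 - m2 + n)))))
  have e4 : 4 / θ = 2 / θ + 2 / θ := by ring
  rw [e4]
  linarith

/-- several blocks -/
theorem blocks {lam θ : ℝ} (hlam : 0 < lam) (hθ : 0 < θ) (hθ2 : θ ≤ 1 / 2) (K : ℕ) :
    ∀ (M : ℕ) (g : ℕ → ℝ) (z : ℤ), (∀ n, n + 2 < M → lam ≤ dd 2 g n) →
    (∀ n, n + 1 < M → (z : ℝ) ≤ g (n + 1) - g n ∧ g (n + 1) - g n < z + K) →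
    ‖∑ n ∈ range M, ee (g n)‖ ≤ K * (2 * (θ / lam + 1) + 4 / θ + 1) + 1 := by
  induction K with
  | zero =>
    intro M g z _ h1
    have hM : M ≤ 1 := by
      by_contra hcon
      push Not at hcon
      have := h1 0 (by omega)
      simp only [Nat.cast_zero, add_zero] at this
      linarith [this.1, this.2]
    refine (triv_bound M g).trans ?_
    have : (M : ℝ) ≤ 1 := by exact_mod_cast hM
    simpa using this
  | succ K ih =>
    intro M g z h h1
    have hmono : ∀ n, n + 2 < M → g (n + 1) - g n ≤ g (n + 2) - g (n + 1) := by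
      intro n hn
      have := h n hn
      rw [dd_two] at this
      linarith
    obtain ⟨m, hm, hp⟩ := cut (fun n => g (n + 1) - g n < z + 1) (M - 1) (fun n hn hp => by
      have := hmono n (by omega)
      try simp only at hp ⊢
      have e : n + 1 + 1 = n + 2 := rfl
      rw [e] at hp
      linarith)
    have b1 := block hlam hθ hθ2 m g z (fun n hn => h n (by omega)) (fun n hn =>
      ⟨(h1 n (by omega)).1, (hp n (by omega)).2 (by omega)⟩)
    have b2 := ih (M - m) (fun n => g (m + n)) (z + 1) (fun n hn => h (m + n) (by omega))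
      (fun n hn => ⟨by
        have := mt (hp (m + n) (by omega)).1 (by omega)
        simp only [not_lt] at this
        push_cast
        exact this, by
        have := (h1 (m + n) (by omega)).2
        push_cast at this ⊢
        have e : m + (n + 1) = m + n + 1 := by ring
        rw [e]
        linarith⟩)
    rw [sum_split M m (by omega)]
    refine (norm_add_le _ _).trans ?_
    push_cast
    linarith

/-- the second derivative test -/
theorem test2 (A : ℝ) (hA : 1 ≤ A) (η : ℝ) (N M : ℕ) (g : ℕ → ℝ) (lam : ℝ)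
    (hN : 1 ≤ N) (hM : M ≤ N) (hc : CondK 2 g M lam A) (hl1 : (N : ℝ) ^ (-2 + η) ≤ lam)
    (hl2 : lam ≤ (N : ℝ) ^ (-η)) (hη : 0 < η) :
    ‖∑ n ∈ range M, ee (g n)‖ ≤ (12 * A + 28) * (N : ℝ) ^ (1 - η / 2) := by
  have hN1 : (1 : ℝ) ≤ N := by exact_mod_cast hN
  have hN0 : (0 : ℝ) < N := by linarith
  have hlam : 0 < lam := lt_of_lt_of_le (Real.rpow_pos_of_pos hN0 _) hl1
  have hlam1 : lam ≤ 1 := hl2.trans (Real.rpow_le_one_of_one_le_of_nonpos hN1 (by linarith))
  set s := Real.sqrt lam with hs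
  have hs0 : 0 < s := Real.sqrt_pos.2 hlam
  have hss : s * s = lam := Real.mul_self_sqrt hlam.le
  have hs1 : s ≤ 1 := Real.sqrt_le_one.2 hlam1
  set z : ℤ := ⌊g 1 - g 0⌋ with hz
  set K : ℕ := ⌈(N : ℝ) * (A * lam)⌉₊ + 1 with hK
  have hKge : (N : ℝ) * (A * lam) + 1 ≤ K := by
    rw [hK]; push_cast
    linarith [Nat.le_ceil ((N : ℝ) * (A * lam))]
  have hKle : (K : ℝ) ≤ N * (A * lam) + 2 := by
    rw [hK]; push_cast
    have := Nat.ceil_lt_add_one (show 0 ≤ (N : ℝ) * (A * lam) by positivity)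
    linarith
  have hup : ∀ j, j + 1 < M → g (j + 1) - g j ≤ g 1 - g 0 + j * (A * lam) := by
    intro j
    induction j with
    | zero => intro _; simp
    | succ j ih =>
      intro hj
      have h1 := ih (by omega)
      have h2 := (hc j (by omega)).2
      rw [dd_two] at h2
      push_cast
      have e2 : j + 1 + 1 = j + 2 := rfl
      rw [e2]
      linarith
  have hmain := blocks hlam (θ := s / 2) (by positivity) (by linarith) K M g z
    (fun n hn => (hc n hn).1) (fun n hn => by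
      have h1 := incr (fun n hn => (hc n hn).1) 0 n (by omega)
      simp only [zero_add] at h1
      have h2 := hup n hn
      have h3 : (z : ℝ) ≤ g 1 - g 0 := Int.floor_le _
      have h4 : g 1 - g 0 < z + 1 := Int.lt_floor_add_one _
      have h5 : 0 ≤ (n : ℝ) * lam := by positivity
      have h6 : (n : ℝ) * (A * lam) ≤ N * (A * lam) := by
        apply mul_le_mul_of_nonneg_right _ (by positivity)
        exact_mod_cast (by omega : n ≤ N)
      constructor <;> linarith)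
  refine hmain.trans ?_
  have e1 : s / 2 / lam = 1 / (2 * s) := by
    rw [← hss]; field_simp
  have e2 : 4 / (s / 2) = 8 / s := by field_simp; norm_num
  rw [e1, e2]
  have hsinv : 1 ≤ 1 / s := by rw [le_div_iff₀ hs0]; linarith
  have hE : 2 * (1 / (2 * s) + 1) + 8 / s + 1 ≤ 12 * (1 / s) := by
    have : 2 * (1 / (2 * s) + 1) + 8 / s + 1 = 9 * (1 / s) + 3 := by field_simp; ring
    rw [this]; linarith
  have hsN : s ≤ (N : ℝ) ^ (-(η / 2)) := by
    rw [hs, Real.sqrt_le_iff]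
    refine ⟨by positivity, ?_⟩
    rw [← Real.rpow_natCast, ← Real.rpow_mul hN0.le]
    refine hl2.trans (le_of_eq ?_)
    congr 1; push_cast; ring
  have hsN2 : 1 / s ≤ (N : ℝ) ^ (1 - η / 2) := by
    have h3 : (N : ℝ) ^ (-1 + η / 2) ≤ s := by
      rw [hs]
      apply Real.le_sqrt_of_sq_le
      rw [← Real.rpow_natCast, ← Real.rpow_mul hN0.le]
      refine le_trans (le_of_eq ?_) hl1
      congr 1; push_cast; ring
    have h4 : (N : ℝ) ^ (1 - η / 2) = 1 / (N : ℝ) ^ (-1 + η / 2) := by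
      rw [eq_div_iff (by positivity), ← Real.rpow_add hN0]
      have : (1 : ℝ) - η / 2 + (-1 + η / 2) = 0 := by ring
      rw [this, Real.rpow_zero]
    rw [h4]
    exact one_div_le_one_div_of_le (by positivity) h3
  have hP : (N : ℝ) * s ≤ (N : ℝ) ^ (1 - η / 2) := by
    have e5 : (N : ℝ) ^ (1 - η / 2) = N * (N : ℝ) ^ (-(η / 2)) := by
      rw [sub_eq_add_neg, Real.rpow_add hN0, Real.rpow_one]
    rw [e5]
    exact mul_le_mul_of_nonneg_left hsN hN0.le
  have hone : 1 ≤ (N : ℝ) ^ (1 - η / 2) := hsinv.trans hsN2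
  have hsi0 : 0 < 1 / s := by positivity
  calc (K : ℝ) * (2 * (1 / (2 * s) + 1) + 8 / s + 1) + 1
      ≤ (N * (A * lam) + 2) * (12 * (1 / s)) + 1 := by
        have : (K : ℝ) * (2 * (1 / (2 * s) + 1) + 8 / s + 1) ≤ (N * (A * lam) + 2) * (12 * (1 / s)) :=
          mul_le_mul hKle hE (by positivity) (by positivity)
        linarith
    _ = 12 * A * (N * s) + 24 * (1 / s) + 1 := by
        rw [← hss]; field_simp; ring
    _ ≤ 12 * A * (N : ℝ) ^ (1 - η / 2) + 24 * (N : ℝ) ^ (1 - η / 2) + (N : ℝ) ^ (1 - η / 2) := by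
        have h1 : 12 * A * (N * s) ≤ 12 * A * (N : ℝ) ^ (1 - η / 2) :=
          mul_le_mul_of_nonneg_left hP (by positivity)
        linarith
    _ ≤ _ := by nlinarith

/-- differencing -/
theorem condK_diff {k : ℕ} {g : ℕ → ℝ} {M : ℕ} {lam A : ℝ} (hc : CondK (k + 1) g M lam A)
    (h : ℕ) : CondK k (fun n => g (n + h) - g n) (M - h) (h * lam) A := by
  intro n hn
  rw [dd_diff]
  have hb : ∀ u ∈ range h, lam ≤ dd (k + 1) g (n + u) ∧ dd (k + 1) g (n + u) ≤ A * lam := by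
    intro u hu
    rw [mem_range] at hu
    exact hc (n + u) (by omega)
  constructor
  · have := Finset.card_nsmul_le_sum (range h) _ lam fun u hu => (hb u hu).1
    rwa [card_range, nsmul_eq_mul] at this
  · have := Finset.sum_le_card_nsmul (range h) _ (A * lam) fun u hu => (hb u hu).2
    rw [card_range, nsmul_eq_mul] at this
    calc _ ≤ (h : ℝ) * (A * lam) := this
      _ = A * (h * lam) := by ring

/-- **The derivative tests** in the full range. -/
theorem testK (k : ℕ) (hk : 2 ≤ k) (A : ℝ) (hA : 1 ≤ A) (η : ℝ) (hη : 0 < η) (hη1 : η < 1) :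
    ∃ σ : ℝ, 0 < σ ∧ ∃ C : ℝ, 1 ≤ C ∧ ∀ (N M : ℕ) (g : ℕ → ℝ) (lam : ℝ), 1 ≤ N → M ≤ N →
      CondK k g M lam A → (N : ℝ) ^ (-(k : ℝ) + η) ≤ lam → lam ≤ (N : ℝ) ^ (-η) →
      ‖∑ n ∈ range M, ee (g n)‖ ≤ C * (N : ℝ) ^ (1 - σ) := by
  induction k, hk using Nat.le_induction generalizing η with
  | base =>
    refine ⟨η / 2, by positivity, 12 * A + 28, by linarith, ?_⟩
    intro N M g lam hN hM hc h1 h2
    exact test2 A hA η N M g lam hN hM hc (by push_cast at h1; exact h1) h2 hη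
  | succ k hk ih =>
    obtain ⟨σ2, hσ2, C2, hC2, hIH⟩ := ih (η / 4) (by positivity) (by linarith)
    set σ := min (η / 8) (σ2 / 2) with hσ
    have hσ0 : 0 < σ := lt_min (by positivity) (by positivity)
    refine ⟨σ, hσ0, 12 + 4 * C2, by linarith, ?_⟩
    intro N M g lam hN hMN hc hl1 hl2
    have hN1 : (1 : ℝ) ≤ N := by exact_mod_cast hN
    have hN0 : (0 : ℝ) < N := by linarith
    have hk2 : (2 : ℝ) ≤ k := by exact_mod_cast hk
    have hlam : 0 < lam := lt_of_lt_of_le (Real.rpow_pos_of_pos hN0 _) hl1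
    have hmonoN : ∀ x y : ℝ, x ≤ y → (N : ℝ) ^ x ≤ (N : ℝ) ^ y := fun x y h =>
      Real.rpow_le_rpow_of_exponent_le hN1 h
    set q1 := (N : ℝ) ^ (1 - η / 4) with hq1
    set q2 := (N : ℝ) ^ (-(η / 4)) / lam with hq2
    have hq1pos : 0 < q1 := by positivity
    have hq2pos : 0 < q2 := by positivity
    have hq1ge : (N : ℝ) ^ (3 * η / 4) ≤ q1 := hmonoN _ _ (by linarith)
    have hq2ge : (N : ℝ) ^ (3 * η / 4) ≤ q2 := by
      rw [hq2, le_div_iff₀ hlam]
      calc (N : ℝ) ^ (3 * η / 4) * lam ≤ (N : ℝ) ^ (3 * η / 4) * (N : ℝ) ^ (-η) :=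
            mul_le_mul_of_nonneg_left hl2 (by positivity)
        _ = _ := by rw [← Real.rpow_add hN0]; congr 1; ring
    set q := min q1 q2 with hq
    have hqge : (N : ℝ) ^ (3 * η / 4) ≤ q := le_min hq1ge hq2ge
    have hq1' : 1 ≤ q := (Real.one_le_rpow hN1 (by positivity)).trans hqge
    have hqN : q ≤ N := by
      refine (min_le_left _ _).trans ?_
      have := hmonoN (1 - η / 4) 1 (by linarith)
      rwa [Real.rpow_one] at this
    set H := ⌊q⌋₊ with hH
    have hH1 : 1 ≤ H := Nat.floor_pos.2 hq1'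
    have hHq : (H : ℝ) ≤ q := Nat.floor_le (by linarith)
    have hHN : H ≤ N := by
      have : (H : ℝ) ≤ N := hHq.trans hqN
      exact_mod_cast this
    have hH0 : (0 : ℝ) < H := by exact_mod_cast hH1
    have hHq2 : q ≤ 2 * H := by
      have h1 : q < (H : ℝ) + 1 := Nat.lt_floor_add_one q
      have h2 : (1 : ℝ) ≤ H := by exact_mod_cast hH1
      linarith
    set h0 : ℝ := (N : ℝ) ^ (-(k : ℝ) + η / 4) / lam with hh0
    have hh0pos : 0 < h0 := by positivity
    have hh0q : h0 ≤ q * (N : ℝ) ^ (-(η / 2)) := by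
      rcases min_cases q1 q2 with ⟨he, _⟩ | ⟨he, _⟩
      · rw [hq, he, hh0, div_le_iff₀ hlam, hq1]
        calc (N : ℝ) ^ (-(k : ℝ) + η / 4)
            = (N : ℝ) ^ (1 - η / 4) * (N : ℝ) ^ (-(η / 2)) * (N : ℝ) ^ (-((k + 1 : ℕ) : ℝ) + η) := by
              rw [← Real.rpow_add hN0, ← Real.rpow_add hN0]; congr 1; push_cast; ring
          _ ≤ _ := mul_le_mul_of_nonneg_left hl1 (by positivity)
      · rw [hq, he, hh0, hq2, div_mul_eq_mul_div, ← Real.rpow_add hN0]
        apply div_le_div_of_nonneg_right _ hlam.le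
        exact hmonoN _ _ (by linarith)
    have hSh : ∀ h ∈ Ico 1 H, ‖∑ n ∈ range (M - h), ee ((fun n => g (n + h) - g n) n)‖ ≤
        (if (h : ℝ) < h0 then (N : ℝ) else 0) + C2 * (N : ℝ) ^ (1 - σ2) := by
      intro h hh
      rw [mem_Ico] at hh
      have hh1 : (1 : ℝ) ≤ h := by exact_mod_cast hh.1
      have hhH : (h : ℝ) ≤ H := by exact_mod_cast hh.2.le
      have hC0 : 0 ≤ C2 * (N : ℝ) ^ (1 - σ2) := by positivity
      split_ifs with hlt
      · refine (triv_bound (M - h) _).trans ?_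
        have : ((M - h : ℕ) : ℝ) ≤ N := by exact_mod_cast (by omega : M - h ≤ N)
        linarith
      · rw [zero_add]
        push Not at hlt
        refine hIH N (M - h) (fun n => g (n + h) - g n) (h * lam) hN (by omega)
          (condK_diff hc h) ?_ ?_
        · rw [hh0, div_le_iff₀ hlam] at hlt
          exact hlt
        · calc (h : ℝ) * lam ≤ q2 * lam :=
              mul_le_mul_of_nonneg_right (hhH.trans (hHq.trans (min_le_right _ _))) hlam.le
            _ = (N : ℝ) ^ (-(η / 4)) := by rw [hq2]; field_simp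
    have hv := vdc_ineq' M N H hMN hH1 hHN g
    set T := ∑ h ∈ Ico 1 H, ‖∑ n ∈ range (M - h), ee ((fun n => g (n + h) - g n) n)‖ with hT
    have hcnt : ∑ h ∈ Ico 1 H, (if (h : ℝ) < h0 then (N : ℝ) else 0) ≤ h0 * N := by
      rw [← sum_filter, sum_const, nsmul_eq_mul]
      apply mul_le_mul_of_nonneg_right _ hN0.le
      have h1 : (Ico 1 H).filter (fun h : ℕ => (h : ℝ) < h0) ⊆ Icc 1 ⌊h0⌋₊ := by
        intro x hx
        rw [mem_filter, mem_Ico] at hx
        rw [mem_Icc]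
        exact ⟨hx.1.1, Nat.le_floor hx.2.le⟩
      have h2 := card_le_card h1
      rw [Nat.card_Icc, Nat.add_sub_cancel] at h2
      calc (((Ico 1 H).filter (fun h : ℕ => (h : ℝ) < h0)).card : ℝ) ≤ (⌊h0⌋₊ : ℝ) := by
            exact_mod_cast h2
        _ ≤ h0 := Nat.floor_le hh0pos.le
    have hT1 : T ≤ h0 * N + H * (C2 * (N : ℝ) ^ (1 - σ2)) := by
      refine (sum_le_sum hSh).trans ?_
      rw [sum_add_distrib, sum_const, Nat.card_Ico, nsmul_eq_mul]
      have : ((H - 1 : ℕ) : ℝ) ≤ (H : ℕ) := by exact_mod_cast Nat.sub_le _ _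
      have h3 : ((H - 1 : ℕ) : ℝ) * (C2 * (N : ℝ) ^ (1 - σ2)) ≤ (H : ℕ) * (C2 * (N : ℝ) ^ (1 - σ2)) :=
        mul_le_mul_of_nonneg_right this (by positivity)
      linarith
    have hmain : ‖∑ n ∈ range M, ee (g n)‖ ^ 2 ≤ (12 + 4 * C2) * ((N : ℝ) ^ (1 - σ)) ^ 2 := by
      have e : ((N : ℝ) ^ (1 - σ)) ^ 2 = (N : ℝ) ^ (2 - 2 * σ) := by
        rw [← Real.rpow_natCast, ← Real.rpow_mul hN0.le]; congr 1; push_cast; ring
      rw [e]
      have h1 : 2 * (N : ℝ) / H * ((N : ℝ) + 2 * T) ≤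
          2 * (N : ℝ) / H * ((N : ℝ) + 2 * (h0 * N + H * (C2 * (N : ℝ) ^ (1 - σ2)))) :=
        mul_le_mul_of_nonneg_left (by linarith) (by positivity)
      have h2 : 2 * (N : ℝ) / H * ((N : ℝ) + 2 * (h0 * N + H * (C2 * (N : ℝ) ^ (1 - σ2)))) =
          2 * (N : ℝ) ^ 2 * (1 / H) + 4 * (N : ℝ) ^ 2 * (h0 / H) + 4 * C2 * (N * (N : ℝ) ^ (1 - σ2)) := by
        field_simp
        ring
      have h3 : 1 / (H : ℝ) ≤ 2 * (N : ℝ) ^ (-(3 * η / 4)) := by
        have h4 : (N : ℝ) ^ (-(3 * η / 4)) = 1 / (N : ℝ) ^ (3 * η / 4) := by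
          rw [Real.rpow_neg hN0.le]; ring
        rw [h4, mul_one_div, div_le_div_iff₀ hH0 (by positivity)]
        linarith
      have h3' : h0 / H ≤ 2 * (N : ℝ) ^ (-(η / 2)) := by
        rw [div_le_iff₀ hH0]
        have hp : 0 ≤ (N : ℝ) ^ (-(η / 2)) := by positivity
        calc h0 ≤ q * (N : ℝ) ^ (-(η / 2)) := hh0q
          _ ≤ (2 * H) * (N : ℝ) ^ (-(η / 2)) := mul_le_mul_of_nonneg_right hHq2 hp
          _ = _ := by ring
      have hs : σ ≤ η / 8 := min_le_left _ _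
      have e5 : ∀ x : ℝ, (N : ℝ) ^ 2 * (N : ℝ) ^ x = (N : ℝ) ^ (2 + x) := by
        intro x
        rw [← Real.rpow_natCast, ← Real.rpow_add hN0]; congr 1
      have h5 : 2 * (N : ℝ) ^ 2 * (1 / H) ≤ 4 * (N : ℝ) ^ (2 - 2 * σ) := by
        calc 2 * (N : ℝ) ^ 2 * (1 / H) ≤ 2 * (N : ℝ) ^ 2 * (2 * (N : ℝ) ^ (-(3 * η / 4))) :=
              mul_le_mul_of_nonneg_left h3 (by positivity)
          _ = 4 * ((N : ℝ) ^ 2 * (N : ℝ) ^ (-(3 * η / 4))) := by ring
          _ ≤ 4 * (N : ℝ) ^ (2 - 2 * σ) := by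
              rw [e5]
              exact mul_le_mul_of_nonneg_left (hmonoN _ _ (by linarith)) (by norm_num)
      have h5' : 4 * (N : ℝ) ^ 2 * (h0 / H) ≤ 8 * (N : ℝ) ^ (2 - 2 * σ) := by
        calc 4 * (N : ℝ) ^ 2 * (h0 / H) ≤ 4 * (N : ℝ) ^ 2 * (2 * (N : ℝ) ^ (-(η / 2))) :=
              mul_le_mul_of_nonneg_left h3' (by positivity)
          _ = 8 * ((N : ℝ) ^ 2 * (N : ℝ) ^ (-(η / 2))) := by ring
          _ ≤ 8 * (N : ℝ) ^ (2 - 2 * σ) := by
              rw [e5]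
              exact mul_le_mul_of_nonneg_left (hmonoN _ _ (by linarith)) (by norm_num)
      have h6 : N * (N : ℝ) ^ (1 - σ2) ≤ (N : ℝ) ^ (2 - 2 * σ) := by
        have : N * (N : ℝ) ^ (1 - σ2) = (N : ℝ) ^ (2 - σ2) := by
          have e2 : (2 : ℝ) - σ2 = 1 + (1 - σ2) := by ring
          rw [e2, Real.rpow_add hN0 1, Real.rpow_one]
        rw [this]
        have hs : σ ≤ σ2 / 2 := min_le_right _ _
        exact hmonoN _ _ (by linarith)
      rw [h2] at h1
      have h7 : 4 * C2 * (N * (N : ℝ) ^ (1 - σ2)) ≤ 4 * C2 * (N : ℝ) ^ (2 - 2 * σ) :=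
        mul_le_mul_of_nonneg_left h6 (by linarith)
      rw [add_mul]
      linarith
    exact sq_to_lin (norm_nonneg _) (by linarith) hN0.le hmain

/-- the tests of the orders `k ≤ K` with common constants -/
theorem testK_unif (A : ℝ) (hA : 1 ≤ A) (η : ℝ) (hη : 0 < η) (hη1 : η < 1) (K : ℕ) :
    ∃ σ : ℝ, 0 < σ ∧ ∃ C : ℝ, 1 ≤ C ∧ ∀ k : ℕ, 2 ≤ k → k ≤ K →
    ∀ (N M : ℕ) (g : ℕ → ℝ) (lam : ℝ), 1 ≤ N → M ≤ N →
      CondK k g M lam A → (N : ℝ) ^ (-(k : ℝ) + η) ≤ lam → lam ≤ (N : ℝ) ^ (-η) →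
      ‖∑ n ∈ range M, ee (g n)‖ ≤ C * (N : ℝ) ^ (1 - σ) := by
  induction K with
  | zero =>
    refine ⟨1, one_pos, 1, le_rfl, ?_⟩
    intro k h1 h2
    omega
  | succ K ih =>
    obtain ⟨σ1, hσ1, C1, hC1, h1⟩ := ih
    by_cases hK : 2 ≤ K + 1
    · obtain ⟨σ2, hσ2, C2, hC2, h2⟩ := testK (K + 1) hK A hA η hη hη1
      refine ⟨min σ1 σ2, lt_min hσ1 hσ2, max C1 C2, le_trans hC1 (le_max_left _ _), ?_⟩
      intro k hk hkK N M g lam hN hM hc hl1 hl2
      have hN' : (1 : ℝ) ≤ N := by exact_mod_cast hN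
      have hpos : ∀ s : ℝ, 0 ≤ (N : ℝ) ^ s := fun s => Real.rpow_nonneg (by linarith) s
      rcases Nat.lt_or_ge k (K + 1) with hlt | hge
      · refine (h1 k hk (by omega) N M g lam hN hM hc hl1 hl2).trans ?_
        refine mul_le_mul (le_max_left _ _) ?_ (hpos _) (by linarith [le_max_left C1 C2])
        exact Real.rpow_le_rpow_of_exponent_le hN' (by linarith [min_le_left σ1 σ2])
      · have hke : k = K + 1 := by omega
        subst hke
        refine (h2 N M g lam hN hM hc hl1 hl2).trans ?_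
        refine mul_le_mul (le_max_right _ _) ?_ (hpos _) (by linarith [le_max_left C1 C2])
        exact Real.rpow_le_rpow_of_exponent_le hN' (by linarith [min_le_right σ1 σ2])
    · refine ⟨σ1, hσ1, C1, hC1, ?_⟩
      intro k hk hkK
      omega

end Pool.Agent.TH373.DR3
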